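import Mathlib

set_option autoImplicit false

/-! Closed subgroup of `U(N)`: quadratic tangent lemma (job 22, for helper16). -/

open Matrix Filter Topology
open scoped Matrix.Norms.Frobenius

namespace Pool.Agent.Y274.YMTan

section Banach

variable {A : Type*} [NormedRing A] [NormedAlgebra ℝ A] [CompleteSpace A]

/-- powers of near-identity elements converge to exponentials -/
theorem pow_tendsto_exp (h : ℕ → A) (τ : ℕ → ℝ) (hτ : ∀ k, 0 < τ k)
    (hτ0 : Tendsto τ atTop (𝓝 0)) (Z : A)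
    (hZ : Tendsto (fun k => (τ k)⁻¹ • (h k - 1)) atTop (𝓝 Z)) (t : ℝ) (ht : 0 ≤ t) :
    Tendsto (fun k => h k ^ ⌊t / τ k⌋₊) atTop (𝓝 (NormedSpace.exp (t • Z))) := by
  let _ : NormedAlgebra ℚ A := NormedAlgebra.restrictScalars ℚ ℝ A
  have hexp : HasStrictFDerivAt (NormedSpace.exp : A → A)
      ((ContinuousLinearEquiv.refl ℝ A : A ≃L[ℝ] A) : A →L[ℝ] A) 0 := by
    have := hasStrictFDerivAt_exp_zero (𝕂 := ℝ) (𝔸 := A)
    exact this
  set lg : A → A := hexp.localInverse with hlg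
  have hright : ∀ᶠ y in 𝓝 (1 : A), NormedSpace.exp (lg y) = y := by
    have := hexp.eventually_right_inverse
    rwa [NormedSpace.exp_zero] at this
  have hlg1 : lg 1 = 0 := by
    have := hexp.localInverse_apply_image
    rwa [NormedSpace.exp_zero] at this
  have hlgd : HasFDerivAt lg (ContinuousLinearMap.id ℝ A) 1 := by
    have := hexp.to_localInverse.hasFDerivAt
    rw [NormedSpace.exp_zero] at this
    exact this
  -- `h k → 1`
  have hd : Tendsto (fun k => h k - 1) atTop (𝓝 0) := by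
    have h1 := hτ0.smul hZ
    rw [zero_smul] at h1
    refine h1.congr fun k => ?_
    rw [smul_smul, mul_inv_cancel₀ (hτ k).ne', one_smul]
  have hh1 : Tendsto h atTop (𝓝 1) := by
    have := hd.add_const 1
    simpa using this
  have hL : Tendsto (fun k => (τ k)⁻¹ • lg (h k)) atTop (𝓝 Z) := by
    have h1 := (hasFDerivWithinAt_univ.mpr hlgd).lim (c := fun k => (τ k)⁻¹)
      (d := fun k => h k - 1) (l := atTop) (v := Z) hd
      (Eventually.of_forall fun _ => Set.mem_univ _) hZ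
    simp only [add_sub_cancel, hlg1, sub_zero, ContinuousLinearMap.id_apply] at h1
    exact h1
  -- the integer parts
  have hm : Tendsto (fun k => (⌊t / τ k⌋₊ : ℝ) * τ k) atTop (𝓝 t) := by
    rw [tendsto_iff_norm_sub_tendsto_zero]
    refine squeeze_zero (fun _ => norm_nonneg _) (fun k => ?_) hτ0
    have h1 := Nat.floor_le (div_nonneg ht (hτ k).le)
    have h2 := Nat.lt_floor_add_one (t / τ k)
    rw [le_div_iff₀ (hτ k)] at h1
    rw [div_lt_iff₀ (hτ k)] at h2
    rw [Real.norm_eq_abs, abs_le]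
    constructor <;> nlinarith [hτ k]
  have hmL : Tendsto (fun k => ⌊t / τ k⌋₊ • lg (h k)) atTop (𝓝 (t • Z)) := by
    have h1 := hm.smul hL
    refine h1.congr fun k => ?_
    rw [smul_smul, mul_assoc, mul_inv_cancel₀ (hτ k).ne', mul_one, Nat.cast_smul_eq_nsmul]
  have hE : Continuous (NormedSpace.exp : A → A) := NormedSpace.exp_continuous
  refine ((hE.tendsto _).comp hmL).congr' ?_
  filter_upwards [hh1.eventually hright] with k hk
  simp only [Function.comp_apply]
  rw [NormedSpace.exp_nsmul, hk]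

theorem exp_sub_isBigO :
    (fun x : A => NormedSpace.exp x - 1 - x) =O[𝓝 0] fun x => ‖x‖ ^ 2 := by
  have h := (NormedSpace.exp_hasFPowerSeriesAt_zero (𝕂 := ℝ) (𝔸 := A)).isBigO_sub_partialSum_pow 2
  refine h.congr_left fun x => ?_
  simp [FormalMultilinearSeries.partialSum, Finset.sum_range_succ, NormedSpace.expSeries_apply_eq,
    sub_sub]

theorem exp_lim (W : A) : Tendsto (fun k : ℕ => ((1 / ((k : ℝ) + 1)))⁻¹ •
    (NormedSpace.exp ((1 / ((k : ℝ) + 1)) • W) - 1)) atTop (𝓝 W) := by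
  have hτ0 : Tendsto (fun k : ℕ => 1 / ((k : ℝ) + 1)) atTop (𝓝 0) :=
    tendsto_one_div_add_atTop_nhds_zero_nat
  have hpos : ∀ k : ℕ, 0 < 1 / ((k : ℝ) + 1) := fun k => by positivity
  have h0 := hasFDerivAt_exp_zero (𝕂 := ℝ) (𝔸 := A)
  have h1 := (hasFDerivWithinAt_univ.mpr h0).lim (c := fun k : ℕ => ((1 / ((k : ℝ) + 1)))⁻¹)
    (d := fun k : ℕ => (1 / ((k : ℝ) + 1)) • W) (l := atTop) (v := W)
    (by
      have := hτ0.smul_const W
      rwa [zero_smul] at this)
    (Eventually.of_forall fun _ => Set.mem_univ _)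
    (by
      refine tendsto_const_nhds.congr fun k => ?_
      rw [smul_smul, inv_mul_cancel₀ (hpos k).ne', one_smul])
  simp only [zero_add, NormedSpace.exp_zero] at h1
  exact h1

/-- the product of two one-parameter groups -/
theorem mul_tendsto (X Y : A) : Tendsto (fun k : ℕ => ((1 / ((k : ℝ) + 1)))⁻¹ •
    (NormedSpace.exp ((1 / ((k : ℝ) + 1)) • X) * NormedSpace.exp ((1 / ((k : ℝ) + 1)) • Y) - 1))
    atTop (𝓝 (X + Y)) := by
  let _ : NormedAlgebra ℚ A := NormedAlgebra.restrictScalars ℚ ℝ A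
  have hτ0 : Tendsto (fun k : ℕ => 1 / ((k : ℝ) + 1)) atTop (𝓝 0) :=
    tendsto_one_div_add_atTop_nhds_zero_nat
  have hE : Tendsto (fun k : ℕ => NormedSpace.exp ((1 / ((k : ℝ) + 1)) • Y)) atTop (𝓝 1) := by
    have h1 : Tendsto (fun k : ℕ => (1 / ((k : ℝ) + 1)) • Y) atTop (𝓝 0) := by
      have := hτ0.smul_const Y
      rwa [zero_smul] at this
    have h2 := ((NormedSpace.exp_continuous (𝔸 := A)).tendsto 0).comp h1
    rw [NormedSpace.exp_zero] at h2
    exact h2
  have h3 := ((exp_lim X).mul hE).add (exp_lim Y)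
  rw [mul_one] at h3
  refine h3.congr fun k => ?_
  rw [smul_mul_assoc, ← smul_add]
  congr 1
  rw [sub_mul, one_mul]
  abel

/-- the expansion used for the corrected elements -/
theorem corr_isBigO {ι : Type*} {l : Filter ι} (W B : ι → A) (hW : Tendsto W l (𝓝 0)) (C : ℝ)
    (hB : ∀ i, ‖B i‖ ≤ C * ‖W i‖) :
    (fun i => NormedSpace.exp (-(B i)) * (1 + W i) - 1 - (W i - B i)) =O[l]
      fun i => ‖W i‖ ^ 2 := by
  have hBO : B =O[l] W := Asymptotics.IsBigO.of_bound C (Eventually.of_forall hB)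
  have hB0 : Tendsto B l (𝓝 0) := hBO.trans_tendsto hW
  have hnB : Tendsto (fun i => -(B i)) l (𝓝 0) := by
    have := hB0.neg
    rwa [neg_zero] at this
  have h1 : (fun i => NormedSpace.exp (-(B i)) - 1 - -(B i)) =O[l] fun i => ‖W i‖ ^ 2 := by
    have h2 := (exp_sub_isBigO (A := A)).comp_tendsto hnB
    refine h2.trans ?_
    have h3 : (fun i => -(B i)) =O[l] W := hBO.neg_left
    have h4 := (h3.norm_norm).pow 2
    exact h4
  have h2 : (fun i => 1 + W i) =O[l] fun _ => (1 : ℝ) := by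
    have : Tendsto (fun i => 1 + W i) l (𝓝 (1 + 0)) := hW.const_add 1
    exact this.isBigO_one ℝ
  have h3 := h1.mul h2
  have h4 : (fun i => B i * W i) =O[l] fun i => ‖W i‖ ^ 2 := by
    have h5 := (hBO.norm_right).mul (Asymptotics.isBigO_refl W l).norm_right
    simpa [sq] using h5
  have h6 := (h3.congr_right (g₂ := fun i => ‖W i‖ ^ 2) fun i => by rw [mul_one]).sub h4
  refine h6.congr_left fun i => ?_
  noncomm_ring

end Banach

section Mat

variable {N n : ℕ}

/-- square matrices -/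
abbrev Mt (N : ℕ) := Matrix (Fin N) (Fin N) ℂ

/-- the set of matrices of the group -/
def S (G : Subgroup (Matrix.unitaryGroup (Fin N) ℂ)) : Set (Mt N) :=
  {M | ∃ g : G, ((g : unitaryGroup (Fin N) ℂ) : Mt N) = M}

variable {G : Subgroup (Matrix.unitaryGroup (Fin N) ℂ)}

theorem S_closed (hG : IsClosed (G : Set (Matrix.unitaryGroup (Fin N) ℂ))) :
    IsClosed (S G) := by
  have h1 : IsClosed (Matrix.unitaryGroup (Fin N) ℂ : Set (Mt N)) := isClosed_unitary
  have h2 := h1.isClosedEmbedding_subtypeVal.isClosedMap _ hG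
  have h3 : (Subtype.val '' (G : Set (Matrix.unitaryGroup (Fin N) ℂ)) : Set (Mt N)) = S G := by
    ext M
    constructor
    · rintro ⟨g, hg, rfl⟩
      exact ⟨⟨g, hg⟩, rfl⟩
    · rintro ⟨g, rfl⟩
      exact ⟨g.1, g.2, rfl⟩
  rw [← h3]
  exact h2

theorem S_mul {M M' : Mt N} (h : M ∈ S G) (h' : M' ∈ S G) : M * M' ∈ S G := by
  obtain ⟨g, rfl⟩ := h
  obtain ⟨g', rfl⟩ := h'
  exact ⟨g * g', rfl⟩

theorem S_one : (1 : Mt N) ∈ S G := ⟨1, rfl⟩

theorem S_pow {M : Mt N} (h : M ∈ S G) (k : ℕ) : M ^ k ∈ S G := by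
  induction k with
  | zero => rw [pow_zero]; exact S_one
  | succ k ih => rw [pow_succ]; exact S_mul ih h

theorem S_neg {Y : Mt N} (h : NormedSpace.exp Y ∈ S G) : NormedSpace.exp (-Y) ∈ S G := by
  obtain ⟨g, hg⟩ := h
  refine ⟨g⁻¹, ?_⟩
  have h1 : ((g⁻¹ : G) : Matrix.unitaryGroup (Fin N) ℂ).1 * NormedSpace.exp Y = 1 := by
    rw [← hg]
    have : (g⁻¹ * g : G) = 1 := inv_mul_cancel g
    have h2 := congrArg (fun x : G => ((x : Matrix.unitaryGroup (Fin N) ℂ) : Mt N)) this
    exact h2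
  have h2 : NormedSpace.exp Y * NormedSpace.exp (-Y) = 1 := by
    rw [← Matrix.exp_add_of_commute _ _ (Commute.neg_right (Commute.refl Y)), add_neg_cancel,
      NormedSpace.exp_zero]
  calc _ = ((g⁻¹ : G) : Matrix.unitaryGroup (Fin N) ℂ).1 * (NormedSpace.exp Y *
        NormedSpace.exp (-Y)) := by rw [h2, mul_one]
    _ = NormedSpace.exp (-Y) := by rw [← mul_assoc, h1, one_mul]

/-- limits of near-identity group elements are in the Lie algebra -/
theorem lie_of_lim (hG : IsClosed (G : Set (Matrix.unitaryGroup (Fin N) ℂ)))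
    (h : ℕ → Mt N) (hS : ∀ k, h k ∈ S G) (τ : ℕ → ℝ) (hτ : ∀ k, 0 < τ k)
    (hτ0 : Tendsto τ atTop (𝓝 0)) (Z : Mt N)
    (hZ : Tendsto (fun k => (τ k)⁻¹ • (h k - 1)) atTop (𝓝 Z)) (t : ℝ) :
    NormedSpace.exp (t • Z) ∈ S G := by
  have key : ∀ t : ℝ, 0 ≤ t → NormedSpace.exp (t • Z) ∈ S G := by
    intro t ht
    exact (S_closed hG).mem_of_tendsto (pow_tendsto_exp h τ hτ hτ0 Z hZ t ht)
      (Eventually.of_forall fun k => S_pow (hS k) _)
  rcases le_total 0 t with ht | ht
  · exact key t ht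
  · have h1 := S_neg (key (-t) (by linarith))
    rwa [neg_smul, neg_neg] at h1

theorem lie_add (hG : IsClosed (G : Set (Matrix.unitaryGroup (Fin N) ℂ))) (X Y : Mt N)
    (hX : ∀ t : ℝ, NormedSpace.exp (t • X) ∈ S G) (hY : ∀ t : ℝ, NormedSpace.exp (t • Y) ∈ S G)
    (t : ℝ) : NormedSpace.exp (t • (X + Y)) ∈ S G :=
  lie_of_lim hG _ (fun k : ℕ => S_mul (hX (1 / ((k : ℝ) + 1))) (hY (1 / ((k : ℝ) + 1)))) _
    (fun k => by positivity) tendsto_one_div_add_atTop_nhds_zero_nat _ (mul_tendsto X Y) t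

theorem lie_span (hG : IsClosed (G : Set (Matrix.unitaryGroup (Fin N) ℂ)))
    (X : Fin n → Mt N) (hX : ∀ a (t : ℝ), NormedSpace.exp (t • X a) ∈ S G) (Y : Mt N)
    (hY : Y ∈ Submodule.span ℝ (Set.range X)) (t : ℝ) : NormedSpace.exp (t • Y) ∈ S G := by
  induction hY using Submodule.span_induction generalizing t with
  | mem x hx => obtain ⟨a, rfl⟩ := hx; exact hX a t
  | zero => rw [smul_zero, NormedSpace.exp_zero]; exact S_one
  | add x y _ _ hx hy => exact lie_add hG x y hx hy t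
  | smul c x _ hx => rw [smul_smul]; exact hx _

/-- the projection -/
noncomputable def P (X : Fin n → Mt N) : Mt N →ₗ[ℝ] Mt N where
  toFun M := ∑ a, (trace ((X a)ᴴ * M)).re • X a
  map_add' := by
    intro M M'
    rw [← Finset.sum_add_distrib]
    refine Finset.sum_congr rfl fun a _ => ?_
    rw [mul_add, trace_add, Complex.add_re, add_smul]
  map_smul' := by
    intro c M
    rw [RingHom.id_apply, Finset.smul_sum]
    refine Finset.sum_congr rfl fun a _ => ?_
    rw [Matrix.mul_smul, trace_smul, Complex.real_smul, Complex.re_ofReal_mul, smul_smul]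

theorem P_apply (X : Fin n → Mt N) (M : Mt N) :
    P X M = ∑ a, (trace ((X a)ᴴ * M)).re • X a := rfl

theorem P_mem (X : Fin n → Mt N) (M : Mt N) : P X M ∈ Submodule.span ℝ (Set.range X) := by
  rw [P_apply]
  exact Submodule.sum_mem _ fun a _ => Submodule.smul_mem _ _
    (Submodule.subset_span (Set.mem_range_self a))

theorem P_span (X : Fin n → Mt N)
    (orth : ∀ a b, (trace ((X a)ᴴ * X b)).re = if a = b then 1 else 0) (Y : Mt N)
    (hY : Y ∈ Submodule.span ℝ (Set.range X)) : P X Y = Y := by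
  induction hY using Submodule.span_induction with
  | mem x hx =>
    obtain ⟨b, rfl⟩ := hx
    rw [P_apply]
    simp only [orth]
    simp
  | zero => rw [map_zero]
  | add x y _ _ hx hy => rw [map_add, hx, hy]
  | smul c x _ hx => rw [map_smul, hx]

/-- the directions of one-parameter unitary groups are skew-hermitian -/
theorem skew (X : Mt N) (hX : ∀ t : ℝ, NormedSpace.exp (t • X) ∈ S G) : Xᴴ = -X := by
  have h1 : ∀ t : ℝ, NormedSpace.exp (t • Xᴴ) = NormedSpace.exp (t • (-X)) := by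
    intro t
    have e1 : NormedSpace.exp (t • Xᴴ) = (NormedSpace.exp (t • X))ᴴ := by
      rw [← Matrix.exp_conjTranspose, conjTranspose_smul]
      simp
    obtain ⟨g, hg⟩ := hX t
    have h2 : (NormedSpace.exp (t • X))ᴴ * NormedSpace.exp (t • X) = 1 := by
      rw [← hg]
      exact (mem_unitaryGroup_iff'.mp (g : Matrix.unitaryGroup (Fin N) ℂ).2)
    have h3 : NormedSpace.exp (t • X) * NormedSpace.exp (t • (-X)) = 1 := by
      rw [smul_neg, ← Matrix.exp_add_of_commute _ _ ((Commute.refl (t • X)).neg_right),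
        add_neg_cancel, NormedSpace.exp_zero]
    rw [e1]
    calc (NormedSpace.exp (t • X))ᴴ = (NormedSpace.exp (t • X))ᴴ * (NormedSpace.exp (t • X) *
          NormedSpace.exp (t • (-X))) := by rw [h3, mul_one]
      _ = _ := by rw [← mul_assoc, h2, one_mul]
  have h2 := exp_lim (Xᴴ : Mt N)
  have h3 := exp_lim (-X : Mt N)
  refine tendsto_nhds_unique h2 (h3.congr fun k => ?_)
  exact congrArg (fun M : Mt N => ((1 / ((k : ℝ) + 1)))⁻¹ • (M - 1)) (h1 _).symm

theorem tangent {N n : ℕ} (G : Subgroup (Matrix.unitaryGroup (Fin N) ℂ))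
    (hG : IsClosed (G : Set (Matrix.unitaryGroup (Fin N) ℂ)))
    (X : Fin n → Matrix (Fin N) (Fin N) ℂ)
    (orth : ∀ a b, (trace ((X a)ᴴ * X b)).re = if a = b then 1 else 0)
    (ex : ∀ (a : Fin n) (t : ℝ), ∃ g : G,
      ((g : unitaryGroup (Fin N) ℂ) : Matrix (Fin N) (Fin N) ℂ) = NormedSpace.exp (t • X a))
    (full : ∀ Y : Matrix (Fin N) (Fin N) ℂ, (∀ t : ℝ, ∃ g : G,
      ((g : unitaryGroup (Fin N) ℂ) : Matrix (Fin N) (Fin N) ℂ) = NormedSpace.exp (t • Y)) →
      Y ∈ Submodule.span ℝ (Set.range X)) :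
    ∃ C : ℝ, 0 < C ∧ ∀ g : G,
      ‖((g : unitaryGroup (Fin N) ℂ) : Matrix (Fin N) (Fin N) ℂ) - 1 - ∑ a, (trace ((X a)ᴴ *
        ((g : unitaryGroup (Fin N) ℂ) : Matrix (Fin N) (Fin N) ℂ))).re • X a‖ ≤
        C * ‖((g : unitaryGroup (Fin N) ℂ) : Matrix (Fin N) (Fin N) ℂ) - 1‖ ^ 2 := by
  have hexS : ∀ a (t : ℝ), NormedSpace.exp (t • X a) ∈ S G := ex
  have hPone : P X 1 = 0 := by
    rw [P_apply]
    refine Finset.sum_eq_zero fun a _ => ?_
    have h1 := skew (X a) (hexS a)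
    have h2 : (trace ((X a)ᴴ * 1)).re = 0 := by
      rw [mul_one]
      have h3 : (trace (X a)ᴴ).re = (trace (X a)).re := by
        rw [trace_conjTranspose]; simp
      have h4 : (trace (X a)ᴴ).re = -(trace (X a)).re := by
        rw [h1, trace_neg, Complex.neg_re]
      linarith
    rw [h2, zero_smul]
  by_contra hcon
  push Not at hcon
  choose g hg using fun k : ℕ => hcon ((k : ℝ) + 1) (by positivity)
  set W : ℕ → Mt N := fun k => ((g k : unitaryGroup (Fin N) ℂ) : Mt N) - 1 with hW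
  have hgW : ∀ k, ((g k : unitaryGroup (Fin N) ℂ) : Mt N) = 1 + W k := fun k => by
    rw [hW]; simp
  have hQ : ∀ k, ((g k : unitaryGroup (Fin N) ℂ) : Mt N) - 1 - ∑ a, (trace ((X a)ᴴ *
        ((g k : unitaryGroup (Fin N) ℂ) : Mt N))).re • X a = W k - P X (W k) := by
    intro k
    rw [← P_apply, hgW, map_add, hPone, zero_add, add_sub_cancel_left]
  have hPc : Continuous (P X) := LinearMap.continuous_of_finiteDimensional _
  obtain ⟨CP, hCP0, hCP⟩ : ∃ C : ℝ, 0 < C ∧ ∀ M : Mt N, ‖P X M‖ ≤ C * ‖M‖ :=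
    SemilinearMapClass.bound_of_continuous (P X) hPc
  have hlt : ∀ k : ℕ, ((k : ℝ) + 1) * ‖W k‖ ^ 2 < ‖W k - P X (W k)‖ := by
    intro k
    have := hg k
    rw [hQ k] at this
    exact this
  have hle : ∀ k, ‖W k - P X (W k)‖ ≤ (1 + CP) * ‖W k‖ := by
    intro k
    refine (norm_sub_le _ _).trans ?_
    have := hCP (W k)
    linarith
  set τ : ℕ → ℝ := fun k => ‖W k - P X (W k)‖ with hτdef
  have hτpos : ∀ k, 0 < τ k := fun k => lt_of_le_of_lt (by positivity) (hlt k)
  have hWb : ∀ k : ℕ, ‖W k‖ ≤ (1 + CP) * (1 / ((k : ℝ) + 1)) := by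
    intro k
    rcases (norm_nonneg (W k)).eq_or_lt with h0 | h0
    · rw [← h0]; positivity
    · have h1 := (hlt k).trans_le (hle k)
      have h2 : ((k : ℝ) + 1) * ‖W k‖ < 1 + CP := by
        rw [sq, ← mul_assoc] at h1
        exact lt_of_mul_lt_mul_right h1 h0.le
      rw [mul_one_div, le_div_iff₀ (by positivity)]
      linarith
  have hW0 : Tendsto W atTop (𝓝 0) := by
    refine tendsto_zero_iff_norm_tendsto_zero.mpr ?_
    refine squeeze_zero (fun _ => norm_nonneg _) hWb ?_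
    have := (tendsto_one_div_add_atTop_nhds_zero_nat (𝕜 := ℝ)).const_mul (1 + CP)
    rwa [mul_zero] at this
  have hτ0 : Tendsto τ atTop (𝓝 0) := by
    refine squeeze_zero (fun k => (hτpos k).le) hle ?_
    have := (tendsto_zero_iff_norm_tendsto_zero.mp hW0).const_mul (1 + CP)
    rwa [mul_zero] at this
  -- normalised directions
  set U : ℕ → Mt N := fun k => (τ k)⁻¹ • (W k - P X (W k)) with hU
  have hUn : ∀ k, U k ∈ Metric.sphere (0 : Mt N) 1 := by
    intro k
    rw [mem_sphere_zero_iff_norm, hU]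
    simp only
    rw [norm_smul, norm_inv, Real.norm_eq_abs, abs_of_pos (hτpos k)]
    exact inv_mul_cancel₀ (hτpos k).ne'
  have : ProperSpace (Mt N) := FiniteDimensional.proper ℝ _
  obtain ⟨Z, hZs, φ, hφ, hZ⟩ := (isCompact_sphere (0 : Mt N) 1).tendsto_subseq hUn
  have hPP : ∀ M, P X (P X M) = P X M := fun M => P_span X orth _ (P_mem X M)
  have hPZ : P X Z = 0 := by
    have h1 : Tendsto (fun k => P X (U (φ k))) atTop (𝓝 (P X Z)) := (hPc.tendsto Z).comp hZ
    have h2 : ∀ k, P X (U (φ k)) = 0 := by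
      intro k
      rw [hU]
      simp only
      rw [map_smul, map_sub, hPP, sub_self, smul_zero]
    simp only [h2] at h1
    exact (tendsto_nhds_unique h1 tendsto_const_nhds)
  -- corrected elements
  set h : ℕ → Mt N := fun k => NormedSpace.exp (-(P X (W k))) * (1 + W k) with hh
  have hhS : ∀ k, h k ∈ S G := by
    intro k
    refine S_mul ?_ ⟨g k, hgW k⟩
    have := lie_span hG X hexS _ (P_mem X (W k)) (-1)
    rwa [neg_smul, one_smul] at this
  have hO := corr_isBigO (l := atTop) W (fun k => P X (W k)) hW0 CP fun k => hCP (W k)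
  obtain ⟨D, hD⟩ := hO.bound
  have hsmall : Tendsto (fun k => (τ k)⁻¹ • (h k - 1 - (W k - P X (W k)))) atTop (𝓝 0) := by
    refine tendsto_zero_iff_norm_tendsto_zero.mpr ?_
    refine squeeze_zero' (Eventually.of_forall fun _ => norm_nonneg _)
      (g := fun k : ℕ => |D| * (1 / ((k : ℝ) + 1))) ?_ ?_
    · filter_upwards [hD] with k hk
      rw [norm_smul, norm_inv, Real.norm_eq_abs, abs_of_pos (hτpos k)]
      rw [Real.norm_eq_abs, abs_of_nonneg (sq_nonneg _)] at hk
      have h1 : ‖h k - 1 - (W k - P X (W k))‖ ≤ |D| * ‖W k‖ ^ 2 :=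
        hk.trans (mul_le_mul_of_nonneg_right (le_abs_self D) (sq_nonneg _))
      have h2 : ‖W k‖ ^ 2 ≤ τ k * (1 / ((k : ℝ) + 1)) := by
        rw [mul_one_div, le_div_iff₀ (by positivity), mul_comm]
        exact (hlt k).le
      calc (τ k)⁻¹ * ‖h k - 1 - (W k - P X (W k))‖
          ≤ (τ k)⁻¹ * (|D| * (τ k * (1 / ((k : ℝ) + 1)))) := by
            have h3 : 0 < (τ k)⁻¹ := inv_pos.mpr (hτpos k)
            refine mul_le_mul_of_nonneg_left (h1.trans ?_) h3.le
            exact mul_le_mul_of_nonneg_left h2 (abs_nonneg D)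
        _ = |D| * (1 / ((k : ℝ) + 1)) := by
            have := (hτpos k).ne'
            field_simp
    · have := (tendsto_one_div_add_atTop_nhds_zero_nat (𝕜 := ℝ)).const_mul |D|
      rwa [mul_zero] at this
  have hlim : Tendsto (fun k => (τ (φ k))⁻¹ • (h (φ k) - 1)) atTop (𝓝 Z) := by
    have h1 := (hsmall.comp hφ.tendsto_atTop).add hZ
    rw [zero_add] at h1
    refine h1.congr fun k => ?_
    simp only [Function.comp_apply, hU]
    rw [← smul_add, sub_add_cancel]
  have hZspan : Z ∈ Submodule.span ℝ (Set.range X) := by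
    apply full
    intro t
    exact lie_of_lim hG (fun k => h (φ k)) (fun k => hhS _) (fun k => τ (φ k))
      (fun k => hτpos _) (hτ0.comp hφ.tendsto_atTop) Z hlim t
  have hZ0 : Z = 0 := by
    rw [← P_span X orth Z hZspan, hPZ]
  rw [hZ0] at hZs
  simp at hZs

end Mat

end Pool.Agent.Y274.YMTan
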