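import Pool.Agent.Y274.YMWalk1

set_option autoImplicit false

/-! Weighted l1 bounds for differences of the lazy random walk on `ℤ^d` (job 23, for helper16). -/

open Finset

namespace Pool.Agent.Y274.YMWalk

/-- The transition probabilities of the lazy random walk on `ℤ^d`. -/
noncomputable def walk (d : ℕ) : ℕ → (Fin d → ℤ) → ℝ
  | 0, z => if z = 0 then 1 else 0
  | k + 1, z => 1 / 2 * walk d k z + 1 / (4 * d : ℝ) *
      ∑ i, (walk d k (z + Pi.single i 1) + walk d k (z - Pi.single i 1))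

/-- Iterated forward differences in the directions of the list. -/
def fdiff {d : ℕ} : List (Fin d) → ((Fin d → ℤ) → ℝ) → (Fin d → ℤ) → ℝ
  | [], g => g
  | i :: J, g => fun z => fdiff J g (z + Pi.single i 1) - fdiff J g z

section Alg

variable {d : ℕ}

/-- the group algebra -/
abbrev GA (d : ℕ) := AddMonoidAlgebra ℝ (Fin d → ℤ)

/-- weighted l1 gauge -/
noncomputable def WW (w : (Fin d → ℤ) → ℝ) (x : GA d) : ℝ := x.coeff.sum fun z c => |c| * w z

theorem WW_eq (w : (Fin d → ℤ) → ℝ) (x : GA d) (s : Finset (Fin d → ℤ))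
    (hs : x.coeff.support ⊆ s) : WW w x = ∑ z ∈ s, |x.coeff z| * w z := by
  unfold WW
  rw [Finsupp.sum_of_support_subset _ hs]
  intro z _
  simp

theorem WW_le (w : (Fin d → ℤ) → ℝ) (hw : ∀ z, 0 ≤ w z) (x : GA d) (s : Finset (Fin d → ℤ)) :
    ∑ z ∈ s, |x.coeff z| * w z ≤ WW w x := by
  classical
  rw [WW_eq w x (s ∪ x.coeff.support) subset_union_right]
  exact sum_le_sum_of_subset_of_nonneg subset_union_left
    fun z _ _ => mul_nonneg (abs_nonneg _) (hw z)

theorem WW_single (w : (Fin d → ℤ) → ℝ) (z : Fin d → ℤ) (c : ℝ) :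
    WW w (AddMonoidAlgebra.single z c) = |c| * w z := by
  unfold WW
  rw [AddMonoidAlgebra.coeff_single]
  rw [Finsupp.sum_single_index]
  simp

theorem WW_add (w : (Fin d → ℤ) → ℝ) (hw : ∀ z, 0 ≤ w z) (x y : GA d) :
    WW w (x + y) ≤ WW w x + WW w y := by
  classical
  set s := x.coeff.support ∪ y.coeff.support ∪ (x + y).coeff.support with hs
  rw [WW_eq w x s (by rw [hs]; exact subset_union_left.trans subset_union_left),
    WW_eq w y s (by rw [hs]; exact subset_union_right.trans subset_union_left),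
    WW_eq w (x + y) s (by rw [hs]; exact subset_union_right), ← sum_add_distrib]
  refine sum_le_sum fun z _ => ?_
  rw [AddMonoidAlgebra.coeff_add, Finsupp.add_apply, ← add_mul]
  exact mul_le_mul_of_nonneg_right (abs_add_le _ _) (hw z)

theorem WW_smul (w : (Fin d → ℤ) → ℝ) (c : ℝ) (x : GA d) :
    WW w (c • x) = |c| * WW w x := by
  classical
  set s := x.coeff.support ∪ (c • x).coeff.support with hs
  rw [WW_eq w x s (by rw [hs]; exact subset_union_left),
    WW_eq w (c • x) s (by rw [hs]; exact subset_union_right), mul_sum]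
  refine sum_congr rfl fun z _ => ?_
  rw [AddMonoidAlgebra.coeff_smul_apply, smul_eq_mul, abs_mul, mul_assoc]

theorem WW_nonneg (w : (Fin d → ℤ) → ℝ) (hw : ∀ z, 0 ≤ w z) (x : GA d) : 0 ≤ WW w x :=
  Finset.sum_nonneg fun z _ => mul_nonneg (abs_nonneg _) (hw z)

theorem WW_sum (w : (Fin d → ℤ) → ℝ) (hw : ∀ z, 0 ≤ w z) {ι : Type*} (s : Finset ι)
    (f : ι → GA d) : WW w (∑ i ∈ s, f i) ≤ ∑ i ∈ s, WW w (f i) := by
  classical
  induction s using Finset.induction_on with
  | empty =>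
    simp only [sum_empty]
    unfold WW
    simp
  | insert a s ha ih =>
    rw [sum_insert ha, sum_insert ha]
    exact (WW_add w hw _ _).trans (by linarith)

theorem WW_mul (w : (Fin d → ℤ) → ℝ) (hw : ∀ z, 0 ≤ w z) (hm : ∀ y z, w (y + z) = w y * w z)
    (x y : GA d) : WW w (x * y) ≤ WW w x * WW w y := by
  rw [AddMonoidAlgebra.mul_def]
  unfold Finsupp.sum
  refine (WW_sum w hw _ _).trans ?_
  have h1 : ∀ a ∈ x.coeff.support, WW w (∑ b ∈ y.coeff.support,
      AddMonoidAlgebra.single (a + b) (x.coeff a * y.coeff b)) ≤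
      |x.coeff a| * w a * WW w y := by
    intro a _
    refine (WW_sum w hw _ _).trans (le_of_eq ?_)
    rw [WW_eq w y _ (subset_refl _), mul_sum]
    refine sum_congr rfl fun b _ => ?_
    rw [WW_single, hm, abs_mul]
    ring
  refine (sum_le_sum h1).trans (le_of_eq ?_)
  rw [← sum_mul, WW_eq w x _ (subset_refl _)]

theorem WW_WN (w : (Fin d → ℤ) → ℝ) (hw : ∀ z, 0 ≤ w z) (h0 : w 0 = 1)
    (hm : ∀ y z, w (y + z) = w y * w z) : WN (WW w) where
  nonneg := WW_nonneg w hw
  one := by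
    rw [AddMonoidAlgebra.one_def, WW_single, h0]
    simp
  add := WW_add w hw
  mul := WW_mul w hw hm
  smul := fun c x => (WW_smul w c x).le

/-- the exponential weight -/
noncomputable def wt (j : Fin d) (t : ℝ) (z : Fin d → ℤ) : ℝ := Real.exp (t * z j)

theorem wt_WN (j : Fin d) (t : ℝ) : WN (WW (wt j t)) :=
  WW_WN _ (fun z => (Real.exp_pos _).le) (by simp [wt]) (fun y z => by
    unfold wt
    rw [← Real.exp_add]
    congr 1
    rw [Pi.add_apply]
    push_cast
    ring)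

/-- the forward shift generator -/
noncomputable def S (i : Fin d) : GA d := AddMonoidAlgebra.single (Pi.single i 1) 1

/-- the backward shift generator -/
noncomputable def S' (i : Fin d) : GA d := AddMonoidAlgebra.single (-Pi.single i 1) 1

theorem SS' (i : Fin d) : S' i * S i = 1 := by
  unfold S S'
  rw [AddMonoidAlgebra.single_mul_single, neg_add_cancel, mul_one, AddMonoidAlgebra.one_def]

/-- the lazy step in direction `i` -/
noncomputable def B (i : Fin d) : GA d := ((1 / 2 : ℝ) • (1 + S i)) * ((1 / 2 : ℝ) • (1 + S' i))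

/-- the walk step -/
noncomputable def PP (d : ℕ) : GA d := (1 / d : ℝ) • ∑ i, B i

theorem PP_eq (i : Fin d) : PP d = (1 / d : ℝ) •
    (((1 / 2 : ℝ) • (1 + S i)) * ((1 / 2 : ℝ) • (1 + S' i)) + ∑ j ∈ univ.erase i, B j) := by
  unfold PP
  rw [← Finset.add_sum_erase univ B (mem_univ i)]
  rfl

theorem B_coeff (i : Fin d) (x : GA d) (z : Fin d → ℤ) : (B i * x).coeff z =
    1 / 4 * (2 * x.coeff z + (x.coeff (z + Pi.single i 1) + x.coeff (z - Pi.single i 1))) := by
  have e : B i * x = (1 / 4 : ℝ) • ((2 : ℝ) • x + (S' i * x + S i * x)) := by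
    have h := SS' i
    unfold B
    rw [smul_mul_smul_comm, smul_mul_assoc]
    have e1 : (1 + S i) * (1 + S' i) = 1 + 1 + (S' i + S i) := by
      rw [mul_add, add_mul, add_mul, mul_one, mul_one, one_mul, mul_comm (S i), h]
      abel
    rw [e1, add_mul, add_mul, add_mul, one_mul, two_smul]
    norm_num
  rw [e, AddMonoidAlgebra.coeff_smul_apply, AddMonoidAlgebra.coeff_add,
    AddMonoidAlgebra.coeff_add]
  simp only [Finsupp.add_apply, AddMonoidAlgebra.coeff_smul_apply, smul_eq_mul]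
  unfold S S'
  rw [AddMonoidAlgebra.coeff_single_mul_apply, AddMonoidAlgebra.coeff_single_mul_apply,
    one_mul, one_mul, neg_neg]
  rw [add_comm (Pi.single i 1 : Fin d → ℤ) z, ← sub_eq_neg_add]

theorem walk_eq (hd : 1 ≤ d) (k : ℕ) (z : Fin d → ℤ) : walk d k z = (PP d ^ k).coeff z := by
  classical
  induction k generalizing z with
  | zero =>
    rw [pow_zero, AddMonoidAlgebra.one_def, AddMonoidAlgebra.coeff_single, Finsupp.single_apply,
      walk]
    by_cases h : z = 0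
    · rw [if_pos h, if_pos h.symm]
    · rw [if_neg h, if_neg (fun h' => h h'.symm)]
  | succ k ih =>
    have hd0 : (d : ℝ) ≠ 0 := by positivity
    rw [pow_succ', walk]
    simp only [ih]
    have e : PP d * PP d ^ k = (1 / d : ℝ) • ∑ i, B i * PP d ^ k := by
      conv_lhs => rw [PP]
      rw [smul_mul_assoc, sum_mul]
      rfl
    rw [e, AddMonoidAlgebra.coeff_smul_apply, AddMonoidAlgebra.coeff_sum, Finsupp.finsetSum_apply]
    simp only [B_coeff, smul_eq_mul]
    have e2 : ∑ i : Fin d, 1 / 4 * (2 * (PP d ^ k).coeff z + ((PP d ^ k).coeff (z + Pi.single i 1) +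
        (PP d ^ k).coeff (z - Pi.single i 1))) = 1 / 4 * (d * (2 * (PP d ^ k).coeff z) +
        ∑ i : Fin d, ((PP d ^ k).coeff (z + Pi.single i 1) +
        (PP d ^ k).coeff (z - Pi.single i 1))) := by
      rw [← mul_sum, sum_add_distrib, sum_const, card_univ, Fintype.card_fin, nsmul_eq_mul]
    rw [e2]
    field_simp
    ring

/-- products of differences -/
noncomputable def DJ (J : List (Fin d)) : GA d := (J.map fun i => S' i - 1).prod

theorem fdiff_eq (J : List (Fin d)) (x : GA d) (z : Fin d → ℤ) :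
    fdiff J (fun z => x.coeff z) z = (DJ J * x).coeff z := by
  induction J generalizing z with
  | nil => simp [fdiff, DJ]
  | cons i J ih =>
    show fdiff J (fun z => x.coeff z) (z + Pi.single i 1) - fdiff J (fun z => x.coeff z) z = _
    rw [ih, ih]
    have e : DJ (i :: J) * x = S' i * (DJ J * x) - DJ J * x := by
      unfold DJ
      rw [List.map_cons, List.prod_cons, mul_assoc, sub_mul, one_mul]
    rw [e, AddMonoidAlgebra.coeff_sub, Finsupp.sub_apply]
    unfold S'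
    rw [AddMonoidAlgebra.coeff_single_mul_apply, one_mul, neg_neg, add_comm z]

/-! parameters of the exponential weight -/

theorem wt_S (j i : Fin d) (t : ℝ) :
    WW (wt j t) (S i) = if i = j then Real.exp t else 1 := by
  unfold S
  rw [WW_single, abs_one, one_mul, wt]
  by_cases h : i = j
  · subst h; simp
  · rw [if_neg h, Pi.single_eq_of_ne (fun h' => h h'.symm)]; simp

theorem wt_S' (j i : Fin d) (t : ℝ) :
    WW (wt j t) (S' i) = if i = j then Real.exp (-t) else 1 := by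
  unfold S'
  rw [WW_single, abs_one, one_mul, wt]
  by_cases h : i = j
  · subst h; simp
  · rw [if_neg h, Pi.neg_apply, Pi.single_eq_of_ne (fun h' => h h'.symm)]; simp

/-- the radius in direction `i` -/
noncomputable def rad (j i : Fin d) (t : ℝ) : ℝ := if i = j then Real.exp (t / 2) else 1

theorem rad_pos (j i : Fin d) (t : ℝ) : 0 < rad j i t := by
  unfold rad; split_ifs <;> positivity

theorem rad_S (j i : Fin d) (t : ℝ) : WW (wt j t) (S i) ≤ rad j i t ^ 2 := by
  rw [wt_S]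
  unfold rad
  split_ifs
  · rw [← Real.exp_nat_mul]
    apply le_of_eq
    congr 1
    push_cast
    ring
  · simp

theorem rad_S' (j i : Fin d) (t : ℝ) : WW (wt j t) (S' i) ≤ (rad j i t ^ 2)⁻¹ := by
  rw [wt_S']
  unfold rad
  split_ifs
  · rw [← Real.exp_nat_mul, ← Real.exp_neg]
    apply le_of_eq
    congr 1
    push_cast
    ring
  · simp

theorem rad_cosh (j i : Fin d) (t : ℝ) :
    1 + rad j i t ^ 4 ≤ 2 * rad j i t ^ 2 * Real.cosh t := by
  unfold rad
  split_ifs
  · rw [← Real.exp_nat_mul, ← Real.exp_nat_mul, Real.cosh_eq]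
    apply le_of_eq
    have e1 : ((4 : ℕ) : ℝ) * (t / 2) = t + t := by push_cast; ring
    have e2 : ((2 : ℕ) : ℝ) * (t / 2) = t := by push_cast; ring
    rw [e1, e2, Real.exp_add, Real.exp_neg]
    field_simp
    ring
  · have := Real.one_le_cosh t
    rw [one_pow, one_pow]
    linarith

theorem WW_B (j i : Fin d) (t : ℝ) : WW (wt j t) (B i) ≤ Real.cosh t := by
  have h := (wt_WN j t).walk (S i) (S' i) 0 (rad j i t) (Real.cosh t) (rad_pos j i t)
    (Real.one_le_cosh t) (rad_cosh j i t) (rad_S j i t) (rad_S' j i t) 1 1 le_rfl (by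
      refine (wt_WN j t).zero.trans ?_
      simp)
  simpa [B] using h

theorem WW_T (j i : Fin d) (t : ℝ) :
    WW (wt j t) (∑ l ∈ univ.erase i, B l) ≤ ((d : ℝ) - 1) * Real.cosh t := by
  refine ((wt_WN j t).sum _ _).trans ((sum_le_sum fun l _ => WW_B j l t).trans (le_of_eq ?_))
  rw [sum_const, card_erase_of_mem (mem_univ i), card_univ, Fintype.card_fin, nsmul_eq_mul]
  have : 1 ≤ d := Nat.one_le_iff_ne_zero.mpr (by rintro rfl; exact i.elim0)
  rw [Nat.cast_sub this, Nat.cast_one]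

theorem cosh_pow_le (t : ℝ) (k n : ℕ) (ht : t ^ 2 * ((k : ℝ) + 1) ≤ 1) (hn : n ≤ 2 * k + 1) :
    Real.cosh t ^ n ≤ Real.exp 1 := by
  have h1 := Real.cosh_le_exp_half_sq t
  calc Real.cosh t ^ n ≤ Real.exp (t ^ 2 / 2) ^ n :=
        pow_le_pow_left₀ (Real.cosh_pos t).le h1 n
    _ = Real.exp (n * (t ^ 2 / 2)) := by rw [← Real.exp_nat_mul]
    _ ≤ Real.exp 1 := by
        apply Real.exp_le_exp.mpr
        have h2 : (n : ℝ) ≤ 2 * k + 1 := by exact_mod_cast hn
        have h3 : 0 ≤ t ^ 2 := sq_nonneg t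
        nlinarith

theorem WW_pow (j : Fin d) (t : ℝ) (k : ℕ) (ht : t ^ 2 * ((k : ℝ) + 1) ≤ 1) :
    WW (wt j t) (PP d ^ k) ≤ Real.exp 1 := by
  have hd : 1 ≤ d := Nat.one_le_iff_ne_zero.mpr (by rintro rfl; exact j.elim0)
  rw [PP_eq j]
  exact ((wt_WN j t).walk (S j) (S' j) _ (rad j j t) (Real.cosh t) (rad_pos j j t)
    (Real.one_le_cosh t) (rad_cosh j j t) (rad_S j j t) (rad_S' j j t) d k hd
    (WW_T j j t)).trans (cosh_pow_le t k k ht (by omega))

theorem abs_le_one_of (t : ℝ) (k : ℕ) (ht : t ^ 2 * ((k : ℝ) + 1) ≤ 1) : |t| ≤ 1 := by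
  have h1 : t ^ 2 ≤ 1 := by
    have : 0 ≤ t ^ 2 * k := by positivity
    linarith
  exact (sq_le_one_iff_abs_le_one t).mp h1

theorem WW_grad (j i : Fin d) (t : ℝ) (k : ℕ) (ht : t ^ 2 * ((k : ℝ) + 1) ≤ 1) :
    Real.sqrt ((k : ℝ) + 1) * WW (wt j t) ((S' i - 1) * PP d ^ k) ≤
      2 * Real.exp 1 * Real.exp 1 * Real.exp 1 * Real.sqrt d := by
  have hd : 1 ≤ d := Nat.one_le_iff_ne_zero.mpr (by rintro rfl; exact j.elim0)
  have e : (S' i - 1) * PP d ^ k = S' i * ((1 - S i) * PP d ^ k) := by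
    have := SS' i
    rw [← mul_assoc, mul_sub, mul_one, this]
  rw [e]
  have h1 := (wt_WN j t).grad (S i) (S' i) _ (rad j i t) (Real.cosh t) (rad_pos j i t)
    (Real.one_le_cosh t) (rad_cosh j i t) (rad_S j i t) (rad_S' j i t) d k hd (WW_T j i t)
  rw [← PP_eq i] at h1
  have ht1 := abs_le_one_of t k ht
  have ht2 := abs_le.mp ht1
  have h2 : WW (wt j t) (S' i) ≤ Real.exp 1 := by
    rw [wt_S']
    split_ifs
    · exact Real.exp_le_exp.mpr (by linarith)
    · exact Real.one_le_exp (by norm_num)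
  have h3 : rad j i t ≤ Real.exp 1 := by
    unfold rad
    split_ifs
    · exact Real.exp_le_exp.mpr (by linarith)
    · exact Real.one_le_exp (by norm_num)
  have h4 := cosh_pow_le t k (2 * k + 1) ht le_rfl
  have hs : 0 < Real.sqrt ((k : ℝ) + 1) := Real.sqrt_pos.mpr (by positivity)
  have h5 : WW (wt j t) (S' i * ((1 - S i) * PP d ^ k)) ≤
      Real.exp 1 * (2 * Real.exp 1 * Real.exp 1 * Real.sqrt (d / (k + 1))) := by
    refine ((wt_WN j t).mul _ _).trans (mul_le_mul h2 (h1.trans ?_) ((wt_WN j t).nonneg _)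
      (Real.exp_pos _).le)
    have := rad_pos j i t
    have hc := Real.cosh_pos t
    gcongr
  calc Real.sqrt ((k : ℝ) + 1) * _ ≤ Real.sqrt ((k : ℝ) + 1) *
        (Real.exp 1 * (2 * Real.exp 1 * Real.exp 1 * Real.sqrt (d / (k + 1)))) :=
        mul_le_mul_of_nonneg_left h5 hs.le
    _ = _ := by
        rw [Real.sqrt_div (by positivity)]
        field_simp

theorem WW_DJ (J : List (Fin d)) : ∃ C : ℝ, 0 < C ∧ ∀ (j : Fin d) (t : ℝ) (k : ℕ),
    t ^ 2 * ((k : ℝ) + 1) ≤ 1 →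
      Real.sqrt ((k : ℝ) + 1) ^ J.length * WW (wt j t) (DJ J * PP d ^ k) ≤ C := by
  induction J with
  | nil =>
    refine ⟨Real.exp 1, Real.exp_pos _, fun j t k ht => ?_⟩
    simpa [DJ] using WW_pow j t k ht
  | cons i J ih =>
    obtain ⟨C, hC, h⟩ := ih
    set C1 := 2 * Real.exp 1 * Real.exp 1 * Real.exp 1 * Real.sqrt d with hC1
    have hd : 1 ≤ d := Nat.one_le_iff_ne_zero.mpr (by rintro rfl; exact i.elim0)
    have hd0 : (0 : ℝ) < d := by exact_mod_cast hd
    have hC10 : 0 < C1 := by positivity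
    refine ⟨Real.sqrt 2 ^ (J.length + 1) * (C1 * C), by positivity, fun j t k ht => ?_⟩
    set k1 := k / 2 with hk1
    set k2 := k - k1 with hk2
    have hk : k = k1 + k2 := by omega
    have h1 : (k : ℝ) + 1 ≤ 2 * ((k1 : ℝ) + 1) := by
      have : k + 1 ≤ 2 * (k1 + 1) := by omega
      exact_mod_cast this
    have h2 : (k : ℝ) + 1 ≤ 2 * ((k2 : ℝ) + 1) := by
      have : k + 1 ≤ 2 * (k2 + 1) := by omega
      exact_mod_cast this
    have hk1k : (k1 : ℝ) ≤ k := by exact_mod_cast (by omega : k1 ≤ k)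
    have hk2k : (k2 : ℝ) ≤ k := by exact_mod_cast (by omega : k2 ≤ k)
    have ht1 : t ^ 2 * ((k1 : ℝ) + 1) ≤ 1 := by
      have h3 : 0 ≤ t ^ 2 := sq_nonneg t
      nlinarith
    have ht2 : t ^ 2 * ((k2 : ℝ) + 1) ≤ 1 := by
      have h3 : 0 ≤ t ^ 2 := sq_nonneg t
      nlinarith
    have e : DJ (i :: J) * PP d ^ k = ((S' i - 1) * PP d ^ k1) * (DJ J * PP d ^ k2) := by
      have e1 : PP d ^ k = PP d ^ k1 * PP d ^ k2 := by rw [← pow_add, ← hk]
      rw [e1]
      unfold DJ
      rw [List.map_cons, List.prod_cons]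
      ring
    have h3 := WW_grad j i t k1 ht1
    have h4 := h j t k2 ht2
    have s1 : Real.sqrt ((k : ℝ) + 1) ≤ Real.sqrt 2 * Real.sqrt ((k1 : ℝ) + 1) := by
      rw [← Real.sqrt_mul (by norm_num)]
      exact Real.sqrt_le_sqrt h1
    have s2 : Real.sqrt ((k : ℝ) + 1) ≤ Real.sqrt 2 * Real.sqrt ((k2 : ℝ) + 1) := by
      rw [← Real.sqrt_mul (by norm_num)]
      exact Real.sqrt_le_sqrt h2
    have n1 := (wt_WN j t).nonneg ((S' i - 1) * PP d ^ k1)
    have n2 := (wt_WN j t).nonneg (DJ J * PP d ^ k2)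
    rw [List.length_cons, e, pow_succ']
    calc Real.sqrt ((k : ℝ) + 1) * Real.sqrt ((k : ℝ) + 1) ^ J.length *
          WW (wt j t) (((S' i - 1) * PP d ^ k1) * (DJ J * PP d ^ k2))
        ≤ (Real.sqrt 2 * Real.sqrt ((k1 : ℝ) + 1)) *
          (Real.sqrt 2 * Real.sqrt ((k2 : ℝ) + 1)) ^ J.length *
          (WW (wt j t) ((S' i - 1) * PP d ^ k1) * WW (wt j t) (DJ J * PP d ^ k2)) := by
          have := (wt_WN j t).mul ((S' i - 1) * PP d ^ k1) (DJ J * PP d ^ k2)
          have n3 := (wt_WN j t).nonneg (((S' i - 1) * PP d ^ k1) * (DJ J * PP d ^ k2))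
          gcongr
      _ = Real.sqrt 2 ^ (J.length + 1) *
          ((Real.sqrt ((k1 : ℝ) + 1) * WW (wt j t) ((S' i - 1) * PP d ^ k1)) *
          (Real.sqrt ((k2 : ℝ) + 1) ^ J.length * WW (wt j t) (DJ J * PP d ^ k2))) := by
          rw [mul_pow, pow_succ]; ring
      _ ≤ Real.sqrt 2 ^ (J.length + 1) * (C1 * C) := by
          have n4 : 0 ≤ Real.sqrt ((k2 : ℝ) + 1) ^ J.length * WW (wt j t) (DJ J * PP d ^ k2) := by
            positivity
          refine mul_le_mul_of_nonneg_left (mul_le_mul h3 h4 n4 hC10.le) (by positivity)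

end Alg

/-- polynomial weights are dominated by exponential weights -/
theorem weight_le {d : ℕ} (hd : 1 ≤ d) (s : ℕ) (l : ℝ) (hl : 0 < l) (z : Fin d → ℤ) :
    (∑ i, |(z i : ℝ)|) ^ s ≤ (d : ℝ) ^ s * (s.factorial * (1 / l) ^ s) *
      ∑ j, (wt j l z + wt j (-l) z) := by
  have hne : (univ : Finset (Fin d)).Nonempty := ⟨⟨0, hd⟩, mem_univ _⟩
  obtain ⟨i, _, hi⟩ := exists_max_image univ (fun i => |(z i : ℝ)|) hne
  have h1 : ∑ i, |(z i : ℝ)| ≤ d * |(z i : ℝ)| := by
    refine (sum_le_sum fun j _ => hi j (mem_univ j)).trans ?_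
    simp
  have h2 : (∑ i, |(z i : ℝ)|) ^ s ≤ (d * |(z i : ℝ)|) ^ s :=
    pow_le_pow_left₀ (sum_nonneg fun _ _ => abs_nonneg _) h1 s
  have h3 : |(z i : ℝ)| ^ s ≤ (s.factorial * (1 / l) ^ s) * Real.exp (l * |(z i : ℝ)|) := by
    have h4 := Real.pow_div_factorial_le_exp (l * |(z i : ℝ)|) (by positivity) s
    rw [div_le_iff₀ (by positivity)] at h4
    have h5 : |(z i : ℝ)| ^ s = (1 / l) ^ s * (l * |(z i : ℝ)|) ^ s := by
      rw [← mul_pow]
      congr 1
      field_simp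
    rw [h5]
    calc (1 / l) ^ s * (l * |(z i : ℝ)|) ^ s
        ≤ (1 / l) ^ s * (Real.exp (l * |(z i : ℝ)|) * s.factorial) := by gcongr
      _ = _ := by ring
  have h4 : Real.exp (l * |(z i : ℝ)|) ≤ wt i l z + wt i (-l) z := by
    unfold wt
    rcases le_total 0 (z i : ℝ) with h | h
    · rw [abs_of_nonneg h]
      have := (Real.exp_pos (-l * z i)).le
      linarith
    · rw [abs_of_nonpos h]
      have := (Real.exp_pos (l * z i)).le
      rw [show l * -(z i : ℝ) = -l * z i by ring]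
      linarith
  have h5 : wt i l z + wt i (-l) z ≤ ∑ j, (wt j l z + wt j (-l) z) :=
    single_le_sum (f := fun j => wt j l z + wt j (-l) z)
      (fun j _ => add_nonneg (Real.exp_pos _).le (Real.exp_pos _).le) (mem_univ i)
  calc (∑ i, |(z i : ℝ)|) ^ s ≤ (d * |(z i : ℝ)|) ^ s := h2
    _ = (d : ℝ) ^ s * |(z i : ℝ)| ^ s := mul_pow _ _ _
    _ ≤ (d : ℝ) ^ s * ((s.factorial * (1 / l) ^ s) * ∑ j, (wt j l z + wt j (-l) z)) := by
        have h6 := h4.trans h5
        have h7 : 0 ≤ (s.factorial * (1 / l) ^ s : ℝ) := by positivity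
        refine mul_le_mul_of_nonneg_left (h3.trans (mul_le_mul_of_nonneg_left h6 h7)) (by positivity)
    _ = _ := by ring

theorem walk_l1 (d : ℕ) (hd : 1 ≤ d) (J : List (Fin d)) (s : ℕ) : ∃ C : ℝ, 0 < C ∧
    ∀ (k : ℕ) (A : Finset (Fin d → ℤ)), 1 ≤ k →
      Real.sqrt k ^ J.length * ∑ z ∈ A, |fdiff J (walk d k) z| * (∑ i, |(z i : ℝ)|) ^ s ≤
        C * Real.sqrt k ^ s := by
  obtain ⟨C, hC, h⟩ := WW_DJ J
  have hd0 : (0 : ℝ) < d := by exact_mod_cast hd
  refine ⟨(d : ℝ) ^ s * s.factorial * Real.sqrt 2 ^ s * (d * (C + C)), by positivity, ?_⟩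
  intro k A hk
  have hk0 : (1 : ℝ) ≤ k := by exact_mod_cast hk
  set q := Real.sqrt ((k : ℝ) + 1) with hq
  have hq0 : 0 < q := Real.sqrt_pos.mpr (by positivity)
  have hq2 : q ^ 2 = (k : ℝ) + 1 := Real.sq_sqrt (by positivity)
  set l := 1 / q with hl
  have hl0 : 0 < l := by positivity
  have hl2 : l ^ 2 * ((k : ℝ) + 1) ≤ 1 := by
    rw [hl, ← hq2]
    apply le_of_eq
    field_simp
  have hl2' : (-l) ^ 2 * ((k : ℝ) + 1) ≤ 1 := by rw [neg_sq]; exact hl2
  have hkq : Real.sqrt k ≤ q := Real.sqrt_le_sqrt (by linarith)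
  have hq' : q ≤ Real.sqrt 2 * Real.sqrt k := by
    rw [hq, ← Real.sqrt_mul (by norm_num)]
    exact Real.sqrt_le_sqrt (by linarith)
  have hf : ∀ z, fdiff J (walk d k) z = (DJ J * PP d ^ k).coeff z := by
    intro z
    rw [← fdiff_eq]
    congr 1
    funext z
    exact walk_eq hd k z
  have h1 : ∑ z ∈ A, |fdiff J (walk d k) z| * (∑ i, |(z i : ℝ)|) ^ s ≤
      (d : ℝ) ^ s * (s.factorial * (1 / l) ^ s) *
        ∑ j, (WW (wt j l) (DJ J * PP d ^ k) + WW (wt j (-l)) (DJ J * PP d ^ k)) := by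
    have h2 : ∀ z ∈ A, |fdiff J (walk d k) z| * (∑ i, |(z i : ℝ)|) ^ s ≤
        (d : ℝ) ^ s * (s.factorial * (1 / l) ^ s) *
          ∑ j, (|(DJ J * PP d ^ k).coeff z| * wt j l z +
            |(DJ J * PP d ^ k).coeff z| * wt j (-l) z) := by
      intro z _
      rw [hf]
      refine (mul_le_mul_of_nonneg_left (weight_le hd s l hl0 z) (abs_nonneg _)).trans
        (le_of_eq ?_)
      rw [mul_left_comm, mul_sum]
      congr 1
      exact sum_congr rfl fun j _ => mul_add _ _ _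
    refine (sum_le_sum h2).trans ?_
    rw [← mul_sum, sum_comm]
    refine mul_le_mul_of_nonneg_left (sum_le_sum fun j _ => ?_) (by positivity)
    rw [sum_add_distrib]
    exact add_le_add (WW_le _ (fun z => (Real.exp_pos _).le) _ _)
      (WW_le _ (fun z => (Real.exp_pos _).le) _ _)
  have h3 : q ^ J.length * ∑ j, (WW (wt j l) (DJ J * PP d ^ k) +
      WW (wt j (-l)) (DJ J * PP d ^ k)) ≤ d * (C + C) := by
    rw [mul_sum]
    refine (sum_le_sum (g := fun _ => C + C) fun j _ => ?_).trans ?_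
    · rw [mul_add]
      exact add_le_add (h j l k hl2) (h j (-l) k hl2')
    · rw [sum_const, card_univ, Fintype.card_fin, nsmul_eq_mul]
  have hl' : 1 / l = q := by rw [hl, one_div_one_div]
  rw [hl'] at h1
  have n1 : 0 ≤ ∑ j, (WW (wt j l) (DJ J * PP d ^ k) + WW (wt j (-l)) (DJ J * PP d ^ k)) :=
    sum_nonneg fun j _ => add_nonneg ((wt_WN j l).nonneg _) ((wt_WN j (-l)).nonneg _)
  have n2 : 0 ≤ ∑ z ∈ A, |fdiff J (walk d k) z| * (∑ i, |(z i : ℝ)|) ^ s :=
    sum_nonneg fun z _ => mul_nonneg (abs_nonneg _)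
      (pow_nonneg (sum_nonneg fun _ _ => abs_nonneg _) _)
  calc Real.sqrt k ^ J.length * ∑ z ∈ A, |fdiff J (walk d k) z| * (∑ i, |(z i : ℝ)|) ^ s
      ≤ q ^ J.length * ((d : ℝ) ^ s * (s.factorial * q ^ s) *
        ∑ j, (WW (wt j l) (DJ J * PP d ^ k) + WW (wt j (-l)) (DJ J * PP d ^ k))) := by
        refine mul_le_mul (pow_le_pow_left₀ (Real.sqrt_nonneg _) hkq _) h1 n2 (by positivity)
    _ = (d : ℝ) ^ s * (s.factorial * q ^ s) * (q ^ J.length *
        ∑ j, (WW (wt j l) (DJ J * PP d ^ k) + WW (wt j (-l)) (DJ J * PP d ^ k))) := by ring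
    _ ≤ (d : ℝ) ^ s * (s.factorial * q ^ s) * (d * (C + C)) :=
        mul_le_mul_of_nonneg_left h3 (by positivity)
    _ ≤ (d : ℝ) ^ s * (s.factorial * (Real.sqrt 2 * Real.sqrt k) ^ s) * (d * (C + C)) := by
        gcongr
    _ = _ := by rw [mul_pow]; ring

end Pool.Agent.Y274.YMWalk
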