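import Pool.Agent.Helper64.Gow10

set_option autoImplicit false

namespace Pool.Agent.Y274.GOW

open Finset Pool.Agent.Helper64.Gow
open scoped Classical

/-- Pad a finite planar set with distinct abscissae by extra points to a prescribed size. -/
lemma exists_pad {V : Finset (ℝ × ℝ)} (hx : XI V) {N : ℕ} (hN : V.card ≤ N) :
    ∃ W : Finset (ℝ × ℝ), V ⊆ W ∧ XI W ∧ W.card = N := by
  have hX : (V.image Prod.fst).card = V.card :=
    card_image_of_injOn (fun p hp q hq h => hx p (mem_coe.1 hp) q (mem_coe.1 hq) h)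
  obtain ⟨X, hX1, hX2⟩ := Infinite.exists_superset_card_eq (V.image Prod.fst) N (by rw [hX]; exact hN)
  refine ⟨V ∪ (X \ V.image Prod.fst).image (fun x => (x, (0 : ℝ))), subset_union_left, ?_, ?_⟩
  · intro p hp q hq hpq
    rw [mem_union, mem_image] at hp hq
    rcases hp with hp | ⟨x, hx1, rfl⟩ <;> rcases hq with hq | ⟨y, hy1, rfl⟩
    · exact hx p hp q hq hpq
    · exfalso
      rw [mem_sdiff] at hy1
      apply hy1.2
      have h1 : p.1 = y := hpq
      rw [← h1]
      exact mem_image_of_mem _ hp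
    · exfalso
      rw [mem_sdiff] at hx1
      apply hx1.2
      have h1 : x = q.1 := hpq
      rw [h1]
      exact mem_image_of_mem _ hq
    · have h1 : x = y := hpq
      rw [h1]
  · rw [card_union_of_disjoint, card_image_of_injective, card_sdiff_of_subset hX1, hX, hX2]
    · omega
    · intro x y h
      exact (Prod.mk.inj h).1
    · rw [disjoint_left]
      intro p hp hq
      rw [mem_image] at hq
      obtain ⟨x, hx1, rfl⟩ := hq
      rw [mem_sdiff] at hx1
      apply hx1.2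
      exact mem_image_of_mem Prod.fst hp

/-- At most `576 M` lines contain `M` of at most `M ^ 2` points (Szemerédi–Trotter). -/
lemma few_lines {V Ls : Finset (ℝ × ℝ)} (hx : XI V) {M : ℕ} (hM : 2 ≤ M) (hV : V.card ≤ M ^ 2)
    (h : ∀ L ∈ Ls, M ≤ (pl V L).card) : Ls.card ≤ 576 * M := by
  obtain ⟨W, hVW, hxW, hW⟩ := exists_pad hx hV
  have h1 := ST (V := W) (Ls := Ls) hxW (k := M - 1) (by
    rw [hW]
    calc (M - 1) ^ 2 ≤ M ^ 2 := Nat.pow_le_pow_left (by omega) 2
      _ ≤ 12 * M ^ 2 := by omega) (by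
    intro L hL
    have h2 := h L hL
    have h3 : (pl V L).card ≤ (W.filter (fun p => on L p)).card :=
      card_le_card (filter_subset_filter _ hVW)
    omega)
  rw [hW] at h1
  have h2 : M ^ 3 ≤ 8 * (M - 1) ^ 3 := by
    calc M ^ 3 ≤ (2 * (M - 1)) ^ 3 := Nat.pow_le_pow_left (by omega) 3
      _ = 8 * (M - 1) ^ 3 := by ring
  have h3 : M ^ 3 * Ls.card ≤ M ^ 3 * (576 * M) := by
    calc M ^ 3 * Ls.card ≤ 8 * (M - 1) ^ 3 * Ls.card := Nat.mul_le_mul_right _ h2
      _ = 8 * ((M - 1) ^ 3 * Ls.card) := by ring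
      _ ≤ 8 * (72 * (M ^ 2) ^ 2) := Nat.mul_le_mul_left _ h1
      _ = M ^ 3 * (576 * M) := by ring
  exact Nat.le_of_mul_le_mul_left h3 (by positivity)

/-- A maximal subset with at most `M` points on every line is large. -/
theorem thin_subset {P : Finset (ℝ × ℝ)} (hx : XI P) {M k : ℕ} (hM : 2 ≤ M)
    (hk : ∀ L ∈ lines P, (pl P L).card ≤ k) (hP : M ^ 2 + 576 * M * k < P.card) :
    ∃ Q ⊆ P, (∀ L ∈ lines P, (pl Q L).card ≤ M) ∧ M ^ 2 ≤ Q.card := by
  set F := P.powerset.filter (fun Q => ∀ L ∈ lines P, (pl Q L).card ≤ M) with hF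
  have hne : F.Nonempty := ⟨∅, by
    rw [hF, mem_filter, mem_powerset]
    refine ⟨empty_subset _, ?_⟩
    intro L _
    simp [pl]⟩
  obtain ⟨Q, hQ, hmax⟩ := exists_max_image F card hne
  rw [hF, mem_filter, mem_powerset] at hQ
  obtain ⟨hQP, hQ2⟩ := hQ
  refine ⟨Q, hQP, hQ2, ?_⟩
  by_contra hcon
  push Not at hcon
  set Ls := (lines P).filter (fun L => M ≤ (pl Q L).card) with hLs
  have hcov : P \ Q ⊆ Ls.biUnion (fun L => pl P L) := by
    intro p hp
    rw [mem_sdiff] at hp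
    by_contra hno
    have hins : insert p Q ∈ F := by
      rw [hF, mem_filter, mem_powerset]
      refine ⟨insert_subset hp.1 hQP, ?_⟩
      intro L hL
      by_cases hfull : M ≤ (pl Q L).card
      · have hnon : ¬ on L p := by
          intro hon
          apply hno
          rw [mem_biUnion]
          exact ⟨L, mem_filter.2 ⟨hL, hfull⟩, mem_filter.2 ⟨hp.1, hon⟩⟩
        have h1 : pl (insert p Q) L = pl Q L := by
          unfold pl
          rw [filter_insert, if_neg hnon]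
        rw [h1]
        exact hQ2 L hL
      · have h1 : (pl (insert p Q) L).card ≤ (pl Q L).card + 1 := by
          unfold pl
          rw [filter_insert]
          split_ifs
          · exact card_insert_le _ _
          · omega
        omega
    have h1 := hmax _ hins
    rw [card_insert_of_notMem hp.2] at h1
    omega
  have hfew : Ls.card ≤ 576 * M :=
    few_lines (fun p hp q hq => hx p (hQP hp) q (hQP hq)) hM hcon.le (fun L hL => (mem_filter.1 hL).2)
  have h1 : (P \ Q).card ≤ 576 * M * k := by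
    calc (P \ Q).card ≤ (Ls.biUnion (fun L => pl P L)).card := card_le_card hcov
      _ ≤ Ls.card * k := card_biUnion_le_card_mul _ _ _ (fun L hL => hk L (mem_filter.1 hL).1)
      _ ≤ 576 * M * k := Nat.mul_le_mul_right _ hfew
  have h2 : (P \ Q).card + Q.card = P.card := card_sdiff_add_card_eq_card hQP
  omega

/-- The off-diagonal bound, for sets with distinct abscissae. -/
theorem gp_of_xi : ∃ C : ℕ, 1 ≤ C ∧ ∀ k n : ℕ, 1 ≤ n → n ≤ k → ∀ P : Finset (ℝ × ℝ), XI P →
    (∀ L ∈ lines P, (pl P L).card ≤ k) → C * k * n ≤ P.card →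
    ∃ S ⊆ P, (∀ a ∈ S, ∀ b ∈ S, ∀ c ∈ S, a ≠ b → a ≠ c → b ≠ c → ¬ col a b c) ∧ n ≤ S.card := by
  obtain ⟨N0, hN0⟩ := main_coord
  set A := 2 ^ 15 + N0 with hA
  refine ⟨A ^ 2 + 576 * A + 1, by omega, ?_⟩
  intro k n hn hnk P hx hk hP
  have hk1 : 1 ≤ k := hn.trans hnk
  have hA1 : 2 ≤ A := by rw [hA]; omega
  have hAn : A ≤ A * n := Nat.le_mul_of_pos_right _ hn
  have hkn : 1 ≤ k * n := Nat.mul_pos hk1 hn
  have hlt : (A * n) ^ 2 + 576 * (A * n) * k < P.card := by
    have h1 : n * n ≤ k * n := Nat.mul_le_mul_right _ hnk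
    have h2 : (A * n) ^ 2 ≤ A ^ 2 * (k * n) := by
      calc (A * n) ^ 2 = A ^ 2 * (n * n) := by ring
        _ ≤ A ^ 2 * (k * n) := Nat.mul_le_mul_left _ h1
    have h3 : 576 * (A * n) * k = 576 * A * (k * n) := by ring
    have h4 : (A ^ 2 + 576 * A + 1) * k * n = A ^ 2 * (k * n) + 576 * A * (k * n) + k * n := by ring
    omega
  obtain ⟨Q, hQP, hQ1, hQ2⟩ := thin_subset hx (M := A * n) (k := k) (hA1.trans hAn) hk hlt
  have hQN : N0 ≤ Q.card := by
    refine le_trans ?_ hQ2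
    calc N0 ≤ A * n := (Nat.le_add_left _ _).trans hAn
      _ ≤ (A * n) ^ 2 := Nat.le_self_pow (by norm_num) _
  obtain ⟨S, hS1, hS2, hS3⟩ := hN0 Q hQN (by
    intro a ha b hb hab
    have hne := hx.ne (hQP ha) (hQP hb) hab
    have h1 : Q.filter (fun c => col a b c) = pl Q (ln (a, b)) := by
      unfold pl
      apply filter_congr
      intro c _
      exact col_on hne
    rw [h1]
    have h2 := hQ1 (ln (a, b)) (mem_lines.2 ⟨a, hQP ha, b, hQP hb, hab, rfl⟩)
    exact (Nat.pow_le_pow_left h2 2).trans hQ2)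
  refine ⟨S, hS1.trans hQP, hS2, ?_⟩
  have h1 : (((A * n) ^ 2 : ℕ) : ℝ) ≤ (2 ^ 15 * (S.card : ℝ)) ^ 2 := by
    refine le_trans ?_ hS3
    exact_mod_cast hQ2
  push_cast at h1
  have h2 : ((A : ℝ) * n) ≤ 2 ^ 15 * (S.card : ℝ) := le_of_sq_le_sq h1 (by positivity)
  have h3 : (2 : ℝ) ^ 15 ≤ (A : ℝ) := by
    rw [hA]
    push_cast
    have : (0 : ℝ) ≤ N0 := Nat.cast_nonneg _
    linarith
  have h4 : (2 : ℝ) ^ 15 * (n : ℝ) ≤ 2 ^ 15 * (S.card : ℝ) :=
    (mul_le_mul_of_nonneg_right h3 (Nat.cast_nonneg _)).trans h2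
  have h5 : (n : ℝ) ≤ S.card := le_of_mul_le_mul_left h4 (by norm_num)
  exact_mod_cast h5

/-- The off-diagonal bound in coordinates. -/
theorem gp_coord : ∃ C : ℕ, 1 ≤ C ∧ ∀ k n : ℕ, 1 ≤ n → n ≤ k → ∀ P : Finset (ℝ × ℝ),
    (∀ a ∈ P, ∀ b ∈ P, a ≠ b → (P.filter (fun c => col a b c)).card ≤ k) → C * k * n ≤ P.card →
    ∃ S ⊆ P, (∀ a ∈ S, ∀ b ∈ S, ∀ c ∈ S, a ≠ b → a ≠ c → b ≠ c → ¬ col a b c) ∧ n ≤ S.card := by
  obtain ⟨C, hC1, hC⟩ := gp_of_xi
  refine ⟨C, hC1, ?_⟩
  intro k n hn hnk P hline hP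
  obtain ⟨t, ht⟩ := exists_sh P
  have hcard : (P.image (sh t)).card = P.card := card_image_of_injective _ (sh_inj t)
  obtain ⟨S, hS1, hS2, hS3⟩ := hC k n hn hnk (P.image (sh t)) ht (by
    intro L hL
    obtain ⟨a', ha', b', hb', hab', hl⟩ := mem_lines.1 hL
    have hne := ht.ne ha' hb' hab'
    rw [mem_image] at ha' hb'
    obtain ⟨a, ha, rfl⟩ := ha'
    obtain ⟨b, hb, rfl⟩ := hb'
    have hab : a ≠ b := fun h => hab' (by rw [h])
    refine le_trans ?_ (hline a ha b hb hab)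
    have h1 : pl (P.image (sh t)) L ⊆ (P.filter (fun c => col a b c)).image (sh t) := by
      intro q hq
      unfold pl at hq
      rw [mem_filter, mem_image] at hq
      obtain ⟨⟨c, hc', rfl⟩, hon⟩ := hq
      rw [← hl, ← col_on hne, sh_col] at hon
      exact mem_image_of_mem _ (mem_filter.2 ⟨hc', hon⟩)
    refine (card_le_card h1).trans card_image_le) (by rw [hcard]; exact hP)
  refine ⟨P.filter (fun p => sh t p ∈ S), filter_subset _ _, ?_, ?_⟩
  · intro a ha b hb c hc' hab hac hbc hcol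
    rw [mem_filter] at ha hb hc'
    exact hS2 _ ha.2 _ hb.2 _ hc'.2 (fun h => hab (sh_inj t h)) (fun h => hac (sh_inj t h))
      (fun h => hbc (sh_inj t h)) ((sh_col t a b c).2 hcol)
  · have h1 : S ⊆ (P.filter (fun p => sh t p ∈ S)).image (sh t) := by
      intro q hq
      have := hS1 hq
      rw [mem_image] at this
      obtain ⟨c, hc', rfl⟩ := this
      exact mem_image_of_mem _ (mem_filter.2 ⟨hc', hq⟩)
    exact hS3.trans ((card_le_card h1).trans card_image_le)

end Pool.Agent.Y274.GOW
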