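import Pool.Agent.Y8.Stm5

/-! A small set of points which hits all sets of a finite family (`S_GRDY`). -/

set_option autoImplicit false

open MeasureTheory Set Metric
open scoped ContDiff NNReal ENNReal

namespace Pool.Agent.Y274.GRDY

open H459R3.NS W221.NS

open Classical in
theorem avg {ι : Type} (F : Finset ι) (L : ι → Set V) (A : Set V) (a v : ℝ) (hv : 0 < v)
    (hA : volume A ≤ ENNReal.ofReal a)
    (h : ∀ i ∈ F, L i ⊆ A ∧ MeasurableSet (L i) ∧ ENNReal.ofReal v ≤ volume (L i)) :
    ∃ y : V, v * F.card ≤ a * (F.filter fun i => y ∈ L i).card := by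
  rcases F.eq_empty_or_nonempty with rfl | hF
  · exact ⟨0, by simp⟩
  have ha : 0 ≤ a := by
    by_contra hneg
    push Not at hneg
    obtain ⟨i, hi⟩ := hF
    have h1 := ((h i hi).2.2.trans (measure_mono (h i hi).1)).trans hA
    rw [ENNReal.ofReal_of_nonpos hneg.le] at h1
    have : ENNReal.ofReal v ≠ 0 := by
      rw [Ne, ENNReal.ofReal_eq_zero]; linarith
    exact this (le_antisymm h1 bot_le)
  obtain ⟨y₀, hy₀⟩ : ∃ y₀ : V, ∀ y : V, (F.filter fun i => y ∈ L i).card ≤
      (F.filter fun i => y₀ ∈ L i).card := by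
    have hb : BddAbove (Set.range fun y : V => (F.filter fun i => y ∈ L i).card) := by
      refine ⟨F.card, ?_⟩
      rintro _ ⟨y, rfl⟩
      exact Finset.card_filter_le _ _
    obtain ⟨y₀, hy₀⟩ := Nat.sSup_mem (Set.range_nonempty _) hb
    refine ⟨y₀, fun y => ?_⟩
    have h2 := le_csSup hb (Set.mem_range_self y)
    have h3 : (F.filter fun i => y₀ ∈ L i).card =
      sSup (Set.range fun y : V => (F.filter fun i => y ∈ L i).card) := hy₀
    rw [h3]; exact h2
  refine ⟨y₀, ?_⟩
  set c : ℕ := (F.filter fun i => y₀ ∈ L i).card with hc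
  have h1 : ∑ i ∈ F, volume (L i) ≤ (c : ℝ≥0∞) * volume A := by
    have e1 : ∑ i ∈ F, volume (L i) = ∫⁻ y, ∑ i ∈ F, (L i).indicator 1 y := by
      rw [lintegral_finsetSum' _ (fun i hi =>
        ((measurable_one.indicator (h i hi).2.1).aemeasurable))]
      refine Finset.sum_congr rfl fun i hi => ?_
      rw [lintegral_indicator_one (h i hi).2.1]
    rw [e1, ← measure_toMeasurable A]
    have e2 : (c : ℝ≥0∞) * volume (toMeasurable volume A) =
        ∫⁻ y, (toMeasurable volume A).indicator (fun _ => (c : ℝ≥0∞)) y := by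
      rw [lintegral_indicator (measurableSet_toMeasurable _ _)]
      simp
    rw [e2]
    apply lintegral_mono
    intro y
    have e3 : ∑ i ∈ F, (L i).indicator (1 : V → ℝ≥0∞) y = ((F.filter fun i => y ∈ L i).card : ℝ≥0∞) := by
      rw [Finset.card_filter]
      push_cast
      refine Finset.sum_congr rfl fun i hi => ?_
      by_cases hy : y ∈ L i <;> simp [hy]
    show ∑ i ∈ F, (L i).indicator (1 : V → ℝ≥0∞) y ≤ _
    rw [e3]
    by_cases hy : y ∈ toMeasurable volume A
    · rw [Set.indicator_of_mem hy]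
      exact_mod_cast hy₀ y
    · have h4 : (F.filter fun i => y ∈ L i) = ∅ := by
        apply Finset.filter_eq_empty_iff.2
        intro i hi hyi
        exact hy (subset_toMeasurable _ _ ((h i hi).1 hyi))
      rw [h4]; simp
  have h2 : (F.card : ℝ≥0∞) * ENNReal.ofReal v ≤ ∑ i ∈ F, volume (L i) := by
    rw [← nsmul_eq_mul, ← Finset.sum_const]
    exact Finset.sum_le_sum fun i hi => (h i hi).2.2
  have h3 : (F.card : ℝ≥0∞) * ENNReal.ofReal v ≤ (c : ℝ≥0∞) * ENNReal.ofReal a :=
    (h2.trans h1).trans (mul_le_mul_right hA _)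
  have h4 : ENNReal.ofReal ((F.card : ℝ) * v) ≤ ENNReal.ofReal ((c : ℝ) * a) := by
    rw [ENNReal.ofReal_mul (by positivity), ENNReal.ofReal_mul (by positivity),
      ENNReal.ofReal_natCast, ENNReal.ofReal_natCast]
    exact h3
  have h5 := (ENNReal.ofReal_le_ofReal_iff (by positivity)).1 h4
  linarith

open Classical in
theorem greedy {ι : Type} (F : Finset ι) (L : ι → Set V) (A : Set V) (a v : ℝ) (hv : 0 < v)
    (ha : 0 < a)
    (hA : volume A ≤ ENNReal.ofReal a)
    (h : ∀ i ∈ F, L i ⊆ A ∧ MeasurableSet (L i) ∧ ENNReal.ofReal v ≤ volume (L i)) (k : ℕ) :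
    ∃ Z : Finset V, Z.card ≤ k ∧
      ((F.filter fun i => ∀ y ∈ Z, y ∉ L i).card : ℝ) ≤ F.card * (1 - v / a) ^ k := by
  induction k with
  | zero =>
    exact ⟨∅, by simp, by simp⟩
  | succ k ih =>
    obtain ⟨Z, hZ, hZ2⟩ := ih
    obtain ⟨y, hy⟩ := avg (F.filter fun i => ∀ y ∈ Z, y ∉ L i) L A a v hv hA
      (fun i hi => h i (Finset.mem_filter.1 hi).1)
    set F' := F.filter fun i => ∀ y ∈ Z, y ∉ L i with hF'
    refine ⟨insert y Z, ?_, ?_⟩
    · exact (Finset.card_insert_le _ _).trans (by omega)
    · have e1 : (F.filter fun i => ∀ x ∈ insert y Z, x ∉ L i) = F'.filter fun i => ¬ y ∈ L i := by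
        ext i
        simp only [hF', Finset.mem_filter, Finset.mem_insert, forall_eq_or_imp]
        tauto
      have e2 := Finset.card_filter_add_card_filter_not (s := F') (fun i => y ∈ L i)
      have e3 : ((F'.filter fun i => ¬ y ∈ L i).card : ℝ) =
          F'.card - (F'.filter fun i => y ∈ L i).card := by
        have : (F'.card : ℝ) = ((F'.filter fun i => y ∈ L i).card : ℝ) +
          ((F'.filter fun i => ¬ y ∈ L i).card : ℝ) := by exact_mod_cast e2.symm
        linarith
      rw [e1, e3]
      have e4 : v / a * F'.card ≤ (F'.filter fun i => y ∈ L i).card := by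
        rw [div_mul_eq_mul_div, div_le_iff₀ ha]; linarith
      by_cases hva : v / a ≤ 1
      · calc (F'.card : ℝ) - (F'.filter fun i => y ∈ L i).card ≤ F'.card * (1 - v / a) := by linarith
          _ ≤ (F.card * (1 - v / a) ^ k) * (1 - v / a) :=
              mul_le_mul_of_nonneg_right hZ2 (by linarith)
          _ = F.card * (1 - v / a) ^ (k + 1) := by ring
      · -- then the family is empty
        push Not at hva
        have hF0 : F'.card = 0 := by
          by_contra hne
          have hpos : (0 : ℝ) < F'.card := by positivity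
          have h1 : ((F'.filter fun i => y ∈ L i).card : ℝ) ≤ F'.card := by
            exact_mod_cast Finset.card_filter_le _ _
          nlinarith
        have hF1 : F = ∅ := by
          by_contra hne
          obtain ⟨i, hi⟩ := Finset.nonempty_iff_ne_empty.2 hne
          have h1 := ((h i hi).2.2.trans (measure_mono (h i hi).1)).trans hA
          have h2 := (ENNReal.ofReal_le_ofReal_iff ha.le).1 h1
          have : v / a ≤ 1 := by rw [div_le_one ha]; exact h2
          linarith
        have h0 : ((F'.filter fun i => y ∈ L i).card : ℝ) ≥ 0 := by positivity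
        rw [hF0, hF1]
        simp

theorem t_GRDY : Pool.Agent.Y8.S_GRDY := by
  classical
  intro ι F L A a v hv hA h
  rcases F.eq_empty_or_nonempty with rfl | hF
  · exact ⟨∅, by simp, by simp⟩
  have hav : v ≤ a := by
    obtain ⟨i, hi⟩ := hF
    have h1 := ((h i hi).2.2.trans (measure_mono (h i hi).1)).trans hA
    by_contra hneg
    push Not at hneg
    have := (ENNReal.ofReal_lt_ofReal_iff hv).2 hneg
    exact absurd h1 (not_le.2 this)
  have ha : 0 < a := hv.trans_le hav
  have hFc : (1 : ℝ) ≤ F.card := by exact_mod_cast hF.card_pos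
  have hlog : 0 ≤ a / v * Real.log F.card := by
    have := Real.log_nonneg hFc
    positivity
  obtain ⟨Z, hZ1, hZ2⟩ := greedy F L A a v hv ha hA h (⌊a / v * Real.log F.card⌋₊ + 1)
  refine ⟨Z, ?_, fun _ => ?_⟩
  · have hlt : ((F.filter fun i => ∀ y ∈ Z, y ∉ L i).card : ℝ) < 1 := by
      refine hZ2.trans_lt ?_
      have hk : a / v * Real.log F.card < ((⌊a / v * Real.log F.card⌋₊ + 1 : ℕ) : ℝ) := by
        push_cast
        exact Nat.lt_floor_add_one _
      have h0 : 0 ≤ 1 - v / a := by
        have : v / a ≤ 1 := by rw [div_le_one ha]; exact hav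
        linarith
      have h1 : 1 - v / a ≤ Real.exp (-(v / a)) := by
        have := Real.add_one_le_exp (-(v / a)); linarith
      have h2 : (1 - v / a) ^ (⌊a / v * Real.log F.card⌋₊ + 1) ≤
          Real.exp (-(v / a)) ^ (⌊a / v * Real.log F.card⌋₊ + 1) := pow_le_pow_left₀ h0 h1 _
      rw [← Real.exp_nat_mul] at h2
      have h3 : Real.exp (((⌊a / v * Real.log F.card⌋₊ + 1 : ℕ) : ℝ) * (-(v / a))) <
          Real.exp (- Real.log F.card) := by
        apply Real.exp_lt_exp.2
        have h4 : Real.log F.card < ((⌊a / v * Real.log F.card⌋₊ + 1 : ℕ) : ℝ) * (v / a) := by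
          have h5 : a / v * Real.log F.card * (v / a) = Real.log F.card := by
            field_simp
          rw [← h5]
          exact mul_lt_mul_of_pos_right (by rw [h5]; exact hk) (by positivity)
        linarith
      rw [Real.exp_neg, Real.exp_log (by linarith)] at h3
      calc (F.card : ℝ) * (1 - v / a) ^ (⌊a / v * Real.log F.card⌋₊ + 1)
          ≤ F.card * Real.exp (((⌊a / v * Real.log F.card⌋₊ + 1 : ℕ) : ℝ) * (-(v / a))) :=
            mul_le_mul_of_nonneg_left h2 (by linarith)
        _ < F.card * (F.card : ℝ)⁻¹ := mul_lt_mul_of_pos_left h3 (by linarith)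
        _ = 1 := mul_inv_cancel₀ (by linarith)
    have h0 : (F.filter fun i => ∀ y ∈ Z, y ∉ L i).card = 0 := by
      have : (F.filter fun i => ∀ y ∈ Z, y ∉ L i).card < 1 := by exact_mod_cast hlt
      omega
    intro i hi
    by_contra hne
    push Not at hne
    have : i ∈ F.filter fun i => ∀ y ∈ Z, y ∉ L i := Finset.mem_filter.2 ⟨hi, hne⟩
    rw [Finset.card_eq_zero] at h0
    rw [h0] at this
    exact absurd this (Finset.notMem_empty i)
  · have h1 : (Z.card : ℝ) ≤ ((⌊a / v * Real.log F.card⌋₊ + 1 : ℕ) : ℝ) := by exact_mod_cast hZ1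
    have h2 := Nat.floor_le hlog
    push_cast at h1
    linarith

end Pool.Agent.Y274.GRDY
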