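import Pool.Agent.Results.MP_f42450_an.SphereBoundary
import Pool.Agent.H68R3.HM2

/-!
# Hardy–Morrey constants of open sets without spherical holes

The pointwise estimate of the starting file `SphereBoundary`, freed from the boundedness of the
open set: a function of the class `D^{1,p}_0` is truncated at its value at the point in question,
and then cut off far away, which costs nothing in the limit because `p > n`.
-/

set_option autoImplicit false
set_option linter.unusedSectionVars false

open MeasureTheory Filter Topology Set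
open scoped ENNReal NNReal RealInnerProductSpace

namespace Pool.Agent.Y274.HMU

open Pool.Agent.H68R3
open Pool.Agent.Helper533.Polar
open Pool.Agent.Results.MP_f42450_an.SphereBoundary

variable {n : ℕ}

/-- the estimate for compactly supported functions -/
theorem key0 {p : ℝ} (hp1 : 1 < p) {e : E n} (he : ‖e‖ = 1) {v : E n → ℝ} {V : E n → E n}
    (hH : H0 p volume univ v V) (hvc : Continuous v) (hvs : HasCompactSupport v)
    (hv0 : ∀ y, 0 ≤ v y) {a d : ℝ} (ha : 0 < a) (hd0 : 0 < d) (hva : v 0 = a)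
    (hz : ∀ r, d ≤ r → ∃ y, ‖y‖ = r ∧ v y = 0) :
    hardyMorrey p (cone e Real.pi) * ENNReal.ofReal (a / d ^ (1 - (n : ℝ) / p)) ^ p ≤
      eLpNorm V (ENNReal.ofReal p) volume ^ p := by
  have hp0 : 0 < p := by linarith
  obtain ⟨M, hvout⟩ : ∃ M : ℝ, ∀ y, M ≤ ‖y‖ → v y = 0 := by
    obtain ⟨M, hM⟩ := hvs.isCompact.isBounded.subset_closedBall (0 : E n)
    refine ⟨M + 1, fun y hy => ?_⟩
    by_contra hne
    have := hM (subset_tsupport v hne)
    rw [Metric.mem_closedBall, dist_zero_right] at this
    linarith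
  obtain ⟨B, hB⟩ := hvc.bounded_above_of_compact_support hvs
  have huc : UniformContinuous v := hvs.uniformContinuous_of_continuous hvc
  have hδex : ∀ ε : ℝ, ∃ δ : ℝ, 0 < ε → 0 < δ ∧ ∀ y z, dist y z < δ → |v y - v z| ≤ ε := by
    intro ε
    by_cases hε : 0 < ε
    · obtain ⟨δ, hδ, h1⟩ := Metric.uniformContinuous_iff.1 huc ε hε
      refine ⟨δ, fun _ => ⟨hδ, fun y z hyz => ?_⟩⟩
      have := h1 hyz
      rw [Real.dist_eq] at this
      exact this.le
    · exact ⟨1, fun h' => absurd h' hε⟩
  choose δ hδ using hδex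
  have hcls : Cls p (eLpNorm V (ENNReal.ofReal p) volume) δ M B d a v :=
    ⟨⟨V, hH, le_rfl⟩, fun ε hε => (hδ ε hε).2, hv0, fun y => (le_abs_self _).trans (hB y), hva,
      hvout, hz⟩
  have hB0 : 0 ≤ B := (norm_nonneg _).trans (hB 0)
  obtain ⟨w, hw, hw0⟩ := exists_symm hp1 (fun ε hε => (hδ ε hε).1) hH.mU.2.ne hB0 he hd0 hcls
  obtain ⟨W, hWH, hWC⟩ := hw.sob
  -- the competitor in the slit space
  have hmem0 : MemD0 p univ w W :=
    ⟨hw.continuous fun ε hε => (hδ ε hε).1, fun φ h1 h2 =>
      Pool.Agent.Helper533.Polar.H0.ibp hp1 hWH ⟨h1, h2, subset_univ _⟩, hWH.mU,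
      fun y hy => absurd (mem_univ y) hy⟩
  have hmem1 := hmem0.translate (-(d • e))
  set w' : E n → ℝ := fun y => w (-(d • e) + y) with hw'
  set W' : E n → E n := fun y => W (-(d • e) + y) with hW'
  have hee : ⟪e, e⟫ = (1 : ℝ) := by rw [real_inner_self_eq_norm_sq, he]; norm_num
  have hmem : MemD0 p (cone e Real.pi) w' W' := by
    refine ⟨hmem1.cont, hmem1.grad, hmem1.memLp, fun y hy => ?_⟩
    simp only [cone, mem_ofPred_eq, Real.cos_pi, mul_neg, mul_one, not_lt] at hy
    -- `y` is a nonpositive multiple of `e`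
    have hyy : y = -(‖y‖ • e) := by
      have h1 : ‖y + ‖y‖ • e‖ ^ 2 ≤ 0 := by
        rw [norm_add_sq_real, norm_smul, inner_smul_right, he, norm_norm]
        nlinarith [norm_nonneg y]
      have h2 : ‖y + ‖y‖ • e‖ = 0 := by
        have := norm_nonneg (y + ‖y‖ • e)
        nlinarith
      rw [norm_eq_zero] at h2
      exact eq_neg_of_add_eq_zero_left h2
    have h3 := hw0 (d + ‖y‖) (by linarith [norm_nonneg y])
    simp only [w']
    rw [hyy, show -(d • e) + -(‖y‖ • e) = -((d + ‖y‖) • e) by rw [add_smul]; abel]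
    rw [hyy, norm_neg, norm_smul, norm_norm, he, mul_one] at h3
    exact h3
  -- distance
  have hde : d • e ∈ cone e Real.pi := by
    simp only [cone, mem_ofPred_eq, Real.cos_pi, norm_smul, he, inner_smul_left, hee]
    simp only [Real.norm_eq_abs, abs_of_pos hd0, conj_trivial]
    linarith
  have h0c : (0 : E n) ∈ (cone e Real.pi)ᶜ := by
    simp [cone]
  have hdist : Metric.infDist (d • e) (cone e Real.pi)ᶜ = d := by
    apply le_antisymm
    · refine (Metric.infDist_le_dist_of_mem h0c).trans ?_
      rw [dist_zero_right, norm_smul, he, mul_one, Real.norm_eq_abs, abs_of_pos hd0]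
    · refine (Metric.le_infDist ⟨0, h0c⟩).2 fun y hy => ?_
      simp only [cone, mem_compl_iff, mem_ofPred_eq, Real.cos_pi, mul_neg, mul_one, not_lt] at hy
      rw [dist_eq_norm]
      refine le_of_sq_le_sq ?_ (norm_nonneg _)
      rw [norm_sub_sq_real, norm_smul, he, mul_one, Real.norm_eq_abs, sq_abs, inner_smul_left,
        real_inner_comm]
      simp only [conj_trivial]
      nlinarith [norm_nonneg y, mul_nonneg hd0.le (norm_nonneg y)]
  have hw'd : w' (d • e) = a := by
    simp only [w']
    rw [neg_add_cancel, hw.zero]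
  have hpos : 0 < a / d ^ (1 - (n : ℝ) / p) :=
    div_pos ha (Real.rpow_pos_of_pos hd0 _)
  have hsup : ENNReal.ofReal (a / d ^ (1 - (n : ℝ) / p)) ≤
      weightedSup p (cone e Real.pi) w' := by
    unfold weightedSup
    refine le_trans (le_of_eq ?_) (le_iSup₂ (f := fun y (_ : y ∈ cone e Real.pi) =>
      ENNReal.ofReal (|w' y| / Metric.infDist y (cone e Real.pi)ᶜ ^ (1 - (n : ℝ) / p)))
      (d • e) hde)
    rw [hdist, hw'd, abs_of_pos ha]
  have hw'0 : w' ≠ 0 := by
    intro h0
    have := congrFun h0 (d • e)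
    rw [hw'd] at this
    exact ha.ne' this
  have hlam : hardyMorrey p (cone e Real.pi) ≤
      energy p W' / weightedSup p (cone e Real.pi) w' ^ p := by
    unfold hardyMorrey
    exact iInf₂_le_of_le w' W' (iInf₂_le_of_le hmem hw'0 le_rfl)
  have hEn : energy p W' ≤ eLpNorm V (ENNReal.ofReal p) volume ^ p := by
    rw [energy_eq hp1]
    refine ENNReal.rpow_le_rpow ?_ hp0.le
    refine (le_of_eq ?_).trans hWC
    exact eLpNorm_comp_measurePreserving hWH.mU.1 (measurePreserving_add_left volume _)
  have hEt : energy p W' ≠ ∞ := by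
    rw [energy_eq hp1]
    exact ENNReal.rpow_ne_top_of_nonneg hp0.le hmem.memLp.2.ne
  have hs0 : weightedSup p (cone e Real.pi) w' ^ p ≠ 0 := by
    have h1 : 0 < weightedSup p (cone e Real.pi) w' :=
      lt_of_lt_of_le (ENNReal.ofReal_pos.2 hpos) hsup
    exact (ENNReal.rpow_pos_of_nonneg h1 hp0.le).ne'
  have h5 := (ENNReal.le_div_iff_mul_le (Or.inl hs0) (Or.inr hEt)).1 hlam
  calc hardyMorrey p (cone e Real.pi) *
        ENNReal.ofReal (a / d ^ (1 - (n : ℝ) / p)) ^ p
      ≤ hardyMorrey p (cone e Real.pi) * weightedSup p (cone e Real.pi) w' ^ p :=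
        mul_le_mul' le_rfl (ENNReal.rpow_le_rpow hsup hp0.le)
    _ ≤ energy p W' := h5
    _ ≤ eLpNorm V (ENNReal.ofReal p) volume ^ p := hEn

/-- weak gradient of a product with a test function -/
theorem weak_mul {u : E n → ℝ} {g : E n → E n} (hu : Continuous u) (hg : IsWeakGradient u g)
    {q : ℝ≥0∞} (hq : 1 ≤ q) (hgm : MemLp g q volume) {η : E n → ℝ} (hη : Cc univ η) :
    ∀ φ : E n → ℝ, Cc univ φ → ∫ x, (η x * u x) • gradient φ x =
      - ∫ x, φ x • (η x • g x + u x • gradient η x) := by
  intro φ hφ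
  have h1 := hg (fun x => η x * φ x) (hη.smooth.mul hφ.smooth) (hφ.comp.mul_left)
  have h2 : ∀ x, gradient (fun x => η x * φ x) x = η x • gradient φ x + φ x • gradient η x :=
    fun x => grad_mul (hη.diff x) (hφ.diff x)
  have I1 : Integrable (fun x => (η x * u x) • gradient φ x) volume :=
    ((hη.cont.mul hu).smul hφ.cont_grad).integrable_of_hasCompactSupport hφ.comp_grad.smul_left
  have I2 : Integrable (fun x => φ x • (u x • gradient η x)) volume :=
    (hφ.cont.smul (hu.smul hη.cont_grad)).integrable_of_hasCompactSupport hφ.comp.smul_right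
  have I3 : Integrable (fun x => φ x • (η x • g x)) volume := by
    have h3 : LocallyIntegrable g volume := hgm.locallyIntegrable hq
    have h4 := h3.integrable_smul_left_of_hasCompactSupport (hφ.cont.mul hη.cont)
      (hφ.comp.mul_right (f' := η))
    refine h4.congr (Eventually.of_forall fun x => ?_)
    simp only [smul_smul]
    rfl
  have e1 : ∫ x, u x • gradient (fun x => η x * φ x) x =
      (∫ x, (η x * u x) • gradient φ x) + ∫ x, φ x • (u x • gradient η x) := by
    rw [← integral_add I1 I2]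
    congr 1
    ext1 x
    rw [h2, smul_add, smul_smul, smul_smul, smul_smul]
    congr 2
    · ring
    · ring
  have e2 : ∫ x, (η x * φ x) • g x = ∫ x, φ x • (η x • g x) := by
    congr 1
    ext1 x
    rw [smul_smul, mul_comm]
  have e3 : ∫ x, φ x • (η x • g x + u x • gradient η x) =
      (∫ x, φ x • (η x • g x)) + ∫ x, φ x • (u x • gradient η x) := by
    rw [← integral_add I3 I2]
    congr 1
    ext1 x
    rw [smul_add]
  rw [e1, e2] at h1
  rw [e3, neg_add, ← h1]
  abel

/-- the product with a test function is in `H0` -/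
theorem cut_H0 (hn : 1 ≤ n) {p : ℝ} (hp : 1 < p) {u : E n → ℝ} {g : E n → E n} (hu : Continuous u)
    (hg : IsWeakGradient u g) (hgm : MemLp g (ENNReal.ofReal p) volume) {η : E n → ℝ}
    (hη : Cc univ η) :
    H0 p volume univ (fun x => η x * u x) (fun x => η x • g x + u x • gradient η x) := by
  have hP : (1 : ℝ≥0∞) ≤ ENNReal.ofReal p := by simpa using ENNReal.ofReal_le_ofReal hp.le
  have hcs : HasCompactSupport (fun x => η x * u x) := hη.comp.mul_right
  have m1 : MemLp (fun x => η x * u x) (ENNReal.ofReal p) volume :=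
    (hη.cont.mul hu).memLp_of_hasCompactSupport hcs
  obtain ⟨C, hC⟩ := hη.cont.bounded_above_of_compact_support hη.comp
  have m2 : MemLp (fun x => η x • g x) (ENNReal.ofReal p) volume := by
    refine MemLp.of_le_mul (c := C) hgm (hη.cont.aestronglyMeasurable.smul hgm.1)
      (Eventually.of_forall fun x => ?_)
    rw [norm_smul]
    exact mul_le_mul_of_nonneg_right (hC x) (norm_nonneg _)
  have m3 : MemLp (fun x => u x • gradient η x) (ENNReal.ofReal p) volume :=
    (hu.smul hη.cont_grad).memLp_of_hasCompactSupport hη.comp_grad.smul_left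
  have m4 := m2.add m3
  refine ⟨m1, m4, fun ε hε => ?_⟩
  obtain ⟨δ, hδ, hδε⟩ : ∃ δ : ℝ, 0 < δ ∧ ENNReal.ofReal δ ≤ ε := by
    by_cases ht : ε = ∞
    · exact ⟨1, one_pos, by rw [ht]; exact le_top⟩
    · exact ⟨ε.toReal, ENNReal.toReal_pos hε ht, ENNReal.ofReal_toReal_le⟩
  obtain ⟨φ, h1, -, h2, h3, -, -⟩ := Pool.Agent.Helper533.Polar.mollify_weak hn hp m1 m4
    hη.comp.isCompact (Eventually.of_forall fun x hx => by
      rw [zero_of_notMem hx, zero_mul])
    (weak_mul hu hg hP hgm hη) hδ
  exact ⟨φ, h1, h2.trans hδε, h3.trans hδε⟩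

/-- the estimate for all functions with `p`-integrable weak gradient -/
theorem key1 (hn : 1 ≤ n) {p : ℝ} (hp : (n : ℝ) < p) {e : E n} (he : ‖e‖ = 1) {u : E n → ℝ}
    {g : E n → E n} (hu : Continuous u) (hg : IsWeakGradient u g)
    (hgm : MemLp g (ENNReal.ofReal p) volume) {a d : ℝ} (ha : 0 < a) (hd0 : 0 < d)
    (hua : |u 0| = a) (hz : ∀ r, d ≤ r → ∃ y, ‖y‖ = r ∧ u y = 0) :
    hardyMorrey p (cone e Real.pi) * ENNReal.ofReal (a / d ^ (1 - (n : ℝ) / p)) ^ p ≤
      energy p g := by
  have hn' : (1 : ℝ) ≤ n := by exact_mod_cast hn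
  have hp1 : 1 < p := by linarith
  have hp0 : 0 < p := by linarith
  have hP : (1 : ℝ≥0∞) ≤ ENNReal.ofReal p := by simpa using ENNReal.ofReal_le_ofReal hp1.le
  obtain ⟨η, hη, hη01, W, hWo, hKW, -, hW1⟩ := exists_cutoff
    (isCompact_closedBall (0 : E n) 1) (Metric.isOpen_ball (x := (0 : E n)) (ε := 2))
    (Metric.closedBall_subset_ball (by norm_num))
  -- the dilates
  have hηt : ∀ t : ℝ, 0 < t → Cc univ (fun y : E n => η (0 + t • y)) := fun t ht =>
    (Cc_affine hη 0 ht.ne').mono (subset_univ _)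
  have key : ∀ t : ℝ, 0 < t → hardyMorrey p (cone e Real.pi) *
      ENNReal.ofReal (a / d ^ (1 - (n : ℝ) / p)) ^ p ≤
        (eLpNorm g (ENNReal.ofReal p) volume +
          ENNReal.ofReal a * (ENNReal.ofReal (t ^ (p - n)) * En p (gradient η)) ^ (1 / p)) ^ p := by
    intro t ht
    have ht2 : 0 < t / 2 := by positivity
    set α : E n → ℝ := fun y => η (0 + (t / 2) • y) with hα
    set β : E n → ℝ := fun y => η (0 + t • y) with hβ
    have hαc : Cc univ α := hηt _ ht2
    have hβc : Cc univ β := hηt _ ht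
    have hβ01 : ∀ y, 0 ≤ β y ∧ β y ≤ 1 := fun y => hη01 _
    have hα0 : α 0 = 1 := by
      simp only [α, smul_zero, add_zero]
      exact hW1 0 (hKW (by simp))
    have hβ0 : β 0 = 1 := by
      simp only [β, smul_zero, add_zero]
      exact hW1 0 (hKW (by simp))
    have hαβ : ∀ y, β y ≠ 0 → α y = 1 ∧ gradient α y = 0 := by
      intro y hy
      have h1 : t • y ∈ Metric.ball (0 : E n) 2 := by
        have := hη.supp (subset_tsupport η hy)
        rwa [zero_add] at this
      have h2 : (0 : E n) + (t / 2) • y ∈ W := by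
        apply hKW
        rw [mem_ball_zero_iff, norm_smul, Real.norm_eq_abs, abs_of_pos ht] at h1
        rw [zero_add, Metric.mem_closedBall, dist_zero_right, norm_smul, Real.norm_eq_abs,
          abs_of_pos ht2]
        linarith
      have h3 : α =ᶠ[𝓝 y] fun _ => (1 : ℝ) := by
        have hc : Continuous fun y : E n => (0 : E n) + (t / 2) • y := by fun_prop
        filter_upwards [(hWo.preimage hc).mem_nhds h2] with z hz'
        exact hW1 _ hz'
      refine ⟨hW1 _ h2, ?_⟩
      unfold gradient
      rw [h3.fderiv_eq]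
      simp
    -- the functions
    have H1 := cut_H0 hn hp1 hu hg hgm hαc
    set w1 : E n → ℝ := fun y => α y * u y with hw1
    set U1 : E n → E n := fun y => α y • g y + u y • gradient α y with hU1
    have H2 := H0_abs hp1 H1
    set w2 : E n → ℝ := fun y => |w1 y| with hw2
    set U2 : E n → E n := fun y => (SignType.sign (w1 y) : ℝ) • U1 y with hU2
    have H3 := H0.sub hp1.le H2 (H0.pos hp1 H2 ha.le)
    set w3 : E n → ℝ := fun y => w2 y - max (w2 y - a) 0 with hw3
    set U3 : E n → E n := fun y => U2 y - (if a < w2 y then (1 : ℝ) else 0) • U2 y with hU3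
    have H4 := (H0.mul_Cc hp1 H3 hβc).mono (subset_univ _)
    set w4 : E n → ℝ := fun y => β y * w3 y with hw4
    set U4 : E n → E n := fun y => β y • U3 y + w3 y • gradient β y with hU4
    have hw3a : ∀ y, 0 ≤ w3 y ∧ w3 y ≤ a := by
      intro y
      have h1 : 0 ≤ w2 y := abs_nonneg _
      simp only [w3]
      rcases le_total (w2 y) a with h | h
      · rw [max_eq_right (by linarith)]
        constructor <;> linarith
      · rw [max_eq_left (by linarith)]
        constructor <;> linarith
    have hU21 : ∀ y, ‖U2 y‖ ≤ ‖U1 y‖ := by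
      intro y
      simp only [U2]
      rw [norm_smul]
      refine mul_le_of_le_one_left (norm_nonneg _) ?_
      rcases lt_trichotomy (w1 y) 0 with h2 | h2 | h2
      · rw [sign_neg h2]; simp
      · rw [h2]; simp
      · rw [sign_pos h2]; simp
    have hU32 : ∀ y, ‖U3 y‖ ≤ ‖U2 y‖ := by
      intro y
      simp only [U3]
      split_ifs
      · simp
      · simp
    have hU4g : ∀ y, ‖U4 y‖ ≤ ‖g y‖ + ‖a • gradient β y‖ := by
      intro y
      simp only [U4]
      refine (norm_add_le _ _).trans (add_le_add ?_ ?_)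
      · by_cases hy : β y = 0
        · rw [hy, zero_smul, norm_zero]
          exact norm_nonneg _
        · obtain ⟨h1, h2⟩ := hαβ y hy
          have h3 : U1 y = g y := by
            simp only [U1]
            rw [h1, h2, one_smul, smul_zero, add_zero]
          rw [norm_smul, Real.norm_eq_abs, abs_of_nonneg (hβ01 y).1]
          refine (mul_le_of_le_one_left (norm_nonneg _) (hβ01 y).2).trans ?_
          rw [← h3]
          exact (hU32 y).trans (hU21 y)
      · rw [norm_smul, norm_smul, Real.norm_eq_abs, Real.norm_eq_abs, abs_of_nonneg (hw3a y).1,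
          abs_of_pos ha]
        exact mul_le_mul_of_nonneg_right (hw3a y).2 (norm_nonneg _)
    have hU4n : eLpNorm U4 (ENNReal.ofReal p) volume ≤ eLpNorm g (ENNReal.ofReal p) volume +
        ENNReal.ofReal a * (ENNReal.ofReal (t ^ (p - n)) * En p (gradient η)) ^ (1 / p) := by
      have h1 : eLpNorm U4 (ENNReal.ofReal p) volume ≤
          eLpNorm (fun y => ‖g y‖ + ‖a • gradient β y‖) (ENNReal.ofReal p) volume :=
        eLpNorm_mono_real hU4g
      have h2 : eLpNorm (fun y => ‖g y‖ + ‖a • gradient β y‖) (ENNReal.ofReal p) volume ≤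
          eLpNorm (fun y => ‖g y‖) (ENNReal.ofReal p) volume +
            eLpNorm (fun y => ‖a • gradient β y‖) (ENNReal.ofReal p) volume :=
        eLpNorm_add_le hgm.1.norm
          ((hβc.cont_grad.const_smul a).norm.aestronglyMeasurable) hP
      refine (h1.trans h2).trans (add_le_add ?_ ?_)
      · rw [eLpNorm_norm]
      · rw [eLpNorm_norm]
        have h3 : eLpNorm (fun y => a • gradient β y) (ENNReal.ofReal p) volume =
            ENNReal.ofReal a * eLpNorm (gradient β) (ENNReal.ofReal p) volume := by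
          rw [show (fun y => a • gradient β y) = a • gradient β from rfl, eLpNorm_const_smul,
            Real.enorm_eq_ofReal_abs, abs_of_pos ha]
        have h4 : En p (gradient β) = ENNReal.ofReal (t ^ (p - n)) * En p (gradient η) :=
          En_affine hp0 (hη.smooth.of_le (by exact_mod_cast le_top)) 0 ht
        have h5 : eLpNorm (gradient β) (ENNReal.ofReal p) volume = En p (gradient β) ^ (1 / p) := by
          rw [En_eq hp0, ← ENNReal.rpow_mul, mul_one_div_cancel hp0.ne', ENNReal.rpow_one]
        rw [h3, h5, h4]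
    have hc1 : Continuous w1 := hαc.cont.mul hu
    have hc2 : Continuous w2 := hc1.abs
    have hc3 : Continuous w3 := hc2.sub ((hc2.sub continuous_const).max continuous_const)
    have hc4 : Continuous w4 := hβc.cont.mul hc3
    have h0 := key0 hp1 he H4 hc4 (hβc.comp.mul_right) (fun y => mul_nonneg (hβ01 y).1 (hw3a y).1)
      ha hd0 (by
        simp only [w4, w3, w2, w1]
        rw [hα0, hβ0, one_mul, one_mul, hua, sub_self, max_self, sub_zero]) (by
        intro r hr
        obtain ⟨y, hy, hy0⟩ := hz r hr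
        refine ⟨y, hy, ?_⟩
        simp only [w4, w3, w2, w1]
        rw [hy0, mul_zero, abs_zero, zero_sub, max_eq_right (by linarith), neg_zero, mul_zero])
    exact h0.trans (ENNReal.rpow_le_rpow hU4n hp0.le)
  -- the limit
  have hEη : En p (gradient η) ≠ ∞ := Cc_En_ne_top hp0 hη
  have hlim : Tendsto (fun k : ℕ => (eLpNorm g (ENNReal.ofReal p) volume +
      ENNReal.ofReal a * (ENNReal.ofReal ((1 / ((k : ℝ) + 1)) ^ (p - n)) *
        En p (gradient η)) ^ (1 / p)) ^ p) atTop
      (𝓝 ((eLpNorm g (ENNReal.ofReal p) volume + ENNReal.ofReal a *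
        (ENNReal.ofReal 0 * En p (gradient η)) ^ (1 / p)) ^ p)) := by
    have h1 : Tendsto (fun k : ℕ => (1 / ((k : ℝ) + 1)) ^ (p - n)) atTop (𝓝 0) := by
      have h2 := (tendsto_one_div_add_atTop_nhds_zero_nat (𝕜 := ℝ))
      have h3 := h2.rpow_const (p := p - n) (Or.inr (by linarith))
      rwa [Real.zero_rpow (by linarith)] at h3
    have h4 := ENNReal.tendsto_ofReal h1
    have h5 := ENNReal.Tendsto.mul_const (b := En p (gradient η)) h4 (Or.inr hEη)
    have h6 := (ENNReal.continuous_rpow_const (y := 1 / p)).tendsto _ |>.comp h5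
    have h7 := ENNReal.Tendsto.const_mul (a := ENNReal.ofReal a) h6 (Or.inr ENNReal.ofReal_ne_top)
    have h8 := h7.const_add (eLpNorm g (ENNReal.ofReal p) volume)
    exact (ENNReal.continuous_rpow_const (y := p)).tendsto _ |>.comp h8
  have hfin := ge_of_tendsto' hlim fun k => key (1 / ((k : ℝ) + 1)) (by positivity)
  rw [ENNReal.ofReal_zero, zero_mul, ENNReal.zero_rpow_of_pos (by positivity), mul_zero, add_zero,
    ← energy_eq hp1] at hfin
  exact hfin

/-- `Ω` has no spherical hole: the ball of every sphere which is contained in `Ω` and centred in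
`Ω` is contained in `Ω`. -/
def NoSphericalHole (Ω : Set (E n)) : Prop :=
  ∀ x ∈ Ω, ∀ r : ℝ, Metric.sphere x r ⊆ Ω → Metric.closedBall x r ⊆ Ω

/-- the estimate at one point -/
theorem key_point (hn : 1 ≤ n) {p : ℝ} (hp : (n : ℝ) < p) {e : E n} (he : ‖e‖ = 1)
    {Ω : Set (E n)} (hΩ : IsOpen Ω) (hne : Ω ≠ univ) (hS : NoSphericalHole Ω) {u : E n → ℝ}
    {g : E n → E n} (h : MemD0 p Ω u g) {x : E n} (hx : x ∈ Ω) :
    hardyMorrey p (cone e Real.pi) *
      ENNReal.ofReal (|u x| / Metric.infDist x Ωᶜ ^ (1 - (n : ℝ) / p)) ^ p ≤ energy p g := by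
  have hn' : (1 : ℝ) ≤ n := by exact_mod_cast hn
  have hp0 : 0 < p := by linarith
  by_cases hux : u x = 0
  · rw [hux, abs_zero, zero_div, ENNReal.ofReal_zero, ENNReal.zero_rpow_of_pos hp0, mul_zero]
    exact bot_le
  have hcne : (Ωᶜ).Nonempty := nonempty_compl.2 hne
  have hd0 : 0 < Metric.infDist x Ωᶜ :=
    (hΩ.isClosed_compl.notMem_iff_infDist_pos hcne).1 (fun h' => h' hx)
  have hT := h.translate x
  have hua : |(fun y => u (x + y)) 0| = |u x| := by simp
  have hen : energy p (fun y => g (x + y)) = energy p g := by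
    unfold energy
    exact lintegral_add_left_eq_self (fun y => ‖g y‖ₑ ^ p) x
  rw [← hen]
  refine key1 hn hp he hT.cont hT.grad hT.memLp (abs_pos.2 hux) hd0 hua ?_
  intro r hr
  by_contra hcon
  push Not at hcon
  have hsub : Metric.sphere x r ⊆ Ω := by
    intro y hy
    by_contra hyΩ
    refine hcon (y - x) (by rw [← dist_eq_norm]; exact hy) ?_
    rw [add_sub_cancel]
    exact h.zero y hyΩ
  obtain ⟨y, hy, hyd⟩ := hΩ.isClosed_compl.exists_infDist_eq_dist hcne x
  exact hy (hS x hx r hsub (by
    rw [Metric.mem_closedBall, dist_comm, ← hyd]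
    exact hr))

end Pool.Agent.Y274.HMU
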