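import Pool.Agent.Y8.Stm5
import Pool.Agent.W940.MD.EULER
import Pool.Agent.W645.MD.FlowcA

/-! A flow of a Lipschitz field which is free of divergence at a dense set of times preserves the
measure (`S_MPRES`). -/

set_option autoImplicit false

open MeasureTheory Set Metric Filter Topology
open scoped ContDiff NNReal ENNReal

namespace Pool.Agent.Y274.MPRES

open H459R3.NS W221.NS

/-- uniform modulus of continuity in time -/
theorem unif {T : ℝ} {U : ℝ → V → V}
    (hc : ∀ t ∈ Ioo 0 T, ∀ δ > 0, ∃ η > 0, ∀ s ∈ Ioo 0 T, |s - t| < η → ∀ x, ‖U s x - U t x‖ ≤ δ)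
    {K : Set ℝ} (hK : IsCompact K) (hKT : K ⊆ Ioo 0 T) {ε : ℝ} (hε : 0 < ε) :
    ∃ η > 0, ∀ s ∈ K, ∀ s' ∈ Ioo 0 T, |s' - s| < η → ∀ x, ‖U s' x - U s x‖ ≤ ε := by
  choose! η hη hη2 using fun t (ht : t ∈ Ioo 0 T) => hc t ht (ε / 2) (by linarith)
  obtain ⟨δ, hδ, h⟩ := lebesgue_number_lemma_of_metric (s := K) (ι := K)
    (c := fun t => ball (t : ℝ) (η t)) hK (fun _ => isOpen_ball) (fun t ht =>
      mem_iUnion.2 ⟨⟨t, ht⟩, mem_ball_self (hη t (hKT ht))⟩)
  refine ⟨δ, hδ, fun s hs s' hs' hss x => ?_⟩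
  obtain ⟨i, hi⟩ := h s hs
  have h1 : s ∈ ball (i : ℝ) (η i) := hi (mem_ball_self hδ)
  have h2 : s' ∈ ball (i : ℝ) (η i) := hi (by rw [mem_ball, Real.dist_eq]; exact hss)
  rw [mem_ball, Real.dist_eq] at h1 h2
  have h3 := hη2 i (hKT i.2) s (hKT hs) h1 x
  have h4 := hη2 i (hKT i.2) s' hs' h2 x
  have e : U s' x - U s x = (U s' x - U i x) - (U s x - U i x) := by abel
  rw [e]
  refine (norm_sub_le _ _).trans ?_
  linarith

/-- the Euler scheme -/
noncomputable def Ye (U : ℝ → V → V) (g : ℕ → ℝ) (h : ℝ) : ℕ → V → V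
  | 0 => fun x => x
  | j + 1 => fun x => Ye U g h j x + h • U (g j) (Ye U g h j x)

section
variable {T M : ℝ} {L : ℝ≥0} {U : ℝ → V → V}
  (hU : ∀ t ∈ Ioo 0 T, LipschitzWith L (U t) ∧ ∀ x, ‖U t x‖ ≤ M)
  {X : ℝ → V → V}
  (hX : ∀ y, ∀ t ∈ Ioo 0 T, HasDerivAt (fun τ => X τ y) (U t (X t y)) t)

include hU hX in
theorem X_lip (x : V) {s t : ℝ} (hs : s ∈ Ioo 0 T) (ht : t ∈ Ioo 0 T) :
    ‖X t x - X s x‖ ≤ M * |t - s| := by
  have hsub : uIcc s t ⊆ Ioo 0 T := by
    rintro r ⟨h1, h2⟩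
    exact ⟨lt_of_lt_of_le (lt_min hs.1 ht.1) h1, lt_of_le_of_lt h2 (max_lt hs.2 ht.2)⟩
  have := Convex.norm_image_sub_le_of_norm_hasDerivWithin_le (s := uIcc s t)
    (f := fun τ => X τ x) (f' := fun τ => U τ (X τ x)) (C := M) (x := s) (y := t)
    (fun τ hτ => (hX x τ (hsub hτ)).hasDerivWithinAt) (fun τ hτ => (hU τ (hsub hτ)).2 _)
    (convex_uIcc s t) left_mem_uIcc right_mem_uIcc
  rwa [Real.norm_eq_abs] at this

include hU hX in
theorem X_step (hM : 0 ≤ M) (x : V) {s t g ε η : ℝ} (hs : s ∈ Ioo 0 T) (ht : t ∈ Ioo 0 T)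
    (hg : g ∈ Ioo 0 T) (hη : ∀ s' ∈ Ioo 0 T, |s' - s| < η → ∀ x, ‖U s' x - U s x‖ ≤ ε)
    (hgs : |g - s| < η) (hts : |t - s| < η) :
    ‖X t x - X s x - (t - s) • U g (X s x)‖ ≤ |t - s| * (2 * ε + L * M * |t - s|) := by
  have hsub : uIcc s t ⊆ Ioo 0 T := by
    rintro r ⟨h1, h2⟩
    exact ⟨lt_of_lt_of_le (lt_min hs.1 ht.1) h1, lt_of_le_of_lt h2 (max_lt hs.2 ht.2)⟩
  have hle : ∀ τ ∈ uIcc s t, |τ - s| ≤ |t - s| := by
    intro τ hτ
    exact abs_sub_left_of_mem_uIcc hτ
  have key := Convex.norm_image_sub_le_of_norm_hasDerivWithin_le (s := uIcc s t)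
    (f := fun τ => X τ x - τ • U g (X s x)) (f' := fun τ => U τ (X τ x) - U g (X s x))
    (C := 2 * ε + L * M * |t - s|) (x := s) (y := t) ?_ ?_
    (convex_uIcc s t) left_mem_uIcc right_mem_uIcc
  · rw [Real.norm_eq_abs] at key
    have e : X t x - X s x - (t - s) • U g (X s x) =
        (X t x - t • U g (X s x)) - (X s x - s • U g (X s x)) := by module
    rw [e, mul_comm]
    exact key
  · intro τ hτ
    have h1 := hX x τ (hsub hτ)
    have h2 : HasDerivAt (fun τ : ℝ => τ • U g (X s x)) (U g (X s x)) τ := by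
      simpa using (hasDerivAt_id τ).smul_const (U g (X s x))
    exact (h1.sub h2).hasDerivWithinAt
  · intro τ hτ
    have h1 : ‖U τ (X τ x) - U τ (X s x)‖ ≤ L * (M * |t - s|) := by
      have h2 := (hU τ (hsub hτ)).1.dist_le_mul (X τ x) (X s x)
      rw [dist_eq_norm, dist_eq_norm] at h2
      refine h2.trans (mul_le_mul_of_nonneg_left ?_ L.2)
      refine (X_lip hU hX x hs (hsub hτ)).trans ?_
      exact mul_le_mul_of_nonneg_left (hle τ hτ) hM
    have h3 : ‖U τ (X s x) - U s (X s x)‖ ≤ ε :=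
      hη τ (hsub hτ) (lt_of_le_of_lt (hle τ hτ) hts) _
    have h4 : ‖U g (X s x) - U s (X s x)‖ ≤ ε := hη g hg hgs _
    have e : U τ (X τ x) - U g (X s x) = (U τ (X τ x) - U τ (X s x)) +
        (U τ (X s x) - U s (X s x)) - (U g (X s x) - U s (X s x)) := by abel
    rw [e]
    refine (norm_sub_le _ _).trans ?_
    have h5 := norm_add_le (U τ (X τ x) - U τ (X s x)) (U τ (X s x) - U s (X s x))
    linarith

include hU in
theorem Ye_disp {g : ℕ → ℝ} (hg : ∀ j, g j ∈ Ioo 0 T) (h : ℝ) (x : V) (j : ℕ) :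
    ‖Ye U g h j x - x‖ ≤ j * |h| * M := by
  induction j with
  | zero => simp [Ye]
  | succ j ih =>
    have h2 := (hU (g j) (hg j)).2 (Ye U g h j x)
    have e : Ye U g h (j + 1) x - x = (Ye U g h j x - x) + h • U (g j) (Ye U g h j x) := by
      simp only [Ye]; abel
    rw [e]
    refine (norm_add_le _ _).trans ?_
    rw [norm_smul, Real.norm_eq_abs]
    push_cast
    have h3 := mul_le_mul_of_nonneg_left h2 (abs_nonneg h)
    nlinarith

include hU hX in
theorem Ye_err (hM : 0 ≤ M) {g : ℕ → ℝ} (hg : ∀ j, g j ∈ Ioo 0 T) {t₀ h ε η : ℝ} {N : ℕ}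
    (hX0 : ∀ y, X t₀ y = y)
    (hgr : ∀ j ≤ N, t₀ + j * h ∈ Ioo 0 T)
    (hη : ∀ j ≤ N, ∀ s' ∈ Ioo 0 T, |s' - (t₀ + j * h)| < η → ∀ x,
      ‖U s' x - U (t₀ + j * h) x‖ ≤ ε)
    (hgs : ∀ j ≤ N, |g j - (t₀ + j * h)| < η) (hh : |h| < η) (hε : 0 ≤ ε) (x : V) :
    ∀ j ≤ N, ‖Ye U g h j x - X (t₀ + j * h) x‖ ≤
      j * (|h| * (2 * ε + L * M * |h|)) * (1 + |h| * L) ^ j := by
  intro j
  induction j with
  | zero =>
    intro _
    simp [Ye, hX0 x]
  | succ j ih =>
    intro hj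
    have hj' : j ≤ N := by omega
    have h1 := ih hj'
    have e0 : t₀ + ((j + 1 : ℕ) : ℝ) * h = (t₀ + j * h) + h := by push_cast; ring
    have hτ := hgr j hj'
    have hτ' := hgr (j + 1) hj
    rw [e0] at hτ' ⊢
    set τ : ℝ := t₀ + j * h with hτd
    have h2 := X_step hU hX hM x hτ hτ' (hg j) (hη j hj') (hgs j hj')
      (by rw [add_sub_cancel_left]; exact hh)
    rw [add_sub_cancel_left] at h2
    have h3 := (hU (g j) (hg j)).1.dist_le_mul (Ye U g h j x) (X τ x)
    rw [dist_eq_norm, dist_eq_norm] at h3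
    set K : ℝ := |h| * (2 * ε + L * M * |h|) with hK
    have hK0 : 0 ≤ K := by positivity
    have e : Ye U g h (j + 1) x - X (τ + h) x = (Ye U g h j x - X τ x)
        + h • (U (g j) (Ye U g h j x) - U (g j) (X τ x)) -
          (X (τ + h) x - X τ x - h • U (g j) (X τ x)) := by
      simp only [Ye]
      rw [smul_sub]
      abel
    rw [e]
    have h4 : ‖h • (U (g j) (Ye U g h j x) - U (g j) (X τ x))‖ ≤
        |h| * (L * ‖Ye U g h j x - X τ x‖) := by
      rw [norm_smul, Real.norm_eq_abs]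
      exact mul_le_mul_of_nonneg_left h3 (abs_nonneg h)
    have hL0 : (0 : ℝ) ≤ L := L.2
    have h6 : 0 ≤ 1 + |h| * L := by positivity
    have h5 : 1 ≤ (1 + |h| * L) ^ (j + 1) :=
      one_le_pow₀ (by nlinarith [mul_nonneg (abs_nonneg h) hL0])
    calc _ ≤ ‖(Ye U g h j x - X τ x) + h • (U (g j) (Ye U g h j x) - U (g j) (X τ x))‖ +
          ‖X (τ + h) x - X τ x - h • U (g j) (X τ x)‖ := norm_sub_le _ _
      _ ≤ (‖Ye U g h j x - X τ x‖ + ‖h • (U (g j) (Ye U g h j x) - U (g j) (X τ x))‖) + K :=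
          add_le_add (norm_add_le _ _) h2
      _ ≤ (1 + |h| * L) * ‖Ye U g h j x - X τ x‖ + K := by nlinarith
      _ ≤ (1 + |h| * L) * (j * K * (1 + |h| * L) ^ j) + K * (1 + |h| * L) ^ (j + 1) := by
          have h7 := mul_le_mul_of_nonneg_left h1 h6
          have h8 : K * 1 ≤ K * (1 + |h| * L) ^ (j + 1) := mul_le_mul_of_nonneg_left h5 hK0
          linarith
      _ = ((j + 1 : ℕ) : ℝ) * K * (1 + |h| * L) ^ (j + 1) := by
          push_cast
          ring

include hU in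
theorem Ye_cont {g : ℕ → ℝ} (hg : ∀ j, g j ∈ Ioo 0 T) (h : ℝ) (j : ℕ) :
    Continuous (Ye U g h j) := by
  induction j with
  | zero => exact continuous_id
  | succ j ih =>
    exact ih.add ((((hU (g j) (hg j)).1.continuous).comp ih).const_smul h)

theorem supp_step {f : V → ℝ} (hfs : HasCompactSupport f) {W : V → V} {D : ℝ}
    (hW : ∀ x, ‖W x - x‖ ≤ D) : HasCompactSupport (fun x => f (W x)) := by
  obtain ⟨R, hR⟩ := hfs.isBounded.subset_closedBall (0 : V)
  refine HasCompactSupport.intro (isCompact_closedBall (0 : V) (R + D)) fun x hx => ?_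
  have h1 : W x ∉ tsupport f := by
    intro hm
    have h2 := hR hm
    rw [mem_closedBall, dist_zero_right] at h2
    apply hx
    rw [mem_closedBall, dist_zero_right]
    have h3 : x = W x - (W x - x) := by abel
    rw [h3]
    refine (norm_sub_le _ _).trans ?_
    linarith [hW x]
  exact image_eq_zero_of_notMem_tsupport h1

/-- the integrals along the Euler scheme -/
theorem Ye_int {g : ℕ → ℝ} {h C M : ℝ} (hC : 0 ≤ C)
    (hM : ∀ j x, ‖U (g j) x‖ ≤ M) (hcont : ∀ j, Continuous (U (g j)))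
    (hE : ∀ j, ∀ f : V → ℝ, Continuous f → HasCompactSupport f →
      (∀ x, 0 ≤ f x) → |(∫ x, f (x + h • U (g j) x)) - ∫ x, f x| ≤ C * h ^ 2 * ∫ x, f x) :
    ∀ j, ∀ f : V → ℝ, Continuous f → HasCompactSupport f → (∀ x, 0 ≤ f x) →
      |(∫ x, f (Ye U g h j x)) - ∫ x, f x| ≤ ((1 + C * h ^ 2) ^ j - 1) * ∫ x, f x := by
  intro j
  induction j with
  | zero => intro f _ _ _; simp [Ye]
  | succ j ih =>
    intro f hfc hfs hf0
    set q : V → ℝ := fun y => f (y + h • U (g j) y) with hq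
    have hgc : Continuous q := hfc.comp (continuous_id.add ((hcont j).const_smul h))
    have hgs : HasCompactSupport q := by
      refine supp_step hfs (W := fun y => y + h • U (g j) y) (D := |h| * M) fun x => ?_
      rw [add_sub_cancel_left, norm_smul, Real.norm_eq_abs]
      exact mul_le_mul_of_nonneg_left (hM j x) (abs_nonneg h)
    have hg0 : ∀ x, 0 ≤ q x := fun x => hf0 _
    have h1 := ih q hgc hgs hg0
    have h2 := hE j f hfc hfs hf0
    have e : (∫ x, f (Ye U g h (j + 1) x)) = ∫ x, q (Ye U g h j x) := rfl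
    rw [e]
    set I : ℝ := ∫ x, f x with hI
    have hI0 : 0 ≤ I := integral_nonneg hf0
    have h3 : (∫ x, q x) ≤ (1 + C * h ^ 2) * I := by
      have := (abs_le.1 h2).2
      linarith
    have h4 : 0 ≤ (1 + C * h ^ 2) ^ j - 1 := by
      have : 1 ≤ (1 + C * h ^ 2) ^ j := one_le_pow₀ (by nlinarith [mul_nonneg hC (sq_nonneg h)])
      linarith
    calc |(∫ x, q (Ye U g h j x)) - I| ≤ |(∫ x, q (Ye U g h j x)) - ∫ x, q x| + |(∫ x, q x) - I| :=
          abs_sub_le _ _ _
      _ ≤ ((1 + C * h ^ 2) ^ j - 1) * (∫ x, q x) + C * h ^ 2 * I := add_le_add h1 h2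
      _ ≤ ((1 + C * h ^ 2) ^ j - 1) * ((1 + C * h ^ 2) * I) + C * h ^ 2 * I := by
          have := mul_le_mul_of_nonneg_left h3 h4
          linarith
      _ = ((1 + C * h ^ 2) ^ (j + 1) - 1) * I := by ring

end

theorem pow_le_exp' {x : ℝ} (hx : 0 ≤ x) (n : ℕ) : (1 + x) ^ n ≤ Real.exp (n * x) := by
  rw [Real.exp_nat_mul]
  refine pow_le_pow_left₀ (by linarith) ?_ n
  linarith [Real.add_one_le_exp x]

/-- approximations: continuous maps `W n` with displacement bounded, converging uniformly to the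
flow, which almost preserve integrals. -/
theorem approx {T M : ℝ} {L : ℝ≥0} {G : Set ℝ} {U : ℝ → V → V} (hM : 0 ≤ M) (hGT : G ⊆ Ioo 0 T)
    (hGd : Ioo 0 T ⊆ closure G)
    (hdiv : ∀ t ∈ G, ContDiff ℝ 1 (U t) ∧ ∀ x, ∑ i, pd i (fun y => U t y i) x = 0)
    (hU : ∀ t ∈ Ioo 0 T, LipschitzWith L (U t) ∧ ∀ x, ‖U t x‖ ≤ M)
    (hc : ∀ t ∈ Ioo 0 T, ∀ δ > 0, ∃ η > 0, ∀ s ∈ Ioo 0 T, |s - t| < η → ∀ x, ‖U s x - U t x‖ ≤ δ)
    {X : ℝ → V → V} {t₀ : ℝ} (ht₀ : t₀ ∈ Ioo 0 T) (hX0 : ∀ y, X t₀ y = y)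
    (hX : ∀ y, ∀ t ∈ Ioo 0 T, HasDerivAt (fun τ => X τ y) (U t (X t y)) t)
    {t : ℝ} (ht : t ∈ Ioo 0 T) {ε : ℝ} (hε : 0 < ε) :
    ∃ W : V → V, Continuous W ∧ (∀ x, ‖W x - x‖ ≤ |t - t₀| * M) ∧ (∀ x, ‖W x - X t x‖ ≤ ε) ∧
      ∀ f : V → ℝ, Continuous f → HasCompactSupport f → (∀ x, 0 ≤ f x) →
        |(∫ x, f (W x)) - ∫ x, f x| ≤ ε * ∫ x, f x := by
  have hL0 : (0 : ℝ) ≤ L := L.2
  obtain ⟨C, h₀, hC, hh0, hE⟩ := Pool.Agent.W940.MD.t_EULER L hL0
  set D : ℝ := |t - t₀| with hD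
  have hD0 : 0 ≤ D := abs_nonneg _
  have hsub : uIcc t₀ t ⊆ Ioo 0 T := by
    rintro r ⟨h1, h2⟩
    exact ⟨lt_of_lt_of_le (lt_min ht₀.1 ht.1) h1, lt_of_le_of_lt h2 (max_lt ht₀.2 ht.2)⟩
  -- the first accuracy
  set ε' : ℝ := ε / (4 * (D * Real.exp (D * L) + 1)) with hε'
  have hden : 0 < D * Real.exp (D * L) + 1 := by positivity
  have hε'0 : 0 < ε' := by positivity
  obtain ⟨η, hη, hη2⟩ := unif hc isCompact_uIcc hsub hε'0
  -- the number of steps
  have hlim : Tendsto (fun N : ℕ => D / ((N : ℝ) + 1)) atTop (𝓝 0) := by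
    have h1 : Tendsto (fun N : ℕ => D / (N : ℝ)) atTop (𝓝 0) := tendsto_const_div_atTop_nhds_zero_nat D
    have h2 := h1.comp (tendsto_add_atTop_nat 1)
    refine h2.congr fun N => ?_
    simp
  have hlim2 : Tendsto (fun N : ℕ => Real.exp (C * D * (D / ((N : ℝ) + 1))) - 1) atTop (𝓝 0) := by
    have hcont : Continuous fun y : ℝ => Real.exp (C * D * y) - 1 := by fun_prop
    have h1 := (hcont.tendsto 0).comp hlim
    have e : Real.exp (C * D * 0) - 1 = 0 := by simp
    simp only [e] at h1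
    exact h1
  have hlim3 : Tendsto (fun N : ℕ => L * M * (D / ((N : ℝ) + 1))) atTop (𝓝 0) := by
    have := hlim.const_mul (L * M)
    simpa using this
  obtain ⟨N, hN1, hN2, hN3, hN4⟩ := ((hlim.eventually (gt_mem_nhds hη)).and
    ((hlim.eventually (gt_mem_nhds hh0)).and ((hlim2.eventually (gt_mem_nhds hε)).and
      (hlim3.eventually (gt_mem_nhds hε'0))))).exists
  set N' : ℕ := N + 1 with hN'
  have hN'0 : (0 : ℝ) < N' := by positivity
  set h : ℝ := (t - t₀) / N' with hh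
  have hNh : (N' : ℝ) * h = t - t₀ := by rw [hh]; field_simp
  have habs : |h| = D / ((N : ℝ) + 1) := by
    rw [hh, abs_div, abs_of_pos hN'0, hN']
    push_cast
    rfl
  have hgrid : ∀ j ≤ N', t₀ + j * h ∈ uIcc t₀ t := by
    intro j hj
    have h1 : t₀ + j * h = t₀ + (j / N' : ℝ) * (t - t₀) := by rw [hh]; ring
    have h2 : (0 : ℝ) ≤ j / N' := by positivity
    have h3 : (j / N' : ℝ) ≤ 1 := by
      rw [div_le_one hN'0]; exact_mod_cast hj
    rw [h1]
    have h4 := (convex_uIcc t₀ t) left_mem_uIcc right_mem_uIcc (sub_nonneg.2 h3) h2 (by ring)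
    have h5 : t₀ + (j / N' : ℝ) * (t - t₀) = (1 - (j / N' : ℝ)) • t₀ + (j / N' : ℝ) • t := by
      simp only [smul_eq_mul]; ring
    rw [h5]; exact h4
  have hgex : ∀ j : ℕ, ∃ g ∈ G, j ≤ N' → |g - (t₀ + j * h)| < η := by
    intro j
    by_cases hj : j ≤ N'
    · obtain ⟨g, hg, hg2⟩ := Metric.mem_closure_iff.1 (hGd (hsub (hgrid j hj))) η hη
      refine ⟨g, hg, fun _ => ?_⟩
      rw [Real.dist_eq, abs_sub_comm] at hg2
      exact hg2
    · obtain ⟨g, hg, _⟩ := Metric.mem_closure_iff.1 (hGd ht₀) 1 one_pos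
      exact ⟨g, hg, fun h => absurd h hj⟩
  choose g hg hg2 using hgex
  have hgT : ∀ j, g j ∈ Ioo 0 T := fun j => hGT (hg j)
  refine ⟨Ye U g h N', Ye_cont hU hgT h N', fun x => ?_, fun x => ?_, fun f hfc hfs hf0 => ?_⟩
  · have h1 := Ye_disp hU hgT h x N'
    have h2 : (N' : ℝ) * |h| = D := by
      rw [← abs_of_pos hN'0, ← abs_mul, hNh]
    rwa [h2] at h1
  · have h1 := Ye_err hU hX hM hgT (t₀ := t₀) (h := h) (ε := ε') (η := η) (N := N') hX0
      (fun j hj => hsub (hgrid j hj)) (fun j hj => hη2 _ (hgrid j hj)) (fun j hj => hg2 j hj)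
      (by rw [habs]; exact hN1) hε'0.le x N' le_rfl
    have h2 : t₀ + (N' : ℝ) * h = t := by rw [hNh]; ring
    rw [h2] at h1
    refine h1.trans ?_
    have h3 := pow_le_exp' (x := |h| * L) (by positivity) N'
    have h4 : (N' : ℝ) * |h| = D := by
      rw [← abs_of_pos hN'0, ← abs_mul, hNh]
    have h5 : (N' : ℝ) * (|h| * L) = D * L := by rw [← mul_assoc, h4]
    rw [h5] at h3
    have h6 : L * M * |h| ≤ ε' := by rw [habs]; exact hN4.le
    calc (N' : ℝ) * (|h| * (2 * ε' + L * M * |h|)) * (1 + |h| * L) ^ N'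
        = D * (2 * ε' + L * M * |h|) * (1 + |h| * L) ^ N' := by rw [← mul_assoc, h4]
      _ ≤ D * (3 * ε') * Real.exp (D * L) := by
          apply mul_le_mul _ h3 (by positivity) (by positivity)
          exact mul_le_mul_of_nonneg_left (by linarith) hD0
      _ = 3 * (D * Real.exp (D * L)) * ε' := by ring
      _ ≤ 4 * (D * Real.exp (D * L) + 1) * ε' := by
          apply mul_le_mul_of_nonneg_right _ hε'0.le
          have : 0 ≤ D * Real.exp (D * L) := by positivity
          linarith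
      _ = ε := by rw [hε']; field_simp
  · have hI0 : 0 ≤ ∫ x, f x := integral_nonneg hf0
    have h1 := Ye_int (U := U) (g := g) (h := h) hC.le (fun j x => (hU (g j) (hgT j)).2 x)
      (fun j => (hU (g j) (hgT j)).1.continuous)
      (fun j f hf1 hf2 hf3 => hE (U (g j)) (hdiv (g j) (hg j)).1 (fun x i j' =>
        Pool.Agent.W645.MD.pd_bound hL0 (fun x y => by
          have := (hU (g j) (hgT j)).1.dist_le_mul x y
          rwa [dist_eq_norm, dist_eq_norm] at this) x i j') (hdiv (g j) (hg j)).2 h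
            (by rw [habs]; exact hN2.le) f hf1 hf2 hf3) N' f hfc hfs hf0
    refine h1.trans (mul_le_mul_of_nonneg_right ?_ hI0)
    have h2 := pow_le_exp' (x := C * h ^ 2) (by positivity) N'
    have h3 : (N' : ℝ) * (C * h ^ 2) = C * D * (D / ((N : ℝ) + 1)) := by
      have h4 : (N' : ℝ) * |h| = D := by
        rw [← abs_of_pos hN'0, ← abs_mul, hNh]
      calc (N' : ℝ) * (C * h ^ 2) = C * ((N' : ℝ) * |h|) * |h| := by rw [← sq_abs]; ring
        _ = C * D * (D / ((N : ℝ) + 1)) := by rw [h4, habs]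
    rw [h3] at h2
    linarith

theorem t_MPRES : Pool.Agent.Y8.S_MPRES := by
  intro T M L G U hT hGT hGd hdiv hU hc X t₀ ht₀ hX0 hX t ht
  have hM : 0 ≤ M := (norm_nonneg _).trans ((hU t₀ ht₀).2 0)
  -- a sequence of approximations
  have hap : ∀ n : ℕ, ∃ W : V → V, Continuous W ∧ (∀ x, ‖W x - x‖ ≤ |t - t₀| * M) ∧
      (∀ x, ‖W x - X t x‖ ≤ 1 / ((n : ℝ) + 1)) ∧
      ∀ f : V → ℝ, Continuous f → HasCompactSupport f → (∀ x, 0 ≤ f x) →
        |(∫ x, f (W x)) - ∫ x, f x| ≤ 1 / ((n : ℝ) + 1) * ∫ x, f x := fun n =>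
    approx hM hGT hGd hdiv hU hc ht₀ hX0 hX ht (by positivity)
  choose W hWc hWd hWe hWi using hap
  have hlim : Tendsto (fun n : ℕ => 1 / ((n : ℝ) + 1)) atTop (𝓝 0) :=
    tendsto_one_div_add_atTop_nhds_zero_nat
  have hun : TendstoUniformly W (X t) atTop := by
    rw [Metric.tendstoUniformly_iff]
    intro ε hε
    filter_upwards [hlim.eventually (gt_mem_nhds hε)] with n hn x
    rw [dist_comm, dist_eq_norm]
    exact (hWe n x).trans_lt hn
  have hXc : Continuous (X t) := hun.continuous (Frequently.of_forall hWc)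
  have hpt : ∀ x, Tendsto (fun n => W n x) atTop (𝓝 (X t x)) := fun x => hun.tendsto_at x
  have hXd : ∀ x, ‖X t x - x‖ ≤ |t - t₀| * M := by
    intro x
    have h1 : Tendsto (fun n => ‖W n x - x‖) atTop (𝓝 ‖X t x - x‖) :=
      ((hpt x).sub_const x).norm
    exact le_of_tendsto' h1 fun n => hWd n x
  set δ : ℝ := |t - t₀| * M with hδ
  -- integrals of functions of compact support
  have hint : ∀ f : V → ℝ, Continuous f → HasCompactSupport f → (∀ x, 0 ≤ f x) →
      ∫ x, f (X t x) = ∫ x, f x := by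
    intro f hfc hfs hf0
    have hlim1 : Tendsto (fun n => ∫ x, f (W n x)) atTop (𝓝 (∫ x, f x)) := by
      have h1 : Tendsto (fun n : ℕ => 1 / ((n : ℝ) + 1) * ∫ x, f x) atTop (𝓝 0) := by
        have := hlim.mul_const (∫ x, f x)
        simpa using this
      have h9 : Tendsto (fun n => (∫ x, f (W n x)) - ∫ x, f x) atTop (𝓝 0) :=
        squeeze_zero_norm (fun n => by rw [Real.norm_eq_abs]; exact hWi n f hfc hfs hf0) h1
      have h10 := h9.add_const (∫ x, f x)
      simpa using h10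
    obtain ⟨B, hB⟩ := hfs.exists_bound_of_continuous hfc
    obtain ⟨R, hR⟩ := hfs.isBounded.subset_closedBall (0 : V)
    have hlim2 : Tendsto (fun n => ∫ x, f (W n x)) atTop (𝓝 (∫ x, f (X t x))) := by
      refine tendsto_integral_of_dominated_convergence
        ((closedBall (0 : V) (R + δ)).indicator fun _ => B) ?_ ?_ ?_ ?_
      · intro n
        exact (hfc.comp (hWc n)).aestronglyMeasurable
      · rw [integrable_indicator_iff measurableSet_closedBall]
        exact integrableOn_const (by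
          exact (isCompact_closedBall (0 : V) (R + δ)).measure_lt_top.ne) (by simp)
      · intro n
        refine Eventually.of_forall fun x => ?_
        by_cases hx : x ∈ closedBall (0 : V) (R + δ)
        · rw [indicator_of_mem hx]
          exact hB _
        · rw [indicator_of_notMem hx]
          have h1 : W n x ∉ tsupport f := by
            intro hm
            have h2 := hR hm
            rw [mem_closedBall, dist_zero_right] at h2
            apply hx
            rw [mem_closedBall, dist_zero_right]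
            have h3 := hWd n x
            have h4 : x = W n x - (W n x - x) := by abel
            rw [h4]
            refine (norm_sub_le _ _).trans ?_
            linarith
          rw [image_eq_zero_of_notMem_tsupport h1, norm_zero]
      · exact Eventually.of_forall fun x => (hfc.tendsto _).comp (hpt x)
    exact tendsto_nhds_unique hlim2 hlim1
  -- the image measure is finite on compact sets
  have hfin : IsFiniteMeasureOnCompacts (Measure.map (X t) volume) := by
    constructor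
    intro K hK
    obtain ⟨R, hR⟩ := hK.isBounded.subset_closedBall (0 : V)
    refine (measure_mono hR).trans_lt ?_
    rw [Measure.map_apply hXc.measurable measurableSet_closedBall]
    have hsub : X t ⁻¹' closedBall (0 : V) R ⊆ closedBall (0 : V) (R + δ) := by
      intro x hx
      rw [mem_preimage, mem_closedBall, dist_zero_right] at hx
      rw [mem_closedBall, dist_zero_right]
      have h3 := hXd x
      have h4 : x = X t x - (X t x - x) := by abel
      rw [h4]
      refine (norm_sub_le _ _).trans ?_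
      linarith
    exact (measure_mono hsub).trans_lt (isCompact_closedBall (0 : V) (R + δ)).measure_lt_top
  refine Measure.ext_of_integral_eq_on_compactlySupported_nnreal fun f => ?_
  have hf : Continuous fun x => (f x : ℝ) := NNReal.continuous_coe.comp f.continuous
  rw [integral_map hXc.measurable.aemeasurable hf.aestronglyMeasurable]
  refine hint (fun x => (f x : ℝ)) hf ?_ (fun x => (f x).2)
  exact HasCompactSupport.comp_left f.hasCompactSupport rfl

end Pool.Agent.Y274.MPRES
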