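import Pool.Agent.Results.MP_0067de_an.SingularKernel

set_option autoImplicit false

open MeasureTheory Set Topology
open Filter hiding ker

namespace Pool.Agent.Y274.MXC

open Pool.Agent.Results.MP_0067de_an.SingularKernel

/-! ### the blocks -/

lemma comb_le_one (P : Finset ℤ) {δ : ℝ} (hδ : δ < 1 / 2) (y : ℝ) : comb P δ y ≤ 1 := by
  classical
  have h1 : comb P δ y = ((P.filter (fun p : ℤ => y ∈ Icc ((p : ℝ) - δ) ((p : ℝ) + δ))).card : ℝ) := by
    unfold comb
    simp only [indicator_apply]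
    rw [← Finset.sum_filter, Finset.sum_const, nsmul_eq_mul, mul_one]
  rw [h1]
  have h2 : (P.filter (fun p : ℤ => y ∈ Icc ((p : ℝ) - δ) ((p : ℝ) + δ))).card ≤ 1 := by
    rw [Finset.card_le_one]
    intro p hp q hq
    rw [Finset.mem_filter] at hp hq
    obtain ⟨_, hp1, hp2⟩ := hp
    obtain ⟨_, hq1, hq2⟩ := hq
    have h3 : (p : ℝ) - q < 1 := by linarith
    have h4 : (q : ℝ) - p < 1 := by linarith
    have h5 : p - q < 1 := by exact_mod_cast h3
    have h6 : q - p < 1 := by exact_mod_cast h4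
    omega
  exact_mod_cast h2

lemma measurable_comb (P : Finset ℤ) (δ : ℝ) : Measurable (comb P δ) := by
  unfold comb
  exact Finset.measurable_fun_sum _ (fun p _ => measurable_const.indicator measurableSet_Icc)

/-- the block of order `n` -/
noncomputable def B (n : ℕ) (y : ℝ) : ℝ := comb (pts (n ^ 2)) (1 / (n : ℝ) ^ 4) y

lemma B_nonneg (n : ℕ) (y : ℝ) : 0 ≤ B n y := comb_nonneg _ _ _

lemma B_le_one {n : ℕ} (hn : 2 ≤ n) (y : ℝ) : B n y ≤ 1 := by
  apply comb_le_one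
  have h1 : (2 : ℝ) ≤ n := by exact_mod_cast hn
  have h2 : (2 : ℝ) ^ 4 ≤ (n : ℝ) ^ 4 := pow_le_pow_left₀ (by norm_num) h1 4
  rw [div_lt_div_iff₀ (by positivity) (by norm_num)]
  linarith

lemma measurable_B (n : ℕ) : Measurable (B n) := measurable_comb _ _

lemma B_support {n : ℕ} (hn : 1 ≤ n) {y : ℝ} (h : B n y ≠ 0) : -1 ≤ y ∧ y ≤ 12 * (n : ℝ) ^ 4 := by
  unfold B comb at h
  obtain ⟨p, hp, hp2⟩ := Finset.exists_ne_zero_of_sum_ne_zero h
  have hy : y ∈ Icc ((p : ℝ) - 1 / (n : ℝ) ^ 4) ((p : ℝ) + 1 / (n : ℝ) ^ 4) := by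
    by_contra hcon
    exact hp2 (indicator_of_notMem hcon _)
  have h1 : (1 : ℝ) ≤ n := by exact_mod_cast hn
  have h4 : (1 : ℝ) ≤ (n : ℝ) ^ 4 := one_le_pow₀ h1
  have h5 : 1 / (n : ℝ) ^ 4 ≤ 1 := by rw [div_le_one (by positivity)]; exact h4
  have hp3 : (0 : ℝ) ≤ p ∧ (p : ℝ) ≤ 11 * (n : ℝ) ^ 4 := by
    unfold pts at hp
    rw [Finset.mem_union, Finset.mem_image, Finset.mem_image] at hp
    rcases hp with ⟨i, hi, rfl⟩ | ⟨j, hj, rfl⟩
    · rw [Finset.mem_range] at hi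
      have h6 : (i : ℝ) ≤ (n : ℝ) ^ 2 := by exact_mod_cast hi.le
      have h7 : (n : ℝ) ^ 2 ≤ (n : ℝ) ^ 4 := pow_le_pow_right₀ h1 (by norm_num)
      push_cast
      constructor
      · positivity
      · linarith
    · rw [Finset.mem_range] at hj
      have h6 : (j : ℝ) ≤ (n : ℝ) ^ 2 := by exact_mod_cast hj.le
      push_cast
      constructor
      · positivity
      · nlinarith [mul_le_mul_of_nonneg_right h6 (by positivity : (0 : ℝ) ≤ (n : ℝ) ^ 2)]
  constructor <;> linarith [hy.1, hy.2]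

lemma B_zero {n : ℕ} (hn : 1 ≤ n) : 1 ≤ B n 0 := by
  unfold B comb
  have h0 : (0 : ℤ) ∈ pts (n ^ 2) := by
    unfold pts
    rw [Finset.mem_union, Finset.mem_image]
    exact Or.inl ⟨0, Finset.mem_range.mpr (by positivity), rfl⟩
  have hδ : (0 : ℝ) < 1 / (n : ℝ) ^ 4 := by
    have : (0 : ℝ) < n := by exact_mod_cast hn
    positivity
  have h3 : (Icc (((0 : ℤ) : ℝ) - 1 / (n : ℝ) ^ 4) (((0 : ℤ) : ℝ) + 1 / (n : ℝ) ^ 4)).indicator
      (fun _ => (1 : ℝ)) 0 = 1 := by
    apply indicator_of_mem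
    push_cast
    constructor <;> linarith
  refine le_trans (le_of_eq h3.symm) ?_
  exact Finset.single_le_sum (f := fun p : ℤ =>
    (Icc ((p : ℝ) - 1 / (n : ℝ) ^ 4) ((p : ℝ) + 1 / (n : ℝ) ^ 4)).indicator (fun _ => (1 : ℝ)) 0)
    (fun p _ => indicator_nonneg (fun _ _ => zero_le_one) _) h0

/-! ### the kernel at a point -/

lemma scaled_nonneg {t : ℝ} (ht : 0 < t) (x y : ℝ) : 0 ≤ t⁻¹ * ker ((x - y) / t) :=
  mul_nonneg (inv_nonneg.mpr ht.le) (ker_nonneg _)

lemma integral_scaled {t : ℝ} (ht : 0 < t) (x : ℝ) : ∫ y, t⁻¹ * ker ((x - y) / t) = 1 := by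
  rw [integral_const_mul, integral_sub_left_eq_self (fun z => ker (z / t)) volume x,
    Measure.integral_comp_div, integral_ker, abs_of_pos ht, smul_eq_mul, mul_one,
    inv_mul_cancel₀ ht.ne']

lemma far_bump {R K Y : ℝ} (hR : 0 < R) (hK : 1 ≤ K) (hY : 2 * K ^ 8 * R ≤ Y - R) {t : ℝ}
    (ht : 0 < t) : ∫ y in Icc (-R) R, t⁻¹ * ker ((Y - y) / t) ≤ 1 / K := by
  have h0 := one_bump ht hR Y 0
  rw [zero_sub, zero_add, sub_zero] at h0
  rw [h0]
  have hK0 : 0 < K := by linarith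
  have hK8 : 0 < K ^ 8 := by positivity
  have hYR : 0 < Y - R := lt_of_lt_of_le (by positivity) hY
  rcases lt_or_ge (2 * t) (Y - R) with h | h
  · have h1 : 1 + R / t < |Y / t - 1| := by
      have h3 : 0 < (Y - 2 * t - R) / t := div_pos (by linarith) ht
      have h4 : (Y - 2 * t - R) / t = Y / t - 1 - (1 + R / t) := by field_simp; ring
      exact lt_of_lt_of_le (by linarith) (le_abs_self _)
    have h1' : 1 + R / t < |Y / t + 1| := by
      have h3 : 0 < (Y - R) / t := div_pos hYR ht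
      have h4 : (Y - R) / t = Y / t + 1 - (1 + R / t) := by field_simp; ring
      exact lt_of_lt_of_le (by linarith) (le_abs_self _)
    rw [J_eq_zero h1, J_eq_zero h1', add_zero]
    positivity
  · have hρ : 0 < R / t := div_pos hR ht
    have hle : R / t ≤ (1 / K) ^ 8 := by
      have h5 : K ^ 8 * R ≤ t := by linarith
      rw [div_le_iff₀ ht, div_pow, one_pow, one_div, inv_mul_eq_div, le_div_iff₀ hK8]
      linarith
    have hρ1 : R / t ≤ 1 :=
      hle.trans (pow_le_one₀ (by positivity) (by rw [div_le_one hK0]; exact hK))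
    have hr : (R / t) ^ (1 / 8 : ℝ) ≤ 1 / K := by
      calc (R / t) ^ (1 / 8 : ℝ) ≤ ((1 / K) ^ 8) ^ (1 / 8 : ℝ) :=
            Real.rpow_le_rpow hρ.le hle (by norm_num)
        _ = 1 / K := by
            rw [← Real.rpow_natCast, ← Real.rpow_mul (by positivity)]
            norm_num
    have j1 := J_le (c := Y / t - 1) hρ hρ1
    have j2 := J_le (c := Y / t + 1) hρ hρ1
    linarith

lemma integral_shift (b : ℝ → ℝ) (a y t : ℝ) :
    ∫ z, (t⁻¹ * ker ((a + y - z) / t)) * |b (z - a)| = ∫ z, (t⁻¹ * ker ((y - z) / t)) * |b z| := by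
  rw [← integral_sub_right_eq_self (fun z => (t⁻¹ * ker ((y - z) / t)) * |b z|) a]
  congr 1
  ext z
  congr 3
  ring

lemma integrable_mul {b : ℝ → ℝ} (hb : Measurable b) (hb0 : ∀ z, 0 ≤ b z) (hb1 : ∀ z, b z ≤ 1)
    {t : ℝ} (ht : 0 < t) (x : ℝ) : Integrable (fun z => (t⁻¹ * ker ((x - z) / t)) * b z) := by
  apply (integrable_scaled ht x).mul_bdd (c := 1) hb.aestronglyMeasurable
  exact Eventually.of_forall (fun z => by
    rw [Real.norm_eq_abs, abs_of_nonneg (hb0 z)]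
    exact hb1 z)

/-- Upper estimate: a block, a bounded part near the origin and a constant. -/
lemma maxConv_le {f b : ℝ → ℝ} {a e R K τ y A : ℝ} (he : 0 ≤ e) (hA : 0 ≤ A)
    (hbm : Measurable b) (hb0 : ∀ z, 0 ≤ b z) (hb1 : ∀ z, b z ≤ 1)
    (hR : 0 < R) (hK : 1 ≤ K) (hY : 2 * K ^ 8 * R ≤ a + y - R)
    (hfle : ∀ z, |f z| ≤ A * (Icc (-R) R).indicator (fun _ => 1) z + e * b (z - a) + τ) :
    maxConv ker f (a + y) ≤ e * maxConv ker b y + A * (1 / K) + τ := by
  have : Nonempty {t : ℝ // 0 < t} := ⟨⟨1, one_pos⟩⟩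
  apply ciSup_le
  rintro ⟨t, ht⟩
  show ∫ z, (t⁻¹ * ker ((a + y - z) / t)) * |f z| ≤ _
  have hk := integrable_scaled ht (a + y)
  have hk0 : ∀ z, 0 ≤ t⁻¹ * ker ((a + y - z) / t) := fun z => scaled_nonneg ht _ _
  have i1 : Integrable (fun z => A * (Icc (-R) R).indicator (fun z => t⁻¹ * ker ((a + y - z) / t)) z) :=
    (hk.indicator measurableSet_Icc).const_mul A
  have i2 : Integrable (fun z => e * ((t⁻¹ * ker ((a + y - z) / t)) * b (z - a))) :=
    (integrable_mul (b := fun z => b (z - a)) (hbm.comp (measurable_id.sub_const a))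
      (fun z => hb0 _) (fun z => hb1 _) ht (a + y)).const_mul e
  have i3 : Integrable (fun z => (t⁻¹ * ker ((a + y - z) / t)) * τ) := hk.mul_const τ
  calc ∫ z, (t⁻¹ * ker ((a + y - z) / t)) * |f z|
      ≤ ∫ z, (A * (Icc (-R) R).indicator (fun z => t⁻¹ * ker ((a + y - z) / t)) z +
          e * ((t⁻¹ * ker ((a + y - z) / t)) * b (z - a)) + (t⁻¹ * ker ((a + y - z) / t)) * τ) := by
        apply integral_mono_of_nonneg
        · exact Eventually.of_forall (fun z => mul_nonneg (hk0 z) (abs_nonneg _))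
        · exact (i1.add i2).add i3
        · refine Eventually.of_forall (fun z => ?_)
          show (t⁻¹ * ker ((a + y - z) / t)) * |f z| ≤ _
          have h1 := mul_le_mul_of_nonneg_left (hfle z) (hk0 z)
          refine h1.trans (le_of_eq ?_)
          beta_reduce
          by_cases hz : z ∈ Icc (-R) R
          · rw [indicator_of_mem hz, indicator_of_mem hz]; ring
          · rw [indicator_of_notMem hz, indicator_of_notMem hz]; ring
    _ = A * (∫ z in Icc (-R) R, t⁻¹ * ker ((a + y - z) / t)) +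
          e * (∫ z, (t⁻¹ * ker ((a + y - z) / t)) * b (z - a)) + τ := by
        rw [integral_add (f := fun z => A * (Icc (-R) R).indicator
            (fun z => t⁻¹ * ker ((a + y - z) / t)) z +
            e * ((t⁻¹ * ker ((a + y - z) / t)) * b (z - a))) (i1.add i2) i3,
          integral_add i1 i2,
          integral_const_mul A ((Icc (-R) R).indicator (fun z => t⁻¹ * ker ((a + y - z) / t))),
          integral_indicator measurableSet_Icc,
          integral_const_mul e (fun z => (t⁻¹ * ker ((a + y - z) / t)) * b (z - a)),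
          integral_mul_const, integral_scaled ht, one_mul]
    _ ≤ A * (1 / K) + e * maxConv ker b y + τ := by
        have h1 := mul_le_mul_of_nonneg_left (far_bump hR hK hY ht) hA
        have h2 : ∫ z, (t⁻¹ * ker ((a + y - z) / t)) * b (z - a) ≤ maxConv ker b y := by
          have h3 := integral_shift b a y t
          simp only [abs_of_nonneg (hb0 _)] at h3
          rw [h3]
          have h4 := le_ciSup (maxConv_bddAbove ker_nonneg integrable_ker integral_ker (f := b)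
            (B := 1) (fun z => by rw [abs_of_nonneg (hb0 z)]; exact hb1 z) y) ⟨t, ht⟩
          simp only [abs_of_nonneg (hb0 _)] at h4
          refine h4.trans (le_of_eq ?_)
          unfold maxConv
          simp only [abs_of_nonneg (hb0 _)]
        have h5 := mul_le_mul_of_nonneg_left h2 he
        linarith
    _ = e * maxConv ker b y + A * (1 / K) + τ := by ring

/-- Lower estimate at one scale: the function is at least a constant plus a block near the point. -/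
lemma le_maxConv {f b : ℝ → ℝ} {a e y t A κ : ℝ} (ht : 0 < t) (hfm : Measurable f)
    (hf1 : ∀ z, |f z| ≤ A) (hbm : Measurable b) (hb0 : ∀ z, 0 ≤ b z) (hb1 : ∀ z, b z ≤ 1)
    (hle : ∀ z, a + y - 2 * t ≤ z → κ + e * b (z - a) ≤ |f z|) :
    κ + e * ∫ z, (t⁻¹ * ker ((y - z) / t)) * |b z| ≤ maxConv ker f (a + y) := by
  have h4 := le_ciSup (maxConv_bddAbove ker_nonneg integrable_ker integral_ker (f := f)
    (B := A) hf1 (a + y)) ⟨t, ht⟩
  refine le_trans ?_ h4
  show _ ≤ ∫ z, (t⁻¹ * ker ((a + y - z) / t)) * |f z|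
  have hk := integrable_scaled ht (a + y)
  have i1 : Integrable (fun z => (t⁻¹ * ker ((a + y - z) / t)) * κ) := hk.mul_const κ
  have i2 : Integrable (fun z => e * ((t⁻¹ * ker ((a + y - z) / t)) * |b (z - a)|)) := by
    have h5 := (integrable_mul (b := fun z => b (z - a)) (hbm.comp (measurable_id.sub_const a))
      (fun z => hb0 _) (fun z => hb1 _) ht (a + y)).const_mul e
    refine h5.congr (Eventually.of_forall (fun z => ?_))
    show _ = e * ((t⁻¹ * ker ((a + y - z) / t)) * |b (z - a)|)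
    rw [abs_of_nonneg (hb0 _)]
  have i3 : Integrable (fun z => (t⁻¹ * ker ((a + y - z) / t)) * |f z|) := by
    apply hk.mul_bdd (c := A) (measurable_norm.comp hfm).aestronglyMeasurable
    exact Eventually.of_forall (fun z => by
      rw [Function.comp_apply, Real.norm_eq_abs, Real.norm_eq_abs, abs_abs]
      exact hf1 z)
  have e1 : κ + e * ∫ z, (t⁻¹ * ker ((y - z) / t)) * |b z| =
      ∫ z, ((t⁻¹ * ker ((a + y - z) / t)) * κ + e * ((t⁻¹ * ker ((a + y - z) / t)) * |b (z - a)|)) := by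
    rw [integral_add i1 i2, integral_mul_const, integral_scaled ht, one_mul,
      integral_const_mul e (fun z => (t⁻¹ * ker ((a + y - z) / t)) * |b (z - a)|),
      integral_shift b a y t]
  rw [e1]
  apply integral_mono (i1.add i2) i3
  intro z
  show (t⁻¹ * ker ((a + y - z) / t)) * κ + e * ((t⁻¹ * ker ((a + y - z) / t)) * |b (z - a)|) ≤
    (t⁻¹ * ker ((a + y - z) / t)) * |f z|
  rw [abs_of_nonneg (hb0 _)]
  by_cases hz : a + y - 2 * t ≤ z
  · have h6 := mul_le_mul_of_nonneg_left (hle z hz) (scaled_nonneg ht (a + y) z)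
    linarith
  · push Not at hz
    have h7 : ker ((a + y - z) / t) = 0 := by
      apply ker_support
      have h8 : 2 < (a + y - z) / t := by
        rw [lt_div_iff₀ ht]
        linarith
      exact h8.trans_le (le_abs_self _)
    rw [h7]
    simp

/-- Lower bound at the centres, at an explicit scale. -/
lemma lower_bound_t {δ : ℝ} (hδ : 0 < δ) (P : Finset ℤ) {x : ℝ} {a b : ℤ} (ha : a ∈ P) (hb : b ∈ P)
    (hab : a < b) (hx : 2 * x = a + b) (hsmall : δ ≤ (b - a) / 2) {t : ℝ} (htd : t = (b - a) / 2) :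
    (δ / t) ^ (1 / 8 : ℝ) ≤ ∫ y, (t⁻¹ * ker ((x - y) / t)) * |comb P δ y| := by
  have habr : (a : ℝ) < b := by exact_mod_cast hab
  have ht : 0 < t := by rw [htd]; linarith
  have hρ : 0 < δ / t := div_pos hδ ht
  have hρ1 : δ / t ≤ 1 := by rw [div_le_one ht, htd]; exact hsmall
  rw [conv_formula ht hδ]
  have hterm : ∀ p ∈ P, 0 ≤ (J ((x - p) / t - 1) (δ / t) + J ((x - p) / t + 1) (δ / t)) :=
    fun p _ => add_nonneg (J_nonneg _ _) (J_nonneg _ _)
  have hsub : ({a, b} : Finset ℤ) ⊆ P := by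
    intro z hz
    rw [Finset.mem_insert, Finset.mem_singleton] at hz
    rcases hz with rfl | rfl <;> assumption
  refine le_trans ?_ (Finset.sum_le_sum_of_subset_of_nonneg hsub (fun p hp _ => hterm p hp))
  rw [Finset.sum_pair hab.ne]
  have ea : (x - a) / t - 1 = 0 := by
    have : x - a = t := by rw [htd]; linarith
    rw [this, div_self ht.ne', sub_self]
  have eb : (x - b) / t + 1 = 0 := by
    have : x - b = -t := by rw [htd]; linarith
    rw [this, neg_div, div_self ht.ne']; ring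
  rw [ea, eb, J_zero hρ hρ1]
  have h1 := J_nonneg ((x - a) / t + 1) (δ / t)
  have h2 := J_nonneg ((x - b) / t - 1) (δ / t)
  linarith

/-- Value at the centres, at an explicit scale. -/
lemma centre_value_t {n : ℕ} (hn : 1 ≤ n) {k : ℕ} (hk : k < (n ^ 2) ^ 2) :
    ∃ t : ℝ, 0 < t ∧ t ≤ 6 * (n : ℝ) ^ 4 ∧ 3 / 4 / (n : ℝ) ≤
      ∫ z, (t⁻¹ * ker ((5 * (n : ℝ) ^ 4 + k / 2 - z) / t)) * |B n z| := by
  set N : ℕ := n ^ 2 with hN
  have hNpos : 0 < N := by positivity
  have hnr : (1 : ℝ) ≤ n := by exact_mod_cast hn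
  have hn0 : (0 : ℝ) < n := by linarith
  have hNr : (N : ℝ) = (n : ℝ) ^ 2 := by rw [hN]; push_cast; ring
  set i : ℕ := k % N with hi
  set j : ℕ := k / N with hj
  have hiN : i < N := Nat.mod_lt _ hNpos
  have hjN : j < N := by
    rw [hj, Nat.div_lt_iff_lt_mul hNpos]
    calc k < N ^ 2 := hk
      _ = N * N := by ring
  have hkij : k = j * N + i := by rw [hi, hj]; exact (Nat.div_add_mod' k N).symm
  set a : ℤ := (i : ℤ) with ha
  set b : ℤ := (10 * N ^ 2 + j * N : ℤ) with hb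
  have haP : a ∈ pts N := by
    unfold pts
    rw [Finset.mem_union, Finset.mem_image]
    exact Or.inl ⟨i, Finset.mem_range.mpr hiN, rfl⟩
  have hbP : b ∈ pts N := by
    unfold pts
    rw [Finset.mem_union, Finset.mem_image, Finset.mem_image]
    exact Or.inr ⟨j, Finset.mem_range.mpr hjN, rfl⟩
  have har : (a : ℝ) = i := by rw [ha]; push_cast; rfl
  have hbr : (b : ℝ) = 10 * (n : ℝ) ^ 4 + j * (n : ℝ) ^ 2 := by
    rw [hb]; push_cast; rw [hNr]; ring
  have hir : (i : ℝ) + 1 ≤ (n : ℝ) ^ 2 := by rw [← hNr]; exact_mod_cast hiN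
  have hi0 : (0 : ℝ) ≤ i := Nat.cast_nonneg i
  have hjr : (j : ℝ) + 1 ≤ (n : ℝ) ^ 2 := by rw [← hNr]; exact_mod_cast hjN
  have hj0 : (0 : ℝ) ≤ j := Nat.cast_nonneg j
  have hn2 : (1 : ℝ) ≤ (n : ℝ) ^ 2 := by nlinarith
  have hn4 : (n : ℝ) ^ 4 = (n : ℝ) ^ 2 * (n : ℝ) ^ 2 := by ring
  have hn24 : (n : ℝ) ^ 2 ≤ (n : ℝ) ^ 4 := by rw [hn4]; nlinarith
  have hjn : (j : ℝ) * (n : ℝ) ^ 2 ≤ (n : ℝ) ^ 4 := by rw [hn4]; nlinarith
  have hjn0 : (0 : ℝ) ≤ (j : ℝ) * (n : ℝ) ^ 2 := by positivity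
  have hdiff1 : 9 * (n : ℝ) ^ 4 ≤ (b : ℝ) - a := by rw [har, hbr]; linarith
  have hdiff2 : (b : ℝ) - a ≤ 11 * (n : ℝ) ^ 4 := by rw [har, hbr]; linarith
  have hn4pos : 0 < (n : ℝ) ^ 4 := by positivity
  have hn4one : (1 : ℝ) ≤ (n : ℝ) ^ 4 := le_trans hn2 hn24
  have hab : a < b := by
    have : (a : ℝ) < b := by linarith
    exact_mod_cast this
  have hδ : 0 < 1 / (n : ℝ) ^ 4 := by positivity
  have hδ1 : 1 / (n : ℝ) ^ 4 ≤ 1 := by rw [div_le_one hn4pos]; exact hn4one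
  have hx : 2 * (5 * (n : ℝ) ^ 4 + (k : ℝ) / 2) = a + b := by
    rw [har, hbr, hkij]
    push_cast
    rw [hNr]
    ring
  have hlb := lower_bound_t hδ (pts N) haP hbP hab hx (by linarith) (t := ((b : ℝ) - a) / 2) rfl
  refine ⟨((b : ℝ) - a) / 2, by linarith, by linarith, ?_⟩
  refine le_trans ?_ hlb
  have hbase : 1 / (n : ℝ) ^ 4 / (((b : ℝ) - a) / 2) ≥ (3 / 4 / (n : ℝ)) ^ 8 := by
    have h1 : (3 / 4 / (n : ℝ)) ^ 8 = (3 / 4) ^ 8 / ((n : ℝ) ^ 4 * (n : ℝ) ^ 4) := by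
      rw [div_pow]; ring
    rw [h1, ge_iff_le, div_div]
    rw [div_le_div_iff₀ (by positivity) (by nlinarith)]
    have h2 : ((b : ℝ) - a) / 2 ≤ 6 * (n : ℝ) ^ 4 := by linarith
    have h3 : (3 / 4 : ℝ) ^ 8 ≤ 1 / 6 := by norm_num
    have h4 : (n : ℝ) ^ 4 * (((b : ℝ) - a) / 2) ≤ (n : ℝ) ^ 4 * (6 * (n : ℝ) ^ 4) :=
      mul_le_mul_of_nonneg_left h2 hn4pos.le
    have h5 : 0 ≤ (n : ℝ) ^ 4 * (((b : ℝ) - a) / 2) := by
      have : 0 ≤ ((b : ℝ) - a) / 2 := by linarith
      positivity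
    calc (3 / 4 : ℝ) ^ 8 * ((n : ℝ) ^ 4 * (((b : ℝ) - a) / 2))
        ≤ 1 / 6 * ((n : ℝ) ^ 4 * (((b : ℝ) - a) / 2)) := mul_le_mul_of_nonneg_right h3 h5
      _ ≤ 1 / 6 * ((n : ℝ) ^ 4 * (6 * (n : ℝ) ^ 4)) := mul_le_mul_of_nonneg_left h4 (by norm_num)
      _ = 1 * ((n : ℝ) ^ 4 * (n : ℝ) ^ 4) := by ring
  have hroot : ((3 / 4 / (n : ℝ)) ^ 8) ^ (1 / 8 : ℝ) = 3 / 4 / (n : ℝ) := by
    rw [← Real.rpow_natCast, ← Real.rpow_mul (by positivity)]
    norm_num
  rw [← hroot]
  exact Real.rpow_le_rpow (by positivity) hbase (by norm_num)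


/-! ### the parameters -/

/-- the orders of the blocks -/
def nn (j : ℕ) : ℕ := 256 ^ (2 ^ j)

lemma nn_succ (j : ℕ) : nn (j + 1) = nn j ^ 2 := by
  unfold nn
  rw [pow_succ, pow_mul]

lemma nn_ge (j : ℕ) : 256 * 4 ^ j ≤ nn j := by
  induction j with
  | zero => simp [nn]
  | succ j ih =>
    rw [nn_succ, sq]
    have h1 : 4 ≤ nn j := by
      have : 1 ≤ 4 ^ j := Nat.one_le_pow _ _ (by norm_num)
      omega
    calc 256 * 4 ^ (j + 1) = (256 * 4 ^ j) * 4 := by ring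
      _ ≤ nn j * nn j := Nat.mul_le_mul ih h1

lemma nn_256 (j : ℕ) : 256 ≤ nn j := by
  have h1 := nn_ge j
  have h2 : 1 ≤ 4 ^ j := Nat.one_le_pow _ _ (by norm_num)
  omega

lemma nn_mono : Monotone nn := by
  apply monotone_nat_of_le_succ
  intro j
  rw [nn_succ, sq]
  exact Nat.le_mul_self _

lemma nnR (j : ℕ) : (256 : ℝ) ≤ nn j := by exact_mod_cast nn_256 j

/-- the heights of the blocks -/
noncomputable def ep (η : ℝ) (j : ℕ) : ℝ := η * (1 / 2) ^ j / (nn j : ℝ) ^ 2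

variable {η : ℝ}

lemma ep_pos (hη : 0 < η) (j : ℕ) : 0 < ep η j := by
  unfold ep
  have := nnR j
  positivity

lemma ep_le (hη : 0 < η) (j : ℕ) : ep η j ≤ η / 2 * (1 / 2) ^ j := by
  unfold ep
  have h1 := nnR j
  have h2 : (2 : ℝ) ≤ (nn j : ℝ) ^ 2 := by nlinarith
  rw [div_le_iff₀ (by positivity)]
  have h3 : (0 : ℝ) < η / 2 * (1 / 2) ^ j := by positivity
  nlinarith

lemma ep_tail (hη : 0 < η) (i j : ℕ) :
    ep η (i + (j + 1)) ≤ ep η j / (nn j : ℝ) ^ 2 / 2 * (1 / 2) ^ i := by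
  unfold ep
  have h1 := nnR j
  have h2 : (nn j : ℝ) ^ 2 ≤ nn (i + (j + 1)) := by
    have h3 : nn (j + 1) ≤ nn (i + (j + 1)) := nn_mono (by omega)
    rw [nn_succ] at h3
    exact_mod_cast h3
  have h4 : ((nn j : ℝ) ^ 2) ^ 2 ≤ (nn (i + (j + 1)) : ℝ) ^ 2 :=
    pow_le_pow_left₀ (by positivity) h2 2
  have h5 : η * (1 / 2) ^ (i + (j + 1)) / (nn (i + (j + 1)) : ℝ) ^ 2
      ≤ η * (1 / 2) ^ (i + (j + 1)) / ((nn j : ℝ) ^ 2) ^ 2 :=
    div_le_div_of_nonneg_left (by positivity) (by positivity) h4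
  refine h5.trans (le_of_eq ?_)
  have h6 : (nn j : ℝ) ≠ 0 := by positivity
  rw [pow_add, pow_succ]
  field_simp

lemma summable_half (c : ℝ) : Summable (fun i : ℕ => c * (1 / 2 : ℝ) ^ i) :=
  summable_geometric_two.mul_left c

lemma tsum_half (c : ℝ) : ∑' i : ℕ, c * (1 / 2 : ℝ) ^ i = c * 2 := by
  rw [tsum_mul_left, tsum_geometric_two]

lemma summable_ep (hη : 0 < η) : Summable (ep η) :=
  Summable.of_nonneg_of_le (fun j => (ep_pos hη j).le) (ep_le hη) (summable_half _)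

lemma tsum_ep_le (hη : 0 < η) : ∑' j, ep η j ≤ η := by
  calc ∑' j, ep η j ≤ ∑' j, η / 2 * (1 / 2 : ℝ) ^ j :=
        (summable_ep hη).tsum_le_tsum (ep_le hη) (summable_half _)
    _ = η := by rw [tsum_half]; ring

/-- the separation factors -/
noncomputable def KK (η C : ℝ) (j : ℕ) : ℝ := 32 * (C + 1) * nn j / ep η j

/-- bounds for the supports of the earlier blocks -/
noncomputable def RR (η C : ℝ) (ρ : ℕ → ℝ) : ℕ → ℝ
  | 0 => max 1 (ρ 0)
  | j + 1 => max (RR η C ρ j * (1 + 2 * KK η C j ^ 8) + 12 * (nn j : ℝ) ^ 4) (ρ (j + 1))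

/-- the positions of the blocks -/
noncomputable def aa (η C : ℝ) (ρ : ℕ → ℝ) (j : ℕ) : ℝ := RR η C ρ j * (1 + 2 * KK η C j ^ 8)

variable {C : ℝ} {ρ : ℕ → ℝ}

lemma RR_succ_ge (j : ℕ) : aa η C ρ j + 12 * (nn j : ℝ) ^ 4 ≤ RR η C ρ (j + 1) := le_max_left _ _

lemma rho_le (j : ℕ) : ρ j ≤ RR η C ρ j := by
  cases j with
  | zero => exact le_max_right _ _
  | succ j => exact le_max_right _ _

lemma RR_one_le (j : ℕ) : 1 ≤ RR η C ρ j := by
  induction j with
  | zero => exact le_max_left _ _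
  | succ j ih =>
    refine le_trans ?_ (RR_succ_ge j)
    unfold aa
    have h1 : (0 : ℝ) ≤ KK η C j ^ 8 := by positivity
    have h2 : (0 : ℝ) ≤ (nn j : ℝ) ^ 4 := by positivity
    nlinarith

lemma RR_le_aa (j : ℕ) : RR η C ρ j ≤ aa η C ρ j := by
  unfold aa
  have h1 : (0 : ℝ) ≤ KK η C j ^ 8 := by positivity
  have h2 := RR_one_le (η := η) (C := C) (ρ := ρ) j
  nlinarith

lemma RR_mono : Monotone (RR η C ρ) := by
  apply monotone_nat_of_le_succ
  intro j
  refine le_trans ?_ (RR_succ_ge j)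
  have h1 := RR_le_aa (η := η) (C := C) (ρ := ρ) j
  have h2 : (0 : ℝ) ≤ (nn j : ℝ) ^ 4 := by positivity
  linarith

lemma ep_le_one (hη : 0 < η) (hη1 : η ≤ 1) (j : ℕ) : ep η j ≤ 1 := by
  have h1 := ep_le hη j
  have h2 : (1 / 2 : ℝ) ^ j ≤ 1 := pow_le_one₀ (by norm_num) (by norm_num)
  nlinarith

lemma KK_ge (hη : 0 < η) (hη1 : η ≤ 1) (hC : 0 ≤ C) (j : ℕ) : 32 * (nn j : ℝ) ≤ KK η C j := by
  unfold KK
  rw [le_div_iff₀ (ep_pos hη j)]
  have h1 := ep_le_one hη hη1 j
  have h3 := nnR j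
  have h4 : ep η j ≤ C + 1 := by linarith
  calc 32 * (nn j : ℝ) * ep η j ≤ 32 * (nn j : ℝ) * (C + 1) :=
        mul_le_mul_of_nonneg_left h4 (by positivity)
    _ = 32 * (C + 1) * nn j := by ring

lemma KK_one (hη : 0 < η) (hη1 : η ≤ 1) (hC : 0 ≤ C) (j : ℕ) : 1 ≤ KK η C j := by
  have h1 := KK_ge hη hη1 hC j
  have h3 := nnR j
  linarith

lemma aa_far (hη : 0 < η) (hη1 : η ≤ 1) (hC : 0 ≤ C) (j : ℕ) :
    RR η C ρ j + 7 * (nn j : ℝ) ^ 4 ≤ aa η C ρ j := by
  unfold aa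
  have h0 := RR_one_le (η := η) (C := C) (ρ := ρ) j
  have h1 := KK_ge hη hη1 hC j
  have h1' := KK_one hη hη1 hC j
  have h3 := nnR j
  have h4 : (32 * (nn j : ℝ)) ^ 4 ≤ KK η C j ^ 4 := pow_le_pow_left₀ (by positivity) h1 4
  have h5 : KK η C j ^ 4 ≤ KK η C j ^ 8 := pow_le_pow_right₀ h1' (by norm_num)
  have h6 : (32 * (nn j : ℝ)) ^ 4 = 1048576 * (nn j : ℝ) ^ 4 := by ring
  have h7 : (0 : ℝ) ≤ (nn j : ℝ) ^ 4 := by positivity
  have h8 : (0 : ℝ) ≤ KK η C j ^ 8 := by positivity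
  nlinarith

/-! ### the function -/

/-- the blocks -/
noncomputable def gg (η C : ℝ) (ρ : ℕ → ℝ) (j : ℕ) (z : ℝ) : ℝ :=
  ep η j * B (nn j) (z - aa η C ρ j)

/-- the perturbation -/
noncomputable def ff (η C : ℝ) (ρ : ℕ → ℝ) (z : ℝ) : ℝ := ∑' j, gg η C ρ j z

lemma gg_nonneg (hη : 0 < η) (j : ℕ) (z : ℝ) : 0 ≤ gg η C ρ j z :=
  mul_nonneg (ep_pos hη j).le (B_nonneg _ _)

lemma gg_le (hη : 0 < η) (j : ℕ) (z : ℝ) : gg η C ρ j z ≤ ep η j := by
  unfold gg
  have h1 := B_le_one (n := nn j) (by have := nn_256 j; omega) (z - aa η C ρ j)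
  have h2 := (ep_pos hη j).le
  nlinarith

lemma summable_gg (hη : 0 < η) (z : ℝ) : Summable (fun j => gg η C ρ j z) :=
  Summable.of_nonneg_of_le (fun j => gg_nonneg hη j z) (fun j => gg_le hη j z) (summable_ep hη)

lemma ff_nonneg (hη : 0 < η) (z : ℝ) : 0 ≤ ff η C ρ z := tsum_nonneg (fun j => gg_nonneg hη j z)

lemma gg_le_ff (hη : 0 < η) (j : ℕ) (z : ℝ) : gg η C ρ j z ≤ ff η C ρ z :=
  (summable_gg hη z).le_tsum j (fun i _ => gg_nonneg hη i z)

lemma ff_le (hη : 0 < η) (z : ℝ) : ff η C ρ z ≤ η :=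
  ((summable_gg hη z).tsum_le_tsum (fun j => gg_le hη j z) (summable_ep hη)).trans (tsum_ep_le hη)

lemma measurable_gg (η C : ℝ) (ρ : ℕ → ℝ) (j : ℕ) : Measurable (gg η C ρ j) :=
  ((measurable_B (nn j)).comp (measurable_id.sub_const (aa η C ρ j))).const_mul _

lemma measurable_ff (hη : 0 < η) : Measurable (ff η C ρ) := by
  apply measurable_of_tendsto_metrizable
    (f := fun (N : ℕ) (z : ℝ) => ∑ i ∈ Finset.range N, gg η C ρ i z)
  · intro N
    exact Finset.measurable_fun_sum _ (fun i _ => measurable_gg η C ρ i)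
  · rw [tendsto_pi_nhds]
    intro z
    exact (summable_gg hη z).hasSum.tendsto_sum_nat

lemma early (hη : 0 < η) {i j : ℕ} (hij : i < j) (z : ℝ) :
    gg η C ρ i z ≤ ep η i * (Icc (-RR η C ρ j) (RR η C ρ j)).indicator (fun _ => 1) z := by
  have hi1 : 1 ≤ nn i := by have := nn_256 i; omega
  by_cases hB : B (nn i) (z - aa η C ρ i) = 0
  · unfold gg
    rw [hB, mul_zero]
    exact mul_nonneg (ep_pos hη i).le (indicator_nonneg (fun _ _ => zero_le_one) _)
  · obtain ⟨h1, h2⟩ := B_support hi1 hB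
    have h3 := RR_le_aa (η := η) (C := C) (ρ := ρ) i
    have h4 := RR_one_le (η := η) (C := C) (ρ := ρ) i
    have h5 : RR η C ρ (i + 1) ≤ RR η C ρ j := RR_mono (by omega)
    have h5' := RR_succ_ge (η := η) (C := C) (ρ := ρ) i
    have h6 := RR_one_le (η := η) (C := C) (ρ := ρ) j
    rw [indicator_of_mem (show z ∈ Icc (-RR η C ρ j) (RR η C ρ j) from
      ⟨by linarith, by linarith⟩), mul_one]
    exact gg_le hη i z

lemma split (hη : 0 < η) (hη1 : η ≤ 1) (j : ℕ) (z : ℝ) :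
    ff η C ρ z ≤ (Icc (-RR η C ρ j) (RR η C ρ j)).indicator (fun _ => 1) z +
      ep η j * B (nn j) (z - aa η C ρ j) + ep η j / (nn j : ℝ) ^ 2 := by
  have hs := summable_gg (C := C) (ρ := ρ) hη z
  have h1 := hs.sum_add_tsum_nat_add (j + 1)
  unfold ff
  rw [← h1, Finset.sum_range_succ]
  have hI : (0 : ℝ) ≤ (Icc (-RR η C ρ j) (RR η C ρ j)).indicator (fun _ => 1) z :=
    indicator_nonneg (fun _ _ => zero_le_one) _
  have h2 : ∑ i ∈ Finset.range j, gg η C ρ i z ≤
      (Icc (-RR η C ρ j) (RR η C ρ j)).indicator (fun _ => 1) z := by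
    calc ∑ i ∈ Finset.range j, gg η C ρ i z
        ≤ ∑ i ∈ Finset.range j, ep η i * (Icc (-RR η C ρ j) (RR η C ρ j)).indicator (fun _ => 1) z :=
          Finset.sum_le_sum (fun i hi => early hη (Finset.mem_range.1 hi) z)
      _ = (∑ i ∈ Finset.range j, ep η i) *
            (Icc (-RR η C ρ j) (RR η C ρ j)).indicator (fun _ => 1) z := by
          rw [Finset.sum_mul]
      _ ≤ 1 * (Icc (-RR η C ρ j) (RR η C ρ j)).indicator (fun _ => 1) z := by
          apply mul_le_mul_of_nonneg_right _ hI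
          exact ((summable_ep hη).sum_le_tsum _ (fun i _ => (ep_pos hη i).le)).trans
            ((tsum_ep_le hη).trans hη1)
      _ = _ := one_mul _
  have h3 : ∑' i, gg η C ρ (i + (j + 1)) z ≤ ep η j / (nn j : ℝ) ^ 2 := by
    have hb : ∀ i : ℕ, gg η C ρ (i + (j + 1)) z ≤ ep η j / (nn j : ℝ) ^ 2 / 2 * (1 / 2 : ℝ) ^ i :=
      fun i => (gg_le hη (i + (j + 1)) z).trans (ep_tail hη i j)
    have hs2 : Summable (fun i : ℕ => gg η C ρ (i + (j + 1)) z) :=
      Summable.of_nonneg_of_le (fun i => gg_nonneg hη (i + (j + 1)) z) hb (summable_half _)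
    refine (hs2.tsum_le_tsum hb (summable_half _)).trans (le_of_eq ?_)
    rw [tsum_half]
    ring
  have h4 : gg η C ρ j z = ep η j * B (nn j) (z - aa η C ρ j) := rfl
  linarith

/-- What is needed about the function that is perturbed. -/
structure Base (η C : ℝ) (ρ : ℕ → ℝ) (f0 : ℝ → ℝ) (c s : ℝ) : Prop where
  meas : Measurable f0
  bdd : ∀ z, |f0 z| ≤ C
  c0 : 0 ≤ c
  sgn : s = 1 ∨ s = -1
  right : ∀ j z, ρ j ≤ z → |f0 z - s * c| ≤ ep η j / (64 * nn j)
  left : ∀ j z, z ≤ -ρ j → |f0 z| ≤ c + ep η j / (64 * nn j)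

variable {f0 : ℝ → ℝ} {c s : ℝ}

lemma Base.C0 (h : Base η C ρ f0 c s) : 0 ≤ C := (abs_nonneg _).trans (h.bdd 0)

lemma Base.abs_s (h : Base η C ρ f0 c s) : |s| = 1 := by
  rcases h.sgn with h | h <;> rw [h] <;> norm_num

lemma Base.sq_s (h : Base η C ρ f0 c s) : s * s = 1 := by
  rcases h.sgn with h | h <;> rw [h] <;> norm_num

/-- the perturbed function -/
noncomputable def FF (η C : ℝ) (ρ : ℕ → ℝ) (f0 : ℝ → ℝ) (s z : ℝ) : ℝ := f0 z + s * ff η C ρ z

lemma Base.upper (h : Base η C ρ f0 c s) (hη : 0 < η) (hη1 : η ≤ 1) (j : ℕ) (z : ℝ) :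
    |FF η C ρ f0 s z| ≤ (C + 1) * (Icc (-RR η C ρ j) (RR η C ρ j)).indicator (fun _ => 1) z +
      ep η j * B (nn j) (z - aa η C ρ j) + (c + ep η j / (64 * nn j) + ep η j / (nn j : ℝ) ^ 2) := by
  have h1 : |FF η C ρ f0 s z| ≤ |f0 z| + ff η C ρ z := by
    unfold FF
    refine (abs_add_le _ _).trans ?_
    rw [abs_mul, h.abs_s, one_mul, abs_of_nonneg (ff_nonneg hη z)]
  have h2 := split (C := C) (ρ := ρ) hη hη1 j z
  have h3 := ep_pos hη j
  have h4 := nnR j
  have h5 : 0 ≤ ep η j / (64 * nn j) := by positivity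
  have h6 := h.c0
  by_cases hz : z ∈ Icc (-RR η C ρ j) (RR η C ρ j)
  · rw [indicator_of_mem hz] at h2 ⊢
    have h7 := h.bdd z
    linarith
  · rw [indicator_of_notMem hz] at h2 ⊢
    have h8 : |f0 z| ≤ c + ep η j / (64 * nn j) := by
      rcases lt_or_ge z (-RR η C ρ j) with h9 | h9
      · have h10 := rho_le (η := η) (C := C) (ρ := ρ) j
        exact h.left j z (by linarith)
      · have h11 : RR η C ρ j < z := by
          by_contra hcon
          push Not at hcon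
          exact hz ⟨h9, hcon⟩
        have h10 := rho_le (η := η) (C := C) (ρ := ρ) j
        have h12 := h.right j z (by linarith)
        calc |f0 z| = |(f0 z - s * c) + s * c| := by ring_nf
          _ ≤ |f0 z - s * c| + |s * c| := abs_add_le _ _
          _ = |f0 z - s * c| + c := by rw [abs_mul, h.abs_s, one_mul, abs_of_nonneg h.c0]
          _ ≤ _ := by linarith
    linarith

lemma Base.lower (h : Base η C ρ f0 c s) (hη : 0 < η) (j : ℕ) {z : ℝ} (hz : RR η C ρ j ≤ z) :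
    (c - ep η j / (64 * nn j)) + ep η j * B (nn j) (z - aa η C ρ j) ≤ |FF η C ρ f0 s z| := by
  have h1 := h.right j z ((rho_le (η := η) (C := C) (ρ := ρ) j).trans hz)
  have h2 : s * FF η C ρ f0 s z = s * (f0 z - s * c) + c + ff η C ρ z := by
    unfold FF
    have h3 := h.sq_s
    have h4 : s * (f0 z + s * ff η C ρ z) = s * f0 z + (s * s) * ff η C ρ z := by ring
    have h5 : s * (f0 z - s * c) = s * f0 z - (s * s) * c := by ring
    rw [h4, h5, h3]
    ring
  have h3 : -(ep η j / (64 * nn j)) ≤ s * (f0 z - s * c) := by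
    have h4 : |s * (f0 z - s * c)| ≤ ep η j / (64 * nn j) := by
      rw [abs_mul, h.abs_s, one_mul]
      exact h1
    exact (abs_le.1 h4).1
  have h5 : s * FF η C ρ f0 s z ≤ |FF η C ρ f0 s z| := by
    calc s * FF η C ρ f0 s z ≤ |s * FF η C ρ f0 s z| := le_abs_self _
      _ = |FF η C ρ f0 s z| := by rw [abs_mul, h.abs_s, one_mul]
  have h6 : ep η j * B (nn j) (z - aa η C ρ j) ≤ ff η C ρ z := gg_le_ff hη j z
  linarith

lemma Base.meas_FF (h : Base η C ρ f0 c s) (hη : 0 < η) : Measurable (FF η C ρ f0 s) :=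
  h.meas.add ((measurable_ff hη).const_mul s)

lemma Base.bdd_FF (h : Base η C ρ f0 c s) (hη : 0 < η) (hη1 : η ≤ 1) (z : ℝ) :
    |FF η C ρ f0 s z| ≤ C + 1 := by
  unfold FF
  refine (abs_add_le _ _).trans ?_
  rw [abs_mul, h.abs_s, one_mul, abs_of_nonneg (ff_nonneg hη z)]
  have h1 := h.bdd z
  have h2 := ff_le (C := C) (ρ := ρ) hη z
  linarith

/-! ### lower bound for the variation of the maximal function -/

lemma Base.gap (h : Base η C ρ f0 c s) (hη : 0 < η) (hη1 : η ≤ 1) (j : ℕ) {k l : ℕ}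
    (hk : k < (nn j ^ 2) ^ 2) (hl : l < (nn j ^ 2) ^ 2) :
    ep η j / (16 * nn j) ≤
      maxConv ker (FF η C ρ f0 s) (aa η C ρ j + (5 * (nn j : ℝ) ^ 4 + k / 2)) -
      maxConv ker (FF η C ρ f0 s) (aa η C ρ j + (5 * (nn j : ℝ) ^ 4 + l / 2 + 1 / 4)) := by
  have hn := nn_256 j
  have hnr := nnR j
  have hn0 : (0 : ℝ) < nn j := by linarith
  have he := ep_pos hη j
  obtain ⟨t, ht, ht6, hc⟩ := centre_value_t (n := nn j) (by omega) hk
  have hfar := aa_far (ρ := ρ) hη hη1 h.C0 j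
  have hlow := le_maxConv (f := FF η C ρ f0 s) (b := B (nn j)) (a := aa η C ρ j) (e := ep η j)
    (y := 5 * (nn j : ℝ) ^ 4 + k / 2) (A := C + 1) (κ := c - ep η j / (64 * nn j)) ht
    (h.meas_FF hη) (h.bdd_FF hη hη1) (measurable_B _) (B_nonneg _) (B_le_one (by omega))
    (fun z hz => h.lower hη j (by
      have : (0 : ℝ) ≤ (k : ℝ) / 2 := by positivity
      linarith))
  have hR := RR_one_le (η := η) (C := C) (ρ := ρ) j
  have hupp := maxConv_le (f := FF η C ρ f0 s) (b := B (nn j)) (a := aa η C ρ j) (e := ep η j)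
    (R := RR η C ρ j) (K := KK η C j)
    (τ := c + ep η j / (64 * nn j) + ep η j / (nn j : ℝ) ^ 2)
    (y := 5 * (nn j : ℝ) ^ 4 + l / 2 + 1 / 4) (A := C + 1)
    he.le (by have := h.C0; linarith) (measurable_B _) (B_nonneg _) (B_le_one (by omega))
    (by linarith) (KK_one hη hη1 h.C0 j) (by
      have h1 : aa η C ρ j = RR η C ρ j * (1 + 2 * KK η C j ^ 8) := rfl
      have h2 : (0 : ℝ) ≤ 5 * (nn j : ℝ) ^ 4 + l / 2 + 1 / 4 := by positivity
      rw [h1]
      linarith) (h.upper hη hη1 j)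
  have ho := off_value (n := nn j) (by omega) hl
  change maxConv ker (B (nn j)) (5 * (nn j : ℝ) ^ 4 + l / 2 + 1 / 4) ≤ _ at ho
  have h1 := mul_le_mul_of_nonneg_left hc he.le
  have h2 := mul_le_mul_of_nonneg_left ho he.le
  have h3 : (C + 1) * (1 / KK η C j) = ep η j / (32 * nn j) := by
    unfold KK
    have hC1 : C + 1 ≠ 0 := by have := h.C0; positivity
    rw [one_div_div]
    field_simp
  have h4 : 28 / (nn j : ℝ) ^ 2 ≤ 28 / 256 / nn j := by
    rw [div_div, div_le_div_iff₀ (by positivity) (by positivity)]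
    nlinarith
  have h5 : 1 / (nn j : ℝ) ^ 2 ≤ 1 / 256 / nn j := by
    rw [div_div, div_le_div_iff₀ (by positivity) (by positivity)]
    nlinarith
  have h6 : ep η j / (nn j : ℝ) ^ 2 ≤ ep η j * (1 / 256 / nn j) := by
    rw [div_eq_mul_one_div]
    exact mul_le_mul_of_nonneg_left h5 he.le
  have h7 := mul_le_mul_of_nonneg_left h4 he.le
  have e1 : ep η j / (16 * nn j) = ep η j / nn j * (1 / 16) := by field_simp
  have e2 : ep η j * (3 / 4 / (nn j : ℝ)) = ep η j / nn j * (3 / 4) := by field_simp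
  have e3 : ep η j * (1 / 2 / (nn j : ℝ) + 28 / (nn j : ℝ) ^ 2) =
      ep η j / nn j * (1 / 2) + ep η j * (28 / (nn j : ℝ) ^ 2) := by ring
  have e4 : ep η j / (32 * nn j) = ep η j / nn j * (1 / 32) := by field_simp
  have e5 : ep η j * (1 / 256 / (nn j : ℝ)) = ep η j / nn j * (1 / 256) := by field_simp
  have e6 : ep η j * (28 / 256 / (nn j : ℝ)) = ep η j / nn j * (28 / 256) := by field_simp
  have e8 : ep η j / (64 * nn j) = ep η j / nn j * (1 / 64) := by field_simp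
  have e7 : 0 < ep η j / nn j := by positivity
  rw [e1]
  rw [e2] at h1
  rw [e3] at h2
  rw [h3, e4, e8] at hupp
  rw [e8] at hlow
  rw [e5] at h6
  rw [e6] at h7
  linarith

lemma Base.var_lower (h : Base η C ρ f0 c s) (hη : 0 < η) (hη1 : η ≤ 1) (j : ℕ) :
    ENNReal.ofReal (η * 2 ^ j) ≤ eVariationOn (maxConv ker (FF η C ρ f0 s)) univ := by
  set g := maxConv ker (FF η C ρ f0 s) with hg
  have hnr := nnR j
  have hn := nn_256 j
  have hn0 : (0 : ℝ) < nn j := by linarith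
  set m : ℕ := (nn j ^ 2) ^ 2 with hm
  have hm1 : 1 ≤ m := by rw [hm]; exact Nat.one_le_pow _ _ (by positivity)
  set u : ℕ → ℝ := fun i => aa η C ρ j + (5 * (nn j : ℝ) ^ 4 + (i : ℝ) / 4) with hu
  have hmono : Monotone u := by
    intro i i' hij
    have h1 : (i : ℝ) ≤ i' := by exact_mod_cast hij
    show aa η C ρ j + (5 * (nn j : ℝ) ^ 4 + (i : ℝ) / 4) ≤
      aa η C ρ j + (5 * (nn j : ℝ) ^ 4 + (i' : ℝ) / 4)
    linarith
  have hsum := eVariationOn.sum_le (f := g) (s := univ) (n := m) hmono (fun i => mem_univ _)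
  refine le_trans ?_ hsum
  have hterm : ∀ i ∈ Finset.range m, ENNReal.ofReal (ep η j / (16 * nn j)) ≤
      edist (g (u (i + 1))) (g (u i)) := by
    intro i hi
    rw [Finset.mem_range] at hi
    rw [edist_dist, Real.dist_eq]
    apply ENNReal.ofReal_le_ofReal
    rcases Nat.even_or_odd' i with ⟨k, hk | hk⟩
    · have e1 : u i = aa η C ρ j + (5 * (nn j : ℝ) ^ 4 + k / 2) := by
        show aa η C ρ j + (5 * (nn j : ℝ) ^ 4 + (i : ℝ) / 4) = _
        rw [hk]; push_cast; ring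
      have e2 : u (i + 1) = aa η C ρ j + (5 * (nn j : ℝ) ^ 4 + k / 2 + 1 / 4) := by
        show aa η C ρ j + (5 * (nn j : ℝ) ^ 4 + ((i + 1 : ℕ) : ℝ) / 4) = _
        rw [hk]; push_cast; ring
      rw [e1, e2, abs_sub_comm]
      exact le_trans (h.gap hη hη1 j (k := k) (l := k) (by omega) (by omega)) (le_abs_self _)
    · have e1 : u i = aa η C ρ j + (5 * (nn j : ℝ) ^ 4 + k / 2 + 1 / 4) := by
        show aa η C ρ j + (5 * (nn j : ℝ) ^ 4 + (i : ℝ) / 4) = _
        rw [hk]; push_cast; ring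
      have e2 : u (i + 1) = aa η C ρ j + (5 * (nn j : ℝ) ^ 4 + ((k + 1 : ℕ) : ℝ) / 2) := by
        show aa η C ρ j + (5 * (nn j : ℝ) ^ 4 + ((i + 1 : ℕ) : ℝ) / 4) = _
        rw [hk]; push_cast; ring
      rw [e1, e2]
      exact le_trans (h.gap hη hη1 j (k := k + 1) (l := k) (by omega) (by omega)) (le_abs_self _)
  calc ENNReal.ofReal (η * 2 ^ j)
      ≤ ENNReal.ofReal ((m : ℝ) * (ep η j / (16 * nn j))) := by
        apply ENNReal.ofReal_le_ofReal
        have h1 : (m : ℝ) * (ep η j / (16 * nn j)) = η * (1 / 2) ^ j * (nn j / 16) := by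
          rw [hm]
          unfold ep
          push_cast
          field_simp
        rw [h1]
        have h2 : (256 : ℝ) * 4 ^ j ≤ nn j := by exact_mod_cast nn_ge j
        have h3 : (1 / 2 : ℝ) ^ j * 4 ^ j = 2 ^ j := by
          rw [← mul_pow]; norm_num
        have h4 : (0 : ℝ) < (1 / 2 : ℝ) ^ j := by positivity
        have h5 : (1 / 2 : ℝ) ^ j * (256 * 4 ^ j) ≤ (1 / 2 : ℝ) ^ j * nn j :=
          mul_le_mul_of_nonneg_left h2 h4.le
        have h6 : (1 / 2 : ℝ) ^ j * (256 * 4 ^ j) = 256 * 2 ^ j := by rw [← h3]; ring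
        have h7 : (0 : ℝ) < 2 ^ j := by positivity
        calc η * 2 ^ j ≤ η * ((1 / 2 : ℝ) ^ j * nn j / 16) := by
              apply mul_le_mul_of_nonneg_left _ hη.le
              linarith
          _ = η * (1 / 2) ^ j * (nn j / 16) := by ring
    _ = (m : ENNReal) * ENNReal.ofReal (ep η j / (16 * nn j)) := by
        have h8 : (m : ENNReal) = ENNReal.ofReal ((m : ℝ)) := (ENNReal.ofReal_natCast m).symm
        rw [h8, ← ENNReal.ofReal_mul (by positivity)]
    _ = ∑ i ∈ Finset.range m, ENNReal.ofReal (ep η j / (16 * nn j)) := by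
        rw [Finset.sum_const, Finset.card_range, nsmul_eq_mul]
    _ ≤ _ := Finset.sum_le_sum hterm

lemma Base.var_top (h : Base η C ρ f0 c s) (hη : 0 < η) (hη1 : η ≤ 1) :
    eVariationOn (maxConv ker (FF η C ρ f0 s)) univ = ⊤ := by
  by_contra hcon
  set V := eVariationOn (maxConv ker (FF η C ρ f0 s)) univ with hV
  obtain ⟨j, hj⟩ := pow_unbounded_of_one_lt (V.toReal / η) (by norm_num : (1 : ℝ) < 2)
  have h1 := h.var_lower hη hη1 j
  rw [← hV, ← ENNReal.ofReal_toReal hcon] at h1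
  have h2 : η * 2 ^ j ≤ V.toReal := (ENNReal.ofReal_le_ofReal_iff ENNReal.toReal_nonneg).1 h1
  rw [div_lt_iff₀ hη] at hj
  linarith

/-! ### upper bound for the variation of the perturbation -/

lemma B_var (n : ℕ) (hn : 1 ≤ n) {u : ℕ → ℝ} (hu : Monotone u) (N : ℕ) :
    ∑ i ∈ Finset.range N, |B n (u (i + 1)) - B n (u i)| ≤ 4 * (n : ℝ) ^ 2 := by
  have hδ : (0 : ℝ) < 1 / (n : ℝ) ^ 4 := by
    have : (0 : ℝ) < n := by exact_mod_cast hn
    positivity
  have h1 := (eVariationOn.sum_le (f := B n) (s := univ) (n := N) hu (fun i => mem_univ _)).trans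
    (comb_var (pts (n ^ 2)) hδ)
  have h2 : ∀ i, edist (B n (u (i + 1))) (B n (u i)) =
      ENNReal.ofReal |B n (u (i + 1)) - B n (u i)| := by
    intro i
    rw [edist_dist, Real.dist_eq]
  simp_rw [h2] at h1
  rw [← ENNReal.ofReal_sum_of_nonneg (fun i _ => abs_nonneg _),
    ENNReal.ofReal_le_ofReal_iff (by positivity)] at h1
  have h3 : ((pts (n ^ 2)).card : ℝ) ≤ 2 * (n : ℝ) ^ 2 := by
    have := pts_card (n ^ 2)
    exact_mod_cast this
  linarith

lemma ff_var (hη : 0 < η) : eVariationOn (ff η C ρ) univ ≤ ENNReal.ofReal (8 * η) := by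
  unfold eVariationOn
  apply iSup_le
  rintro ⟨N, u, hu, _⟩
  show ∑ i ∈ Finset.range N, edist (ff η C ρ (u (i + 1))) (ff η C ρ (u i)) ≤ _
  have e : ∀ i, edist (ff η C ρ (u (i + 1))) (ff η C ρ (u i)) =
      ENNReal.ofReal |ff η C ρ (u (i + 1)) - ff η C ρ (u i)| := by
    intro i
    rw [edist_dist, Real.dist_eq]
  simp_rw [e]
  rw [← ENNReal.ofReal_sum_of_nonneg (fun i _ => abs_nonneg _)]
  apply ENNReal.ofReal_le_ofReal
  have hsd : ∀ x y : ℝ, Summable (fun j => |gg η C ρ j x - gg η C ρ j y|) := by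
    intro x y
    refine Summable.of_nonneg_of_le (fun j => abs_nonneg _) (fun j => ?_)
      ((summable_gg (C := C) (ρ := ρ) hη x).add (summable_gg (C := C) (ρ := ρ) hη y))
    rw [abs_le]
    have h1 := gg_nonneg (C := C) (ρ := ρ) hη j x
    have h2 := gg_nonneg (C := C) (ρ := ρ) hη j y
    constructor <;> linarith
  have hstep : ∀ x y : ℝ, |ff η C ρ x - ff η C ρ y| ≤ ∑' j, |gg η C ρ j x - gg η C ρ j y| := by
    intro x y
    unfold ff
    rw [← (summable_gg hη x).tsum_sub (summable_gg hη y)]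
    have h1 := norm_tsum_le_tsum_norm (f := fun j => gg η C ρ j x - gg η C ρ j y) (by
      simpa only [Real.norm_eq_abs] using hsd x y)
    simpa only [Real.norm_eq_abs] using h1
  calc ∑ i ∈ Finset.range N, |ff η C ρ (u (i + 1)) - ff η C ρ (u i)|
      ≤ ∑ i ∈ Finset.range N, ∑' j, |gg η C ρ j (u (i + 1)) - gg η C ρ j (u i)| :=
        Finset.sum_le_sum (fun i _ => hstep _ _)
    _ = ∑' j, ∑ i ∈ Finset.range N, |gg η C ρ j (u (i + 1)) - gg η C ρ j (u i)| :=
        (Summable.tsum_finsetSum (fun i _ => hsd _ _)).symm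
    _ ≤ ∑' j : ℕ, 4 * η * (1 / 2 : ℝ) ^ j := by
        apply Summable.tsum_le_tsum _ (summable_sum (fun i _ => hsd _ _)) (summable_half _)
        intro j
        have hn := nn_256 j
        have hnr := nnR j
        have h1 := B_var (nn j) (by omega) (u := fun i => u i - aa η C ρ j)
          (fun i i' h => by
            show u i - aa η C ρ j ≤ u i' - aa η C ρ j
            linarith [hu h]) N
        calc ∑ i ∈ Finset.range N, |gg η C ρ j (u (i + 1)) - gg η C ρ j (u i)|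
            = ep η j * ∑ i ∈ Finset.range N, |B (nn j) (u (i + 1) - aa η C ρ j) -
                B (nn j) (u i - aa η C ρ j)| := by
              rw [Finset.mul_sum]
              apply Finset.sum_congr rfl
              intro i _
              unfold gg
              rw [← mul_sub, abs_mul, abs_of_nonneg (ep_pos hη j).le]
          _ ≤ ep η j * (4 * (nn j : ℝ) ^ 2) := mul_le_mul_of_nonneg_left h1 (ep_pos hη j).le
          _ = 4 * η * (1 / 2) ^ j := by
              unfold ep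
              field_simp
    _ = 8 * η := by rw [tsum_half]; ring

/-! ### functions of bounded variation -/

lemma exists_limits {f : ℝ → ℝ} (hf : eVariationOn f univ ≠ ⊤) :
    Measurable f ∧ (∃ C : ℝ, ∀ z, |f z| ≤ C) ∧ (∃ a : ℝ, Tendsto f atTop (𝓝 a)) ∧
      ∃ b : ℝ, Tendsto f atBot (𝓝 b) := by
  have hbv : BoundedVariationOn f univ := hf
  have hloc : LocallyBoundedVariationOn f univ := hbv.locallyBoundedVariationOn
  set V : ℝ := (eVariationOn f univ).toReal with hV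
  set p : ℝ → ℝ := variationOnFromTo f univ 0 with hp
  have hpm : Monotone p := by
    rw [← monotoneOn_univ]
    exact variationOnFromTo.monotoneOn hloc (mem_univ _)
  have hqm : Monotone (p - f) := by
    rw [← monotoneOn_univ]
    exact variationOnFromTo.sub_self_monotoneOn hloc (mem_univ _)
  have hpb : ∀ z, |p z| ≤ V := by
    intro z
    have h1 : ∀ s : Set ℝ, (eVariationOn f (univ ∩ s)).toReal ≤ V := fun s =>
      ENNReal.toReal_mono hf (eVariationOn.mono f inter_subset_left)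
    have hV0 : 0 ≤ V := ENNReal.toReal_nonneg
    rw [hp]
    unfold variationOnFromTo
    split_ifs
    · rw [abs_of_nonneg ENNReal.toReal_nonneg]
      exact h1 _
    · rw [abs_neg, abs_of_nonneg ENNReal.toReal_nonneg]
      exact h1 _
  have hfb : ∀ z, |f z| ≤ |f 0| + V := by
    intro z
    have h1 := hbv.dist_le (mem_univ z) (mem_univ 0)
    rw [Real.dist_eq] at h1
    calc |f z| = |(f z - f 0) + f 0| := by ring_nf
      _ ≤ |f z - f 0| + |f 0| := abs_add_le _ _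
      _ ≤ _ := by linarith
  have hqb : ∀ z, |(p - f) z| ≤ V + (|f 0| + V) := by
    intro z
    rw [Pi.sub_apply]
    calc |p z - f z| ≤ |p z| + |f z| := abs_sub _ _
      _ ≤ _ := add_le_add (hpb z) (hfb z)
  have hsub : f = fun z => p z - (p - f) z := by
    funext z
    rw [Pi.sub_apply]
    ring
  have bA : ∀ {g : ℝ → ℝ} {K : ℝ}, (∀ z, |g z| ≤ K) → BddAbove (range g) := by
    intro g K h
    exact ⟨K, by rintro _ ⟨z, rfl⟩; exact (abs_le.1 (h z)).2⟩
  have bB : ∀ {g : ℝ → ℝ} {K : ℝ}, (∀ z, |g z| ≤ K) → BddBelow (range g) := by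
    intro g K h
    exact ⟨-K, by rintro _ ⟨z, rfl⟩; exact (abs_le.1 (h z)).1⟩
  refine ⟨?_, ⟨_, hfb⟩, ?_, ?_⟩
  · rw [hsub]
    exact hpm.measurable.sub hqm.measurable
  · refine ⟨(⨆ z, p z) - ⨆ z, (p - f) z, ?_⟩
    exact ((tendsto_atTop_ciSup hpm (bA hpb)).sub (tendsto_atTop_ciSup hqm (bA hqb))).congr
      (fun z => (congrFun hsub z).symm)
  · refine ⟨(⨅ z, p z) - ⨅ z, (p - f) z, ?_⟩
    exact ((tendsto_atBot_ciInf hpm (bB hpb)).sub (tendsto_atBot_ciInf hqm (bB hqb))).congr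
      (fun z => (congrFun hsub z).symm)

lemma var_smul_le {s : ℝ} (hs : |s| = 1) (f : ℝ → ℝ) :
    eVariationOn (fun z => s * f z) univ ≤ eVariationOn f univ := by
  unfold eVariationOn
  apply iSup_le
  intro p
  refine le_trans (le_of_eq ?_) (le_iSup (fun p : ℕ × { u : ℕ → ℝ // Monotone u ∧ ∀ i, u i ∈ (univ : Set ℝ) } =>
    ∑ i ∈ Finset.range p.1, edist (f (p.2.1 (i + 1))) (f (p.2.1 i))) p)
  apply Finset.sum_congr rfl
  intro i _
  rw [edist_dist, edist_dist, Real.dist_eq, Real.dist_eq, ← mul_sub, abs_mul, hs, one_mul]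

lemma right_case {f0 : ℝ → ℝ} (hf : eVariationOn f0 univ ≠ ⊤) {a b : ℝ}
    (ha : Tendsto f0 atTop (𝓝 a)) (hb : Tendsto f0 atBot (𝓝 b)) (hab : |b| ≤ |a|) {η : ℝ}
    (hη : 0 < η) (hη1 : η ≤ 1) :
    ∃ h : ℝ → ℝ, (∀ z, |h z| ≤ η) ∧ eVariationOn h univ ≤ ENNReal.ofReal (8 * η) ∧
      eVariationOn (maxConv ker (fun z => f0 z + h z)) univ = ⊤ := by
  obtain ⟨hm, ⟨C, hC⟩, -, -⟩ := exists_limits hf
  obtain ⟨c, hc⟩ : ∃ c : ℝ, c = |a| := ⟨_, rfl⟩
  obtain ⟨s, hs, hsa⟩ : ∃ s : ℝ, (s = 1 ∨ s = -1) ∧ s * c = a := by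
    rcases le_or_gt 0 a with h | h
    · exact ⟨1, Or.inl rfl, by rw [hc, abs_of_nonneg h, one_mul]⟩
    · exact ⟨-1, Or.inr rfl, by rw [hc, abs_of_neg h]; ring⟩
  have hex : ∀ j : ℕ, ∃ r : ℝ, (∀ z, r ≤ z → |f0 z - s * c| ≤ ep η j / (64 * nn j)) ∧
      ∀ z, z ≤ -r → |f0 z| ≤ c + ep η j / (64 * nn j) := by
    intro j
    have h1 := ep_pos hη j
    have h2 := nnR j
    have h3 : 0 < ep η j / (64 * nn j) := by positivity
    obtain ⟨r1, hr1⟩ := Filter.eventually_atTop.1 (Metric.tendsto_nhds.1 ha _ h3)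
    obtain ⟨r2, hr2⟩ := Filter.eventually_atBot.1 (Metric.tendsto_nhds.1 hb _ h3)
    refine ⟨max r1 (-r2), fun z hz => ?_, fun z hz => ?_⟩
    · rw [hsa, ← Real.dist_eq]
      exact (hr1 z ((le_max_left _ _).trans hz)).le
    · have h4 := hr2 z (by have := le_max_right r1 (-r2); linarith)
      rw [Real.dist_eq] at h4
      rw [hc]
      calc |f0 z| = |(f0 z - b) + b| := by ring_nf
        _ ≤ |f0 z - b| + |b| := abs_add_le _ _
        _ ≤ _ := by linarith
  choose ρ hρ1 hρ2 using hex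
  have hbase : Base η C ρ f0 c s := ⟨hm, hC, by rw [hc]; exact abs_nonneg _, hs, hρ1, hρ2⟩
  refine ⟨fun z => s * ff η C ρ z, fun z => ?_, ?_, hbase.var_top hη hη1⟩
  · rw [abs_mul, hbase.abs_s, one_mul, abs_of_nonneg (ff_nonneg hη z)]
    exact ff_le hη z
  · exact (var_smul_le hbase.abs_s _).trans (ff_var hη)

lemma maxConv_neg (F : ℝ → ℝ) (x : ℝ) : maxConv ker (fun z => F (-z)) x = maxConv ker F (-x) := by
  unfold maxConv
  congr 1
  funext t
  rw [← integral_neg_eq_self (fun y => ((t : ℝ)⁻¹ * ker ((-x - y) / (t : ℝ))) * |F y|) volume]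
  congr 1
  funext y
  have h1 : (x - y) / (t : ℝ) = -((-x - -y) / (t : ℝ)) := by ring
  rw [h1, ker_even]

lemma var_neg_le (F : ℝ → ℝ) : eVariationOn (fun z => F (-z)) univ ≤ eVariationOn F univ :=
  eVariationOn.comp_le_of_antitoneOn F (fun z => -z) (fun _ _ _ _ h => neg_le_neg h)
    (fun _ _ => mem_univ _)

/-- **Density.** Every function of bounded variation has an arbitrarily small perturbation whose
maximal function is not of bounded variation. -/
theorem dense_top {f : ℝ → ℝ} (hf : eVariationOn f univ ≠ ⊤) {η : ℝ} (hη : 0 < η) :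
    ∃ h : ℝ → ℝ, (∀ z, |h z| ≤ η) ∧ eVariationOn h univ ≤ ENNReal.ofReal η ∧
      eVariationOn (maxConv ker (fun z => f z + h z)) univ = ⊤ := by
  set η' : ℝ := min (η / 8) 1 with hη'
  have h1 : 0 < η' := lt_min (by positivity) one_pos
  have h2 : η' ≤ 1 := min_le_right _ _
  have h3 : 8 * η' ≤ η := by have := min_le_left (η / 8) 1; linarith
  obtain ⟨-, -, ⟨a, ha⟩, ⟨b, hb⟩⟩ := exists_limits hf
  rcases le_total |b| |a| with hab | hab
  · obtain ⟨h, e1, e2, e3⟩ := right_case hf ha hb hab h1 h2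
    exact ⟨h, fun z => (e1 z).trans (by linarith), e2.trans (ENNReal.ofReal_le_ofReal h3), e3⟩
  · have hf' : eVariationOn (fun z => f (-z)) univ ≠ ⊤ := ne_top_of_le_ne_top hf (var_neg_le f)
    obtain ⟨h, e1, e2, e3⟩ := right_case (f0 := fun z => f (-z)) hf'
      (hb.comp tendsto_neg_atTop_atBot) (ha.comp tendsto_neg_atBot_atTop) hab h1 h2
    refine ⟨fun z => h (-z), fun z => (e1 (-z)).trans (by linarith),
      ((var_neg_le h).trans e2).trans (ENNReal.ofReal_le_ofReal h3), ?_⟩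
    rw [eq_top_iff, ← e3]
    have h4 : maxConv ker (fun z => f (-z) + h z) =
        fun x => maxConv ker (fun z => f z + h (-z)) (-x) := by
      funext x
      rw [← maxConv_neg (fun z => f z + h (-z)) x]
      simp only [neg_neg]
    rw [h4]
    exact var_neg_le _

/-- A nonnegative example. -/
theorem nonneg_top {η : ℝ} (hη : 0 < η) :
    ∃ f : ℝ → ℝ, (∀ z, 0 ≤ f z ∧ f z ≤ η) ∧ eVariationOn f univ ≤ ENNReal.ofReal η ∧
      eVariationOn (maxConv ker f) univ = ⊤ := by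
  set η' : ℝ := min (η / 8) 1 with hη'
  have h1 : 0 < η' := lt_min (by positivity) one_pos
  have h2 : η' ≤ 1 := min_le_right _ _
  have h3 : 8 * η' ≤ η := by have := min_le_left (η / 8) 1; linarith
  have hbase : Base η' 0 (fun _ => 0) (fun _ => 0) 0 1 := by
    refine ⟨measurable_const, fun z => by simp, le_rfl, Or.inl rfl, fun j z _ => ?_, fun j z _ => ?_⟩
    · have h4 := ep_pos h1 j
      have h5 := nnR j
      have h6 : 0 ≤ ep η' j / (64 * nn j) := by positivity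
      simpa using h6
    · have h4 := ep_pos h1 j
      have h5 := nnR j
      have h6 : 0 ≤ ep η' j / (64 * nn j) := by positivity
      simpa using h6
  refine ⟨ff η' 0 (fun _ => 0), fun z => ⟨ff_nonneg h1 z, (ff_le h1 z).trans (by linarith)⟩,
    (ff_var h1).trans (ENNReal.ofReal_le_ofReal h3), ?_⟩
  have h7 := hbase.var_top h1 h2
  have h8 : FF η' 0 (fun _ => 0) (fun _ => 0) 1 = ff η' 0 (fun _ => 0) := by
    funext z
    unfold FF
    ring
  rwa [h8] at h7

/-! ### openness -/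

lemma maxConv_lip {f g : ℝ → ℝ} (hf : Measurable f) (hg : Measurable g) {A : ℝ}
    (hfA : ∀ z, |f z| ≤ A) (hgA : ∀ z, |g z| ≤ A) {δ : ℝ} (hfg : ∀ z, |g z - f z| ≤ δ) (x : ℝ) :
    maxConv ker f x ≤ maxConv ker g x + δ := by
  have : Nonempty {t : ℝ // 0 < t} := ⟨⟨1, one_pos⟩⟩
  apply ciSup_le
  rintro ⟨t, ht⟩
  show ∫ z, (t⁻¹ * ker ((x - z) / t)) * |f z| ≤ _
  have hk := integrable_scaled ht x
  have hi : ∀ {u : ℝ → ℝ}, Measurable u → (∀ z, |u z| ≤ A) →
      Integrable (fun z => (t⁻¹ * ker ((x - z) / t)) * |u z|) := by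
    intro u hu huA
    apply hk.mul_bdd (c := A) (measurable_norm.comp hu).aestronglyMeasurable
    exact Eventually.of_forall (fun z => by
      rw [Function.comp_apply, Real.norm_eq_abs, Real.norm_eq_abs, abs_abs]
      exact huA z)
  have h1 : ∫ z, (t⁻¹ * ker ((x - z) / t)) * |f z| ≤
      ∫ z, ((t⁻¹ * ker ((x - z) / t)) * |g z| + (t⁻¹ * ker ((x - z) / t)) * δ) := by
    apply integral_mono (hi hf hfA) ((hi hg hgA).add (hk.mul_const δ))
    intro z
    show (t⁻¹ * ker ((x - z) / t)) * |f z| ≤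
      (t⁻¹ * ker ((x - z) / t)) * |g z| + (t⁻¹ * ker ((x - z) / t)) * δ
    have h2 : |f z| ≤ |g z| + δ := by
      calc |f z| = |g z - (g z - f z)| := by ring_nf
        _ ≤ |g z| + |g z - f z| := abs_sub _ _
        _ ≤ _ := by linarith [hfg z]
    have h3 := mul_le_mul_of_nonneg_left h2 (scaled_nonneg ht x z)
    linarith
  rw [integral_add (hi hg hgA) (hk.mul_const δ), integral_mul_const, integral_scaled ht,
    one_mul] at h1
  have h4 := le_ciSup (maxConv_bddAbove ker_nonneg integrable_ker integral_ker (f := g)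
    (B := A) hgA x) ⟨t, ht⟩
  have h5 : ∫ z, (t⁻¹ * ker ((x - z) / t)) * |g z| ≤ maxConv ker g x := h4
  linarith

/-- **Openness.** A lower bound for the variation of the maximal function persists under uniformly
small perturbations. -/
theorem open_lt {f : ℝ → ℝ} (hf : eVariationOn f univ ≠ ⊤) {m : ENNReal}
    (hm : m < eVariationOn (maxConv ker f) univ) :
    ∃ δ : ℝ, 0 < δ ∧ ∀ g : ℝ → ℝ, eVariationOn g univ ≠ ⊤ → (∀ z, |g z - f z| ≤ δ) →
      m < eVariationOn (maxConv ker g) univ := by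
  unfold eVariationOn at hm
  obtain ⟨⟨N, u, hu, hu2⟩, hlt⟩ := lt_iSup_iff.1 hm
  obtain ⟨r, hr, hr2⟩ := ENNReal.lt_iff_exists_add_pos_lt.1 hlt
  have hrR : (0 : ℝ) < r := by exact_mod_cast hr
  refine ⟨(r : ℝ) / (2 * N + 1), by positivity, ?_⟩
  intro g hg hfg
  set δ : ℝ := (r : ℝ) / (2 * N + 1) with hδ
  obtain ⟨hfm, ⟨A, hA⟩, -, -⟩ := exists_limits hf
  obtain ⟨hgm, ⟨A', hA'⟩, -, -⟩ := exists_limits hg
  have hfA : ∀ z, |f z| ≤ max A A' := fun z => (hA z).trans (le_max_left _ _)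
  have hgA : ∀ z, |g z| ≤ max A A' := fun z => (hA' z).trans (le_max_right _ _)
  have l1 : ∀ x, maxConv ker f x ≤ maxConv ker g x + δ := fun x =>
    maxConv_lip hfm hgm hfA hgA hfg x
  have l2 : ∀ x, maxConv ker g x ≤ maxConv ker f x + δ := fun x =>
    maxConv_lip hgm hfm hgA hfA (fun z => by rw [abs_sub_comm]; exact hfg z) x
  by_contra hcon
  push Not at hcon
  have hsum := (eVariationOn.sum_le (f := maxConv ker g) (s := univ) (n := N) hu
    (fun i => mem_univ _)).trans hcon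
  have hterm : ∀ i, edist (maxConv ker f (u (i + 1))) (maxConv ker f (u i)) ≤
      edist (maxConv ker g (u (i + 1))) (maxConv ker g (u i)) + ENNReal.ofReal (2 * δ) := by
    intro i
    rw [edist_dist, edist_dist, Real.dist_eq, Real.dist_eq,
      ← ENNReal.ofReal_add (abs_nonneg _) (by positivity)]
    apply ENNReal.ofReal_le_ofReal
    rw [abs_le]
    have a1 := l1 (u (i + 1))
    have a2 := l1 (u i)
    have a3 := l2 (u (i + 1))
    have a4 := l2 (u i)
    have a5 := neg_abs_le (maxConv ker g (u (i + 1)) - maxConv ker g (u i))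
    have a6 := le_abs_self (maxConv ker g (u (i + 1)) - maxConv ker g (u i))
    constructor <;> linarith
  have htot : ∑ i ∈ Finset.range N, edist (maxConv ker f (u (i + 1))) (maxConv ker f (u i)) ≤
      m + r := by
    calc ∑ i ∈ Finset.range N, edist (maxConv ker f (u (i + 1))) (maxConv ker f (u i))
        ≤ ∑ i ∈ Finset.range N, (edist (maxConv ker g (u (i + 1))) (maxConv ker g (u i)) +
            ENNReal.ofReal (2 * δ)) := Finset.sum_le_sum (fun i _ => hterm i)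
      _ = ∑ i ∈ Finset.range N, edist (maxConv ker g (u (i + 1))) (maxConv ker g (u i)) +
            (N : ENNReal) * ENNReal.ofReal (2 * δ) := by
          rw [Finset.sum_add_distrib, Finset.sum_const, Finset.card_range, nsmul_eq_mul]
      _ ≤ m + r := by
          apply add_le_add hsum
          rw [← ENNReal.ofReal_natCast, ← ENNReal.ofReal_mul (by positivity),
            ← ENNReal.ofReal_coe_nnreal]
          apply ENNReal.ofReal_le_ofReal
          rw [hδ]
          have hN : (0 : ℝ) ≤ N := Nat.cast_nonneg N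
          rw [mul_div_assoc', mul_div_assoc', div_le_iff₀ (by positivity)]
          nlinarith
  exact absurd htot (not_le.2 hr2)

end Pool.Agent.Y274.MXC
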