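import Pool.Agent.Y8.Stm2

set_option autoImplicit false

/-! Persistence of a fast mean velocity (job 70, for helper8). -/

open MeasureTheory Set Filter Topology

namespace Pool.Agent.Y274.PERS

open H459R3.NS

/-- crossing lemma -/
theorem cross {a b : ℝ} {G : Set ℝ} {M : ℝ → V} {h : ℝ → ℝ}
    (hint : IntegrableOn h (Ioo a b))
    (hM : ∀ s ∈ Ioo a b ∩ G, ∀ t ∈ Ioo a b ∩ G, s ≤ t → ‖M t - M s‖ ≤ ∫ τ in Ioo s t, h τ)
    {A : ℝ} {τ t₂ : ℝ} (hτ : τ ∈ Ioo a b ∩ G) (ht₂ : t₂ ∈ Ioo a b ∩ G) (h1 : A ≤ ‖M τ‖)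
    (h2 : ‖M t₂‖ < A / 2) :
    ∃ p q, p ≤ q ∧ Ioo p q ⊆ Ioo a b ∧ (∀ t ∈ Ioo p q ∩ G, ‖M t‖ < A) ∧
      A / 2 ≤ ∫ τ in Ioo p q, h τ := by
  rcases le_total τ t₂ with hle | hle
  · set D : Set ℝ := {t | t ∈ Icc τ t₂ ∧ t ∈ G ∧ A ≤ ‖M t‖} with hD
    have hne : D.Nonempty := ⟨τ, ⟨le_rfl, hle⟩, hτ.2, h1⟩
    have hbd : BddAbove D := ⟨t₂, fun t ht => ht.1.2⟩
    obtain ⟨u, _, hu, huD⟩ := exists_seq_tendsto_sSup hne hbd
    have hp1 : τ ≤ sSup D := le_csSup hbd ⟨⟨le_rfl, hle⟩, hτ.2, h1⟩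
    have hp2 : sSup D ≤ t₂ := csSup_le hne fun t ht => ht.1.2
    refine ⟨sSup D, t₂, hp2, ?_, ?_, ?_⟩
    · intro t ht
      exact ⟨hτ.1.1.trans_le (hp1.trans ht.1.le), ht.2.trans ht₂.1.2⟩
    · rintro t ⟨ht, htG⟩
      by_contra hcon
      push Not at hcon
      have : t ∈ D := ⟨⟨hp1.trans ht.1.le, ht.2.le⟩, htG, hcon⟩
      exact absurd (le_csSup hbd this) (not_le.mpr ht.1)
    · have hsub : uIcc τ t₂ ⊆ Ioo a b := by
        rw [uIcc_of_le hle]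
        intro t ht
        exact ⟨hτ.1.1.trans_le ht.1, ht.2.trans_lt ht₂.1.2⟩
      have hc := intervalIntegral.continuousOn_primitive_interval_left (hint.mono_set hsub)
      rw [uIcc_of_le hle] at hc
      have hc1 : Tendsto (fun n => ∫ t in (u n)..t₂, h t) atTop (𝓝 (∫ t in (sSup D)..t₂, h t)) := by
        have h3 : Tendsto u atTop (𝓝[Icc τ t₂] (sSup D)) :=
          tendsto_nhdsWithin_iff.mpr ⟨hu, Eventually.of_forall fun n => (huD n).1⟩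
        exact (hc (sSup D) ⟨hp1, hp2⟩).tendsto.comp h3
      have h3 : ∀ n, A / 2 ≤ ∫ t in (u n)..t₂, h t := by
        intro n
        have hun := huD n
        have h4 := hM (u n) ⟨hsub (by rw [uIcc_of_le hle]; exact hun.1), hun.2.1⟩ t₂ ht₂ hun.1.2
        rw [intervalIntegral.integral_of_le hun.1.2, integral_Ioc_eq_integral_Ioo]
        have h5 : ‖M (u n)‖ - ‖M t₂‖ ≤ ‖M t₂ - M (u n)‖ := by
          rw [norm_sub_rev]; exact norm_sub_norm_le _ _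
        linarith [hun.2.2]
      have h4 := ge_of_tendsto' hc1 h3
      rwa [intervalIntegral.integral_of_le hp2, integral_Ioc_eq_integral_Ioo] at h4
  · set D : Set ℝ := {t | t ∈ Icc t₂ τ ∧ t ∈ G ∧ A ≤ ‖M t‖} with hD
    have hne : D.Nonempty := ⟨τ, ⟨hle, le_rfl⟩, hτ.2, h1⟩
    have hbd : BddBelow D := ⟨t₂, fun t ht => ht.1.1⟩
    obtain ⟨u, _, hu, huD⟩ := exists_seq_tendsto_sInf hne hbd
    have hp1 : sInf D ≤ τ := csInf_le hbd ⟨⟨hle, le_rfl⟩, hτ.2, h1⟩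
    have hp2 : t₂ ≤ sInf D := le_csInf hne fun t ht => ht.1.1
    refine ⟨t₂, sInf D, hp2, ?_, ?_, ?_⟩
    · intro t ht
      exact ⟨ht₂.1.1.trans ht.1, ht.2.trans_le (hp1.trans hτ.1.2.le)⟩
    · rintro t ⟨ht, htG⟩
      by_contra hcon
      push Not at hcon
      have : t ∈ D := ⟨⟨ht.1.le, ht.2.le.trans hp1⟩, htG, hcon⟩
      exact absurd (csInf_le hbd this) (not_le.mpr ht.2)
    · have hsub : uIcc t₂ τ ⊆ Ioo a b := by
        rw [uIcc_of_le hle]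
        intro t ht
        exact ⟨ht₂.1.1.trans_le ht.1, ht.2.trans_lt hτ.1.2⟩
      have hc := intervalIntegral.continuousOn_primitive_interval (hint.mono_set hsub)
      rw [uIcc_of_le hle] at hc
      have hc1 : Tendsto (fun n => ∫ t in t₂..(u n), h t) atTop (𝓝 (∫ t in t₂..(sInf D), h t)) := by
        have h3 : Tendsto u atTop (𝓝[Icc t₂ τ] (sInf D)) :=
          tendsto_nhdsWithin_iff.mpr ⟨hu, Eventually.of_forall fun n => (huD n).1⟩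
        exact (hc (sInf D) ⟨hp2, hp1⟩).tendsto.comp h3
      have h3 : ∀ n, A / 2 ≤ ∫ t in t₂..(u n), h t := by
        intro n
        have hun := huD n
        have h4 := hM t₂ ht₂ (u n) ⟨hsub (by rw [uIcc_of_le hle]; exact hun.1), hun.2.1⟩ hun.1.1
        rw [intervalIntegral.integral_of_le hun.1.1, integral_Ioc_eq_integral_Ioo]
        have h5 : ‖M (u n)‖ - ‖M t₂‖ ≤ ‖M (u n) - M t₂‖ := norm_sub_norm_le _ _
        linarith [hun.2.2]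
      have h4 := ge_of_tendsto' hc1 h3
      rwa [intervalIntegral.integral_of_le hp2, integral_Ioc_eq_integral_Ioo] at h4

/-- AM-GM for a square root -/
theorem sqrt_le_amgm (y l : ℝ) (hy : 0 ≤ y) (hl : 0 < l) : Real.sqrt y ≤ y / l + l / 4 := by
  have h1 := Real.sq_sqrt hy
  have h2 : 0 ≤ (Real.sqrt y - l / 2) ^ 2 := sq_nonneg _
  rw [← sub_le_iff_le_add, le_div_iff₀ hl]
  nlinarith

/-- the pointwise majorant -/
theorem pt_bound {ρ ε r U B R n₁ n₂ f cn : ℝ} (hρ : 0 < ρ) (hε : 0 < ε) (hr : 0 < r)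
    (hU : 0 < U) (hB : 0 ≤ B) (hR : 0 < R) (hn₂ : 0 ≤ n₂) (hcn0 : 0 ≤ cn)
    (hcn : cn ≤ U + ρ * B + ρ * Real.sqrt (n₂ * r)) :
    n₁ + n₂ + cn * Real.sqrt (n₂ / r) + Real.sqrt n₂ / Real.sqrt (r ^ 3) + f + cn ^ 2 / R + B ≤
      n₁ + f + ((1 + ρ) + (U + ρ * B) * r / ε + 1 / ε + 3 * ρ ^ 2 * r / R) * n₂ +
        ((U + ρ * B) * ε / (4 * r ^ 2) + ε / (4 * r ^ 3) + 3 * (U ^ 2 + ρ ^ 2 * B ^ 2) / R + B) := by
  obtain ⟨X, hX⟩ : ∃ X, X = U + ρ * B := ⟨_, rfl⟩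
  have hX0 : 0 < X := by rw [hX]; positivity
  rw [← hX] at hcn ⊢
  obtain ⟨s, hs⟩ : ∃ s, s = Real.sqrt (n₂ * r) := ⟨_, rfl⟩
  have hs0 : 0 ≤ s := by rw [hs]; exact Real.sqrt_nonneg _
  have hs2 : s ^ 2 = n₂ * r := by rw [hs]; exact Real.sq_sqrt (by positivity)
  rw [← hs] at hcn
  have hs1 : s * Real.sqrt (n₂ / r) = n₂ := by
    rw [hs, ← Real.sqrt_mul (by positivity)]
    have : n₂ * r * (n₂ / r) = n₂ ^ 2 := by field_simp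
    rw [this, Real.sqrt_sq hn₂]
  have hq1 : Real.sqrt (n₂ / r) ≤ r * n₂ / ε + ε / (4 * r ^ 2) := by
    refine (sqrt_le_amgm (n₂ / r) (ε / r ^ 2) (by positivity) (by positivity)).trans
      (le_of_eq ?_)
    field_simp
  have hq2 : Real.sqrt n₂ / Real.sqrt (r ^ 3) ≤ n₂ / ε + ε / (4 * r ^ 3) := by
    rw [← Real.sqrt_div hn₂]
    refine (sqrt_le_amgm (n₂ / r ^ 3) (ε / r ^ 3) (by positivity) (by positivity)).trans
      (le_of_eq ?_)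
    field_simp
  have hq3 : cn * Real.sqrt (n₂ / r) ≤ X * (r * n₂ / ε + ε / (4 * r ^ 2)) + ρ * n₂ := by
    calc cn * Real.sqrt (n₂ / r) ≤ (X + ρ * s) * Real.sqrt (n₂ / r) :=
          mul_le_mul_of_nonneg_right hcn (Real.sqrt_nonneg _)
      _ = X * Real.sqrt (n₂ / r) + ρ * n₂ := by rw [add_mul, mul_assoc, hs1]
      _ ≤ _ := by
        have := mul_le_mul_of_nonneg_left hq1 hX0.le
        linarith
  have hq4 : cn ^ 2 / R ≤ 3 * (U ^ 2 + ρ ^ 2 * B ^ 2) / R + 3 * ρ ^ 2 * r / R * n₂ := by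
    have h1 : cn ^ 2 ≤ 3 * (U ^ 2 + ρ ^ 2 * B ^ 2) + 3 * ρ ^ 2 * (n₂ * r) := by
      rw [← hs2]
      have h2 : cn ^ 2 ≤ (X + ρ * s) ^ 2 := pow_le_pow_left₀ hcn0 hcn 2
      rw [hX] at h2
      nlinarith [sq_nonneg (U - ρ * B), sq_nonneg (U - ρ * s), sq_nonneg (ρ * B - ρ * s)]
    calc cn ^ 2 / R ≤ (3 * (U ^ 2 + ρ ^ 2 * B ^ 2) + 3 * ρ ^ 2 * (n₂ * r)) / R :=
          div_le_div_of_nonneg_right h1 hR.le
      _ = _ := by ring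
  have e : n₁ + f + ((1 + ρ) + X * r / ε + 1 / ε + 3 * ρ ^ 2 * r / R) * n₂ +
        (X * ε / (4 * r ^ 2) + ε / (4 * r ^ 3) + 3 * (U ^ 2 + ρ ^ 2 * B ^ 2) / R + B) =
      n₁ + n₂ + (X * (r * n₂ / ε + ε / (4 * r ^ 2)) + ρ * n₂) + (n₂ / ε + ε / (4 * r ^ 3)) + f +
        (3 * (U ^ 2 + ρ ^ 2 * B ^ 2) / R + 3 * ρ ^ 2 * r / R * n₂) + B := by
    ring
  rw [e]
  linarith

/-- the choice of constants -/
theorem const_bound {ρ ε r U B R K : ℝ} (hρ : 1 ≤ ρ) (hε : 0 < ε) (hερ : ε * ρ ^ 2 = 1 / 40)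
    (hr : 0 < r) (hr1 : r ≤ 1) (hUr : 1 ≤ U * r) (hB : 0 ≤ B) (hBr : B * r ≤ ε ^ 2 / 2)
    (hK : K = 75 * ρ ^ 3) (hR : K * U * r ^ 2 ≤ R) {I₁ I₂ I₃ : ℝ}
    (hI₁ : I₁ ≤ ε ^ 2 / 2 * U) (hI₃ : I₃ ≤ ε ^ 2 / 2 * U) (hI₂ : I₂ ≤ ε ^ 2 / 2 / r) :
    ρ * (I₁ + I₃ + ((1 + ρ) + (U + ρ * B) * r / ε + 1 / ε + 3 * ρ ^ 2 * r / R) * I₂ + 2 * r ^ 2 *
      ((U + ρ * B) * ε / (4 * r ^ 2) + ε / (4 * r ^ 3) + 3 * (U ^ 2 + ρ ^ 2 * B ^ 2) / R + B)) <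
        U / 2 := by
  have hρ0 : 0 < ρ := by linarith
  have hε1 : ε ≤ 1 / 40 := by
    have : ε ≤ ε * ρ ^ 2 := le_mul_of_one_le_right hε.le (one_le_pow₀ hρ)
    linarith
  have hε2 : ε ^ 2 ≤ ε / 40 := by nlinarith
  have hU0 : 0 < U := by
    by_contra hcon
    push Not at hcon
    have : U * r ≤ 0 := mul_nonpos_of_nonpos_of_nonneg hcon hr.le
    linarith
  have hU1 : 1 ≤ U := by
    calc (1 : ℝ) ≤ U * r := hUr
      _ ≤ U * 1 := by gcongr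
      _ = U := mul_one U
  have hrU : 1 / r ≤ U := by rw [div_le_iff₀ hr]; exact hUr
  have hK0 : 0 < K := by rw [hK]; positivity
  have hR0 : 0 < R := lt_of_lt_of_le (by positivity) hR
  have hRU : r ^ 2 / R ≤ 1 / (K * U) := by
    rw [div_le_div_iff₀ hR0 (by positivity)]
    linarith
  have hRr : 1 / R ≤ U / K := by
    rw [div_le_div_iff₀ hR0 hK0]
    have h0 : K * U * r ^ 2 * U ≤ R * U := mul_le_mul_of_nonneg_right hR hU0.le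
    have h1 : 1 ≤ (U * r) ^ 2 := one_le_pow₀ hUr
    have h2 : K * 1 ≤ K * (U * r) ^ 2 := mul_le_mul_of_nonneg_left h1 hK0.le
    nlinarith
  have hBU : B ≤ ε ^ 2 / 2 * U := by
    have h1 : B = B * r * (1 / r) := by field_simp
    rw [h1]
    exact mul_le_mul hBr hrU (by positivity) (by positivity)
  have hBU1 : B ≤ U := hBU.trans (by nlinarith)
  obtain ⟨X, hX⟩ : ∃ X, X = U + ρ * B := ⟨_, rfl⟩
  have hX0 : 0 < X := by rw [hX]; positivity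
  have hXU : X ≤ (1 + ρ) * U := by
    rw [hX]
    have := mul_le_mul_of_nonneg_left hBU1 hρ0.le
    linarith
  rw [← hX]
  have hα0 : 0 ≤ (1 + ρ) + X * r / ε + 1 / ε + 3 * ρ ^ 2 * r / R := by positivity
  have hεr : ε / r ≤ ε * U := by
    rw [div_eq_mul_one_div]
    exact mul_le_mul_of_nonneg_left hrU hε.le
  -- the terms
  have a : ((1 + ρ) + X * r / ε + 1 / ε + 3 * ρ ^ 2 * r / R) * I₂ ≤
      (1 + ρ) * (ε * U) + X * ε / 2 + ε * U / 2 + 3 * ρ ^ 2 * (U / K) := by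
    calc _ ≤ ((1 + ρ) + X * r / ε + 1 / ε + 3 * ρ ^ 2 * r / R) * (ε ^ 2 / 2 / r) :=
          mul_le_mul_of_nonneg_left hI₂ hα0
      _ = (1 + ρ) * (ε / 2 * (ε / r)) + X * ε / 2 + ε / r / 2 + 3 * ρ ^ 2 * (ε ^ 2 / 2 * (1 / R)) := by
          field_simp
      _ ≤ (1 + ρ) * (1 * (ε * U)) + X * ε / 2 + ε * U / 2 + 3 * ρ ^ 2 * (1 * (U / K)) := by
          have h1 : ε / 2 ≤ 1 := by linarith
          have h2 : ε ^ 2 / 2 ≤ 1 := by linarith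
          have h3 : 0 ≤ 1 / R := by positivity
          gcongr
      _ = _ := by ring
  have b : 2 * r ^ 2 * (X * ε / (4 * r ^ 2) + ε / (4 * r ^ 3) + 3 * (U ^ 2 + ρ ^ 2 * B ^ 2) / R + B) ≤
      X * ε / 2 + ε * U / 2 + 6 * ((1 + ρ ^ 2) * U) / K + 2 * (ε * U) := by
    have b1 : r ^ 2 * B ≤ ε * U := by
      calc r ^ 2 * B = r * (B * r) := by ring
        _ ≤ 1 * (ε ^ 2 / 2) := mul_le_mul hr1 hBr (by positivity) (by norm_num)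
        _ ≤ ε * 1 := by linarith
        _ ≤ ε * U := by gcongr
    have b2 : (U ^ 2 + ρ ^ 2 * B ^ 2) * (r ^ 2 / R) ≤ (1 + ρ ^ 2) * U / K := by
      calc (U ^ 2 + ρ ^ 2 * B ^ 2) * (r ^ 2 / R)
          ≤ (U ^ 2 + ρ ^ 2 * U ^ 2) * (1 / (K * U)) := by gcongr
        _ = _ := by field_simp
    calc 2 * r ^ 2 * (X * ε / (4 * r ^ 2) + ε / (4 * r ^ 3) + 3 * (U ^ 2 + ρ ^ 2 * B ^ 2) / R + B)
        = X * ε / 2 + ε / r / 2 + 6 * ((U ^ 2 + ρ ^ 2 * B ^ 2) * (r ^ 2 / R)) + 2 * (r ^ 2 * B) := by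
          field_simp
          ring
      _ ≤ X * ε / 2 + ε * U / 2 + 6 * ((1 + ρ ^ 2) * U / K) + 2 * (ε * U) := by gcongr
      _ = _ := by ring
  have hXε : X * ε ≤ (1 + ρ) * U * ε := mul_le_mul_of_nonneg_right hXU hε.le
  have hI : ε ^ 2 / 2 * U ≤ ε * U := by
    have : ε ^ 2 / 2 ≤ ε := by linarith
    exact mul_le_mul_of_nonneg_right this hU0.le
  have hK1 : 3 * ρ ^ 2 * (U / K) + 6 * ((1 + ρ ^ 2) * U) / K ≤ U / (5 * ρ) := by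
    have h1 : 3 * ρ ^ 2 * (U / K) + 6 * ((1 + ρ ^ 2) * U) / K = (6 + 9 * ρ ^ 2) * U / K := by
      field_simp; ring
    rw [h1, hK, div_le_div_iff₀ (by positivity) (by positivity)]
    have h2 : 6 + 9 * ρ ^ 2 ≤ 15 * ρ ^ 2 := by nlinarith
    calc (6 + 9 * ρ ^ 2) * U * (5 * ρ) ≤ 15 * ρ ^ 2 * U * (5 * ρ) := by gcongr
      _ = U * (75 * ρ ^ 3) := by ring
  have hερ' : ε = 1 / (40 * ρ ^ 2) := by
    rw [eq_div_iff (by positivity)]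
    linarith
  have hsum : I₁ + I₃ + ((1 + ρ) + X * r / ε + 1 / ε + 3 * ρ ^ 2 * r / R) * I₂ + 2 * r ^ 2 *
      (X * ε / (4 * r ^ 2) + ε / (4 * r ^ 3) + 3 * (U ^ 2 + ρ ^ 2 * B ^ 2) / R + B) ≤
      9 * (ρ * (ε * U)) + U / (5 * ρ) := by
    have h1 : ε * U ≤ ρ * (ε * U) := le_mul_of_one_le_left (by positivity) hρ
    have h2 : (1 + ρ) * U * ε = ε * U + ρ * (ε * U) := by ring
    have h3 : (1 + ρ) * (ε * U) = ε * U + ρ * (ε * U) := by ring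
    rw [h2] at hXε
    rw [h3] at a
    linarith
  calc ρ * _ ≤ ρ * (9 * (ρ * (ε * U)) + U / (5 * ρ)) := mul_le_mul_of_nonneg_left hsum hρ0.le
    _ = 9 * (ε * ρ ^ 2) * U + U / 5 := by field_simp
    _ = 17 / 40 * U := by rw [hερ]; ring
    _ < U / 2 := by linarith

/-- lower bound of the velocity from the lower bound of the mean -/
theorem low_bound {C₀ c₀ ρ ε r U B κ n₂ cn mn : ℝ} (hc₀ : 0 < c₀) (hC₀ : 0 < C₀)
    (hCρ : C₀ = ρ * c₀) (hε : 0 < ε) (hr : 0 < r) (hn₂ : 0 ≤ n₂) (hcn0 : 0 ≤ cn) (hκ : κ ≤ C₀)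
    (h1 : c₀ * U / 2 ≤ mn) (h2 : mn ≤ κ * cn + C₀ * (Real.sqrt (n₂ * r) + B)) :
    U / (2 * ρ) - ε / (4 * r) - B - r ^ 2 / ε * n₂ ≤ cn := by
  have h3 : Real.sqrt (n₂ * r) ≤ r ^ 2 / ε * n₂ + ε / (4 * r) := by
    refine (sqrt_le_amgm (n₂ * r) (ε / r) (by positivity) (by positivity)).trans (le_of_eq ?_)
    field_simp
  have h4 : κ * cn ≤ C₀ * cn := mul_le_mul_of_nonneg_right hκ hcn0
  have hρ0 : 0 < ρ := by
    by_contra hcon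
    push Not at hcon
    have : ρ * c₀ ≤ 0 := mul_nonpos_of_nonpos_of_nonneg hcon hc₀.le
    linarith
  have h5 : C₀ * (U / (2 * ρ)) = c₀ * U / 2 := by
    rw [hCρ]; field_simp
  have h6 : C₀ * Real.sqrt (n₂ * r) ≤ C₀ * (r ^ 2 / ε * n₂ + ε / (4 * r)) :=
    mul_le_mul_of_nonneg_left h3 hC₀.le
  have h7 : C₀ * (U / (2 * ρ) - ε / (4 * r) - B - r ^ 2 / ε * n₂) ≤ C₀ * cn := by
    have : C₀ * (U / (2 * ρ) - ε / (4 * r) - B - r ^ 2 / ε * n₂) =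
        C₀ * (U / (2 * ρ)) - C₀ * (r ^ 2 / ε * n₂ + ε / (4 * r)) - C₀ * B := by ring
    rw [this, h5]
    linarith
  exact le_of_mul_le_mul_left h7 hC₀

/-- the final constants -/
theorem fin_bound {C₀ c₀ ρ ε r U B : ℝ} (hc₀ : 0 < c₀) (hρ : 1 ≤ ρ)
    (hCρ : C₀ = ρ * c₀) (hε : 0 < ε) (hερ : ε * ρ ^ 2 = 1 / 40) (hr : 0 < r)
    (hUr : 1 ≤ U * r) (hBr : B * r ≤ ε ^ 2 / 2) {I₂ : ℝ} (hI₂ : I₂ ≤ ε ^ 2 / 2 / r) :
    c₀ / (2 * C₀) * (r ^ 2 * U) ≤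
      2 * r ^ 2 * (U / (2 * ρ) - ε / (4 * r) - B) - r ^ 2 / ε * I₂ := by
  have hρ0 : 0 < ρ := by linarith
  have hU0 : 0 < U := by
    by_contra hcon
    push Not at hcon
    have : U * r ≤ 0 := mul_nonpos_of_nonpos_of_nonneg hcon hr.le
    linarith
  have hε1 : ε ≤ 1 / 40 := by
    have : ε ≤ ε * ρ ^ 2 := le_mul_of_one_le_right hε.le (one_le_pow₀ hρ)
    linarith
  have h1 : c₀ / (2 * C₀) = 1 / (2 * ρ) := by rw [hCρ]; field_simp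
  have h2 : r ^ 2 / ε * I₂ ≤ ε / 2 * r := by
    calc r ^ 2 / ε * I₂ ≤ r ^ 2 / ε * (ε ^ 2 / 2 / r) :=
          mul_le_mul_of_nonneg_left hI₂ (by positivity)
      _ = _ := by field_simp
  have h3 : r ≤ r ^ 2 * U := by nlinarith
  have h4 : r ^ 2 * B ≤ ε / 80 * r := by
    have : ε ^ 2 / 2 ≤ ε / 80 := by nlinarith
    calc r ^ 2 * B = B * r * r := by ring
      _ ≤ ε / 80 * r := mul_le_mul_of_nonneg_right (hBr.trans this) hr.le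
  have h5 : 2 * r ^ 2 * (U / (2 * ρ) - ε / (4 * r) - B) = r ^ 2 * U / ρ - ε / 2 * r -
      2 * (r ^ 2 * B) := by
    field_simp
    ring
  rw [h1, h5]
  have h6 : ε ≤ 1 / (40 * ρ) := by
    rw [le_div_iff₀ (by positivity)]
    have : ε * ρ ≤ ε * ρ ^ 2 := by
      have h7 : ρ ≤ ρ ^ 2 := by nlinarith
      exact mul_le_mul_of_nonneg_left h7 hε.le
    linarith
  have h7 : ε * r ≤ 1 / (40 * ρ) * (r ^ 2 * U) := mul_le_mul h6 h3 hr.le (by positivity)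
  have h8 : 1 / (2 * ρ) * (r ^ 2 * U) = 20 * (1 / (40 * ρ) * (r ^ 2 * U)) := by
    field_simp; norm_num
  have h9 : r ^ 2 * U / ρ = 40 * (1 / (40 * ρ) * (r ^ 2 * U)) := by field_simp
  rw [h8, h9]
  have h10 : 0 ≤ 1 / (40 * ρ) * (r ^ 2 * U) := by positivity
  have h11 : 0 ≤ ε * r := by positivity
  nlinarith

/-- the abstract form on an interval `(a, b)` -/
theorem pers_aux {C₀ c₀ ρ ε r U B R κ a b : ℝ} (hc₀ : 0 < c₀) (hC₀ : 0 < C₀) (hρ : 1 ≤ ρ)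
    (hCρ : C₀ = ρ * c₀) (hε : 0 < ε) (hερ : ε * ρ ^ 2 = 1 / 40) {G : Set ℝ} {M c : ℝ → V}
    {h N₁ N₂ F : ℝ → ℝ} (hr : 0 < r) (hr1 : r ≤ 1) (hUr : 1 ≤ U * r) (hB : 0 ≤ B)
    (hBr : B * r ≤ ε ^ 2 / 2) (hR : 75 * ρ ^ 3 * U * r ^ 2 ≤ R) (hκ : c₀ ≤ κ) (hκC : κ ≤ C₀)
    (hab : a ≤ b) (hvol : b - a = 2 * r ^ 2) (hGn : volume (Ioo a b \ G) = 0)
    (hN₁ : ∀ t, 0 ≤ N₁ t) (hN₂ : ∀ t, 0 ≤ N₂ t) (hF : ∀ t, 0 ≤ F t)
    (iN₁ : IntegrableOn N₁ (Ioo a b)) (iN₂ : IntegrableOn N₂ (Ioo a b))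
    (iF : IntegrableOn F (Ioo a b)) (ih : IntegrableOn h (Ioo a b)) (ic : IntegrableOn c (Ioo a b))
    (hN₂i : ∫ t in Ioo a b, N₂ t ≤ ε ^ 2 / 2 / r) (hN₁i : ∫ t in Ioo a b, N₁ t ≤ ε ^ 2 / 2 * U)
    (hFi : ∫ t in Ioo a b, F t ≤ ε ^ 2 / 2 * U)
    (hM : ∀ s ∈ Ioo a b ∩ G, ∀ t ∈ Ioo a b ∩ G, s ≤ t → ‖M t - M s‖ ≤ ∫ τ in Ioo s t, h τ)
    (hh : ∀ t ∈ Ioo a b ∩ G, h t ≤ C₀ * (N₁ t + N₂ t
      + ‖c t‖ * √(N₂ t / r) + √(N₂ t) / √(r ^ 3) + F t + ‖c t‖ ^ 2 / R + B))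
    (hMc : ∀ t ∈ Ioo a b ∩ G, ‖M t - κ • c t‖ ≤ C₀ * (√(N₂ t * r) + B))
    {τ : ℝ} (hτ : τ ∈ Ioo a b ∩ G) (hτA : c₀ * U ≤ ‖M τ‖) :
    c₀ / (2 * C₀) * (r ^ 2 * U) ≤ ∫ t in Ioo a b, ‖c t‖ := by
  have hρ0 : 0 < ρ := by linarith
  have hU0 : 0 < U := by
    by_contra hcon
    push Not at hcon
    have : U * r ≤ 0 := mul_nonpos_of_nonpos_of_nonneg hcon hr.le
    linarith
  have hR0 : 0 < R := lt_of_lt_of_le (by positivity) hR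
  have hvol' : volume.real (Ioo a b) = 2 * r ^ 2 := by
    rw [Real.volume_real_Ioo_of_le hab, hvol]
  have hvolt : volume (Ioo a b) ≠ ⊤ := by
    rw [Real.volume_Ioo]; exact ENNReal.ofReal_ne_top
  have haeG : ∀ᵐ t ∂(volume.restrict (Ioo a b)), t ∈ G := by
    rw [ae_restrict_iff' measurableSet_Ioo]
    have : volume {t | ¬ (t ∈ Ioo a b → t ∈ G)} = 0 := by
      have e : {t | ¬ (t ∈ Ioo a b → t ∈ G)} = Ioo a b \ G := by
        ext t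
        rw [Set.mem_sdiff, Set.mem_ofPred_eq]
        tauto
      rw [e]; exact hGn
    exact this
  have hκ0 : 0 < κ := hc₀.trans_le hκ
  have hcM : ∀ t ∈ Ioo a b ∩ G, κ * ‖c t‖ ≤ ‖M t‖ + C₀ * (√(N₂ t * r) + B) := by
    intro t ht
    have h5 : κ * ‖c t‖ = ‖κ • c t‖ := by
      rw [norm_smul, Real.norm_eq_abs, abs_of_pos hκ0]
    have h6 : ‖κ • c t‖ ≤ ‖M t‖ + ‖M t - κ • c t‖ := by
      have := norm_sub_le (M t) (M t - κ • c t)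
      rwa [sub_sub_cancel] at this
    rw [h5]
    linarith [hMc t ht]
  have hMc' : ∀ t ∈ Ioo a b ∩ G, ‖M t‖ ≤ κ * ‖c t‖ + C₀ * (√(N₂ t * r) + B) := by
    intro t ht
    have h5 : κ * ‖c t‖ = ‖κ • c t‖ := by
      rw [norm_smul, Real.norm_eq_abs, abs_of_pos hκ0]
    have h6 : ‖M t‖ ≤ ‖κ • c t‖ + ‖M t - κ • c t‖ := by
      have := norm_add_le (κ • c t) (M t - κ • c t)
      rwa [add_sub_cancel] at this
    rw [h5]
    linarith [hMc t ht]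
  -- the claim
  have claim : ∀ t ∈ Ioo a b ∩ G, c₀ * U / 2 ≤ ‖M t‖ := by
    intro t₂ ht₂
    by_contra hcon
    push Not at hcon
    obtain ⟨p, q, hpq, hsub, hlt, hge⟩ := cross ih hM hτ ht₂ hτA hcon
    obtain ⟨α, hα⟩ : ∃ α, α = (1 + ρ) + (U + ρ * B) * r / ε + 1 / ε + 3 * ρ ^ 2 * r / R := ⟨_, rfl⟩
    obtain ⟨β, hβ⟩ : ∃ β, β = (U + ρ * B) * ε / (4 * r ^ 2) + ε / (4 * r ^ 3) +
      3 * (U ^ 2 + ρ ^ 2 * B ^ 2) / R + B := ⟨_, rfl⟩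
    have hα0 : 0 ≤ α := by rw [hα]; positivity
    have hβ0 : 0 ≤ β := by rw [hβ]; positivity
    have hpt : ∀ t ∈ Ioo p q ∩ G, h t ≤ C₀ * (N₁ t + F t + α * N₂ t + β) := by
      rintro t ⟨htp, htG⟩
      have htI : t ∈ Ioo a b ∩ G := ⟨hsub htp, htG⟩
      refine (hh t htI).trans (mul_le_mul_of_nonneg_left ?_ hC₀.le)
      rw [hα, hβ]
      refine pt_bound hρ0 hε hr hU0 hB hR0 (hN₂ t) (norm_nonneg _) ?_
      have h1 := hcM t htI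
      have h2 := hlt t ⟨htp, htG⟩
      have h4 : c₀ * ‖c t‖ ≤ κ * ‖c t‖ := mul_le_mul_of_nonneg_right hκ (norm_nonneg _)
      have h5 : c₀ * ‖c t‖ ≤ c₀ * (U + ρ * B + ρ * √(N₂ t * r)) := by
        have e : c₀ * (U + ρ * B + ρ * √(N₂ t * r)) = c₀ * U + C₀ * (√(N₂ t * r) + B) := by
          rw [hCρ]; ring
        rw [e]; linarith
      exact le_of_mul_le_mul_left h5 hc₀
    have i0 : IntegrableOn (fun _ : ℝ => β) (Ioo a b) := integrableOn_const hvolt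
    have imaj : IntegrableOn (fun t => C₀ * (N₁ t + F t + α * N₂ t + β)) (Ioo a b) :=
      (((iN₁.add iF).add (iN₂.const_mul α)).add i0).const_mul C₀
    have h1 : ∫ t in Ioo p q, h t ≤ ∫ t in Ioo p q, C₀ * (N₁ t + F t + α * N₂ t + β) := by
      refine setIntegral_mono_ae_restrict (ih.mono_set hsub) (imaj.mono_set hsub) ?_
      have h2 : ∀ᵐ t ∂(volume.restrict (Ioo p q)), t ∈ G :=
        ae_restrict_of_ae_restrict_of_subset hsub haeG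
      filter_upwards [h2, ae_restrict_mem measurableSet_Ioo] with t ht1 ht2
      exact hpt t ⟨ht2, ht1⟩
    have h2 : ∫ t in Ioo p q, C₀ * (N₁ t + F t + α * N₂ t + β) ≤
        ∫ t in Ioo a b, C₀ * (N₁ t + F t + α * N₂ t + β) := by
      refine setIntegral_mono_set imaj (Eventually.of_forall fun t => ?_) hsub.eventuallyLE
      have := hN₁ t
      have := hN₂ t
      have := hF t
      positivity
    have h3 : ∫ t in Ioo a b, C₀ * (N₁ t + F t + α * N₂ t + β) =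
        C₀ * ((∫ t in Ioo a b, N₁ t) + (∫ t in Ioo a b, F t) + α * (∫ t in Ioo a b, N₂ t) +
          2 * r ^ 2 * β) := by
      have i1 : IntegrableOn (fun t => N₁ t + F t) (Ioo a b) := iN₁.add iF
      have i2 : IntegrableOn (fun t => α * N₂ t) (Ioo a b) := iN₂.const_mul α
      have i3 : IntegrableOn (fun t => N₁ t + F t + α * N₂ t) (Ioo a b) := i1.add i2
      rw [integral_const_mul, integral_add i3 i0, integral_add i1 i2, integral_add iN₁ iF,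
        integral_const_mul, setIntegral_const, hvol', smul_eq_mul]
    have h4 := const_bound (I₁ := ∫ t in Ioo a b, N₁ t) (I₂ := ∫ t in Ioo a b, N₂ t)
      (I₃ := ∫ t in Ioo a b, F t) hρ hε hερ hr hr1 hUr hB hBr rfl hR hN₁i hFi hN₂i
    rw [← hα, ← hβ] at h4
    have h5 : C₀ * ((∫ t in Ioo a b, N₁ t) + (∫ t in Ioo a b, F t) + α * (∫ t in Ioo a b, N₂ t) +
          2 * r ^ 2 * β) < c₀ * U / 2 := by
      calc _ = c₀ * (ρ * ((∫ t in Ioo a b, N₁ t) + (∫ t in Ioo a b, F t) +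
            α * (∫ t in Ioo a b, N₂ t) + 2 * r ^ 2 * β)) := by rw [hCρ]; ring
        _ < c₀ * (U / 2) := mul_lt_mul_of_pos_left h4 hc₀
        _ = _ := by ring
    linarith
  -- conclusion
  have i0 : IntegrableOn (fun _ : ℝ => U / (2 * ρ) - ε / (4 * r) - B) (Ioo a b) :=
    integrableOn_const hvolt
  have ilow : IntegrableOn (fun t => U / (2 * ρ) - ε / (4 * r) - B - r ^ 2 / ε * N₂ t) (Ioo a b) :=
    i0.sub (iN₂.const_mul _)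
  have h1 : ∫ t in Ioo a b, (U / (2 * ρ) - ε / (4 * r) - B - r ^ 2 / ε * N₂ t) ≤
      ∫ t in Ioo a b, ‖c t‖ := by
    refine setIntegral_mono_ae_restrict ilow ic.norm ?_
    filter_upwards [haeG, ae_restrict_mem measurableSet_Ioo] with t ht1 ht2
    exact low_bound hc₀ hC₀ hCρ hε hr (hN₂ t) (norm_nonneg _) hκC (claim t ⟨ht2, ht1⟩)
      (hMc' t ⟨ht2, ht1⟩)
  rw [integral_sub i0 (iN₂.const_mul _), integral_const_mul, setIntegral_const, hvol',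
    smul_eq_mul] at h1
  exact (fin_bound hc₀ hρ hCρ hε hερ hr hUr hBr hN₂i).trans h1

theorem t_PERS : Pool.Agent.Y8.S_PERS := by
  intro C₀ c₀ hc₀ hcC
  have hC₀ : 0 < C₀ := hc₀.trans_le hcC
  obtain ⟨ρ, hρ⟩ : ∃ ρ, ρ = C₀ / c₀ := ⟨_, rfl⟩
  have hρ1 : 1 ≤ ρ := by rw [hρ, one_le_div hc₀]; exact hcC
  have hρ0 : 0 < ρ := by linarith
  have hCρ : C₀ = ρ * c₀ := by rw [hρ]; field_simp
  obtain ⟨ε, hε⟩ : ∃ ε, ε = 1 / (40 * ρ ^ 2) := ⟨_, rfl⟩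
  have hε0 : 0 < ε := by rw [hε]; positivity
  have hερ : ε * ρ ^ 2 = 1 / 40 := by rw [hε]; field_simp
  have hK1 : 1 ≤ 75 * ρ ^ 3 := by
    have : 1 ≤ ρ ^ 3 := one_le_pow₀ hρ1
    linarith
  refine ⟨ε ^ 2 / 2, 75 * ρ ^ 3, c₀ / (2 * C₀), by positivity, hK1, by positivity, ?_⟩
  intro r t₀ U B R κ G M c h N₁ N₂ F hr hr1 hUr hB hBr hR hκ hκC hG hGn hN₁ hN₂ hF iN₁ iN₂ iF ih ic
    hN₂i hN₁i hFi hM hh hMc ⟨τ, hτ, hτA⟩
  exact pers_aux hc₀ hC₀ hρ1 hCρ hε0 hερ hr hr1 hUr hB hBr hR hκ hκC (by nlinarith [sq_nonneg r])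
    (by ring) hGn hN₁ hN₂ hF iN₁ iN₂ iF ih ic hN₂i hN₁i hFi hM hh hMc hτ hτA

end Pool.Agent.Y274.PERS
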