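import Mathlib
import Pool.Agent.H337R3.Sid7

/-! Quasi-independent sets of characters are subgaussian (general form). -/

set_option autoImplicit false
set_option linter.unusedSectionVars false

namespace Pool.Agent.Y274.Sg

open MeasureTheory Finset Real
open scoped ENNReal NNReal

theorem exp_le_lin (r x : ℝ) (hx : |x| ≤ r) : Real.exp x ≤ Real.cosh r + Real.sinh r / r * x := by
  have hr : 0 ≤ r := (abs_nonneg x).trans hx
  rcases hr.eq_or_lt with h0 | h0
  · rw [← h0] at hx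
    have : x = 0 := abs_eq_zero.mp (le_antisymm hx (abs_nonneg x))
    rw [this, ← h0]
    simp
  · have h1 := abs_le.mp hx
    have hc := (convexOn_exp).2 (Set.mem_univ r) (Set.mem_univ (-r))
      (show 0 ≤ 1 / 2 + x / (2 * r) by
        have : -(1 / 2) ≤ x / (2 * r) := by
          rw [le_div_iff₀ (by positivity)]; nlinarith
        linarith)
      (show 0 ≤ 1 / 2 - x / (2 * r) by
        have : x / (2 * r) ≤ 1 / 2 := by
          rw [div_le_iff₀ (by positivity)]; nlinarith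
        linarith) (by ring)
    simp only [smul_eq_mul] at hc
    have e1 : (1 / 2 + x / (2 * r)) * r + (1 / 2 - x / (2 * r)) * -r = x := by
      field_simp; ring
    rw [e1] at hc
    refine hc.trans (le_of_eq ?_)
    rw [Real.cosh_eq, Real.sinh_eq]
    field_simp
    ring

section General

variable {Γ : Type*} [AddCommGroup Γ] {X : Type*} [MeasurableSpace X]
  {μ : Measure X} [IsProbabilityMeasure μ] {χ : Γ → X → ℂ}

/-- a system of characters -/
structure Sys (μ : Measure X) (χ : Γ → X → ℂ) : Prop where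
  zero : ∀ x, χ 0 x = 1
  add : ∀ m n x, χ (m + n) x = χ m x * χ n x
  nrm : ∀ m x, ‖χ m x‖ = 1
  meas : ∀ m, Measurable (χ m)
  int : ∀ m, m ≠ 0 → ∫ x, χ m x ∂μ = 0

variable (hS : Sys μ χ)

include hS

theorem Sys.neg (m : Γ) (x : X) : χ (-m) x = (starRingEnd ℂ) (χ m x) := by
  have h1 : χ m x * χ (-m) x = 1 := by rw [← hS.add, add_neg_cancel, hS.zero]
  have h2 : χ m x * (starRingEnd ℂ) (χ m x) = 1 := by
    rw [Complex.mul_conj, Complex.normSq_eq_norm_sq, hS.nrm]; simp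
  have h3 : χ m x ≠ 0 := fun h => by rw [h, zero_mul] at h1; exact zero_ne_one h1
  exact mul_left_cancel₀ h3 (h1.trans h2.symm)

theorem Sys.sum {ι : Type*} (s : Finset ι) (f : ι → Γ) (x : X) :
    χ (∑ i ∈ s, f i) x = ∏ i ∈ s, χ (f i) x := by
  classical
  induction s using Finset.induction_on with
  | empty => simp [hS.zero]
  | insert a s ha ih => rw [Finset.sum_insert ha, Finset.prod_insert ha, hS.add, ih]

theorem Sys.integrable [IsFiniteMeasure μ] (m : Γ) : Integrable (χ m) μ :=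
  Integrable.of_bound (hS.meas m).aestronglyMeasurable 1
    (Filter.Eventually.of_forall fun x => (hS.nrm m x).le)

open scoped Classical in
/-- the exponential moment of a quasi-independent polynomial -/
theorem Sys.mgf (A : Finset Γ)
    (hA : ∀ ξ : Γ → ℤ, (∀ x ∈ A, ξ x = -1 ∨ ξ x = 0 ∨ ξ x = 1) →
      ∑ x ∈ A, ξ x • x = 0 → ∀ x ∈ A, ξ x = 0) (a : Γ → ℂ) :
    ∫⁻ x, ENNReal.ofReal (Real.exp (∑ n ∈ A, (a n * χ n x).re)) ∂μ ≤
      ENNReal.ofReal (Real.exp ((∑ n ∈ A, ‖a n‖ ^ 2) / 2)) := by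
  -- the majorant
  let s : Γ → ℝ := fun n => Real.sinh ‖a n‖ / ‖a n‖
  let F : X → ℝ := fun x => ∏ n ∈ A, (Real.cosh ‖a n‖ + s n * (a n * χ n x).re)
  have hfac : ∀ n x, Real.exp ((a n * χ n x).re) ≤ Real.cosh ‖a n‖ + s n * (a n * χ n x).re := by
    intro n x
    apply exp_le_lin
    refine (Complex.abs_re_le_norm _).trans (le_of_eq ?_)
    rw [norm_mul, hS.nrm, mul_one]
  have hle : ∀ x, Real.exp (∑ n ∈ A, (a n * χ n x).re) ≤ F x := by
    intro x
    rw [Real.exp_sum]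
    exact Finset.prod_le_prod (fun _ _ => (Real.exp_pos _).le) (fun n _ => hfac n x)
  have hF0 : ∀ x, 0 ≤ F x := fun x => (Real.exp_pos _).le.trans (hle x)
  -- complex expansion
  let S : Finset ℤ := {-1, 0, 1}
  let c : Γ → ℤ → ℂ := fun n k => if k = 0 then (Real.cosh ‖a n‖ : ℂ) else
    if k = 1 then (s n : ℂ) / 2 * a n else (s n : ℂ) / 2 * (starRingEnd ℂ) (a n)
  have hfc : ∀ n x, ((Real.cosh ‖a n‖ + s n * (a n * χ n x).re : ℝ) : ℂ) =
      ∑ k ∈ S, c n k * χ (k • n) x := by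
    intro n x
    have e1 : (((a n * χ n x).re : ℝ) : ℂ) = (a n * χ n x + (starRingEnd ℂ) (a n * χ n x)) / 2 := by
      rw [Complex.add_conj]; push_cast; ring
    rw [Finset.sum_insert (by decide), Finset.sum_insert (by decide), Finset.sum_singleton]
    have c1 : c n (-1) = (s n : ℂ) / 2 * (starRingEnd ℂ) (a n) := by
      simp only [c]
      rw [if_neg (by norm_num), if_neg (by norm_num)]
    have c2 : c n 0 = (Real.cosh ‖a n‖ : ℂ) := by
      simp only [c, if_true]
    have c3 : c n 1 = (s n : ℂ) / 2 * a n := by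
      simp only [c]
      rw [if_neg (by norm_num), if_pos trivial]
    rw [c1, c2, c3, neg_smul, one_smul, zero_smul, hS.neg, hS.zero]
    push_cast
    rw [e1, map_mul]
    ring
  have hFc : ∀ x, ((F x : ℝ) : ℂ) = ∑ p ∈ Fintype.piFinset (fun _ : A => S),
      (∏ n : A, c n (p n)) * χ (∑ n : A, p n • (n : Γ)) x := by
    intro x
    have h1 : ((F x : ℝ) : ℂ) = ∏ n : A, ∑ k ∈ S, c n k * χ (k • (n : Γ)) x := by
      simp only [F]
      rw [Complex.ofReal_prod, ← Finset.prod_coe_sort]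
      exact Finset.prod_congr rfl fun n _ => hfc n x
    rw [h1, Finset.prod_univ_sum]
    refine Finset.sum_congr rfl fun p _ => ?_
    rw [Finset.prod_mul_distrib, hS.sum]
  have hFint : ∫ x, ((F x : ℝ) : ℂ) ∂μ = ∏ n : A, c n 0 := by
    simp only [hFc]
    rw [integral_finsetSum]
    · rw [Finset.sum_eq_single (fun _ => (0 : ℤ))]
      · simp only [zero_smul, Finset.sum_const_zero, hS.zero]
        simp
      · intro p hp hne
        rw [integral_const_mul, hS.int, mul_zero]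
        intro h0
        apply hne
        funext n
        let ξ : Γ → ℤ := fun y => if h : y ∈ A then p ⟨y, h⟩ else 0
        have hξ : ∀ n : A, ξ n = p n := fun n => by simp [ξ]
        have h2 := hA ξ (fun y hy => by
          have := Fintype.mem_piFinset.mp hp ⟨y, hy⟩
          have e : ξ y = p ⟨y, hy⟩ := hξ ⟨y, hy⟩
          rw [e]
          simpa [S] using this) (by
          rw [← Finset.sum_coe_sort]
          simp only [hξ]
          exact h0) n n.2
        rw [hξ] at h2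
        exact h2
      · intro h
        exfalso
        apply h
        rw [Fintype.mem_piFinset]
        intro _
        simp [S]
    · intro p _
      exact (hS.integrable _).const_mul _
  have hFreal : ∫ x, F x ∂μ = ∏ n ∈ A, Real.cosh ‖a n‖ := by
    have h1 : ((∫ x, F x ∂μ : ℝ) : ℂ) = ((∏ n ∈ A, Real.cosh ‖a n‖ : ℝ) : ℂ) := by
      have h2 : ∫ x, ((F x : ℝ) : ℂ) ∂μ = ((∫ x, F x ∂μ : ℝ) : ℂ) := integral_complex_ofReal
      rw [← h2, hFint, Complex.ofReal_prod]
      have h3 : ∀ n : A, c n 0 = (Real.cosh ‖a n‖ : ℂ) := fun n => by simp only [c, if_true]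
      rw [Finset.prod_congr rfl fun n _ => h3 n]
      exact Finset.prod_coe_sort A fun n => (Real.cosh ‖a n‖ : ℂ)
    exact_mod_cast h1
  have hFm : Measurable F := by
    refine Finset.measurable_fun_prod _ fun n _ => ?_
    exact ((Complex.measurable_re.comp ((hS.meas n).const_mul _)).const_mul _).const_add _
  have hFi : Integrable F μ := by
    refine Integrable.of_bound hFm.aestronglyMeasurable (∏ n ∈ A, (Real.cosh ‖a n‖ + |s n| * ‖a n‖))
      (Filter.Eventually.of_forall fun x => ?_)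
    rw [Real.norm_eq_abs, abs_of_nonneg (hF0 x)]
    refine Finset.prod_le_prod (fun n _ => (Real.exp_pos _).le.trans (hfac n x)) fun n _ => ?_
    have h1 : |(a n * χ n x).re| ≤ ‖a n‖ := by
      refine (Complex.abs_re_le_norm _).trans (le_of_eq ?_)
      rw [norm_mul, hS.nrm, mul_one]
    have h2 : s n * (a n * χ n x).re ≤ |s n| * ‖a n‖ := by
      refine (le_abs_self _).trans ?_
      rw [abs_mul]
      exact mul_le_mul_of_nonneg_left h1 (abs_nonneg _)
    linarith
  calc ∫⁻ x, ENNReal.ofReal (Real.exp (∑ n ∈ A, (a n * χ n x).re)) ∂μ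
      ≤ ∫⁻ x, ENNReal.ofReal (F x) ∂μ := lintegral_mono fun x => ENNReal.ofReal_le_ofReal (hle x)
    _ = ENNReal.ofReal (∫ x, F x ∂μ) :=
        (ofReal_integral_eq_lintegral_ofReal hFi (Filter.Eventually.of_forall hF0)).symm
    _ ≤ ENNReal.ofReal (Real.exp ((∑ n ∈ A, ‖a n‖ ^ 2) / 2)) := by
        apply ENNReal.ofReal_le_ofReal
        rw [hFreal, Finset.sum_div, Real.exp_sum]
        exact Finset.prod_le_prod (fun n _ => (Real.cosh_pos _).le)
          (fun n _ => Real.cosh_le_exp_half_sq _)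

end General

/-- Gaussian linearisation of `exp (y ^ 2 / 2)` -/
theorem gauss_lin (y : ℝ) :
    ∫⁻ g : ℝ, ENNReal.ofReal (ProbabilityTheory.gaussianPDFReal 0 1 g * Real.exp (g * y)) =
      ENNReal.ofReal (Real.exp (y ^ 2 / 2)) := by
  have h1 : ∀ g : ℝ, ProbabilityTheory.gaussianPDFReal 0 1 g * Real.exp (g * y) =
      Real.exp (y ^ 2 / 2) * ProbabilityTheory.gaussianPDFReal y 1 g := by
    intro g
    simp only [ProbabilityTheory.gaussianPDFReal, NNReal.coe_one, mul_one, sub_zero]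
    rw [mul_assoc, ← Real.exp_add, mul_left_comm, ← Real.exp_add]
    congr 2
    ring
  simp only [h1]
  have h2 : ∀ g : ℝ, ENNReal.ofReal (Real.exp (y ^ 2 / 2) * ProbabilityTheory.gaussianPDFReal y 1 g)
      = ENNReal.ofReal (Real.exp (y ^ 2 / 2)) *
        ENNReal.ofReal (ProbabilityTheory.gaussianPDFReal y 1 g) :=
    fun g => ENNReal.ofReal_mul (Real.exp_pos _).le
  simp only [h2]
  rw [lintegral_const_mul _ (by fun_prop), ProbabilityTheory.lintegral_gaussianPDFReal_eq_one y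
    (by norm_num), mul_one]

/-- `E exp (g ^ 2 / 4) = √2 ≤ e` -/
theorem gauss_quarter :
    ∫⁻ g : ℝ, ENNReal.ofReal (ProbabilityTheory.gaussianPDFReal 0 1 g * Real.exp (g ^ 2 / 4)) ≤
      ENNReal.ofReal (Real.exp 1) := by
  have h1 : ∀ g : ℝ, ProbabilityTheory.gaussianPDFReal 0 1 g * Real.exp (g ^ 2 / 4) =
      Real.sqrt 2 * ProbabilityTheory.gaussianPDFReal 0 2 g := by
    intro g
    simp only [ProbabilityTheory.gaussianPDFReal, NNReal.coe_one, mul_one, sub_zero,
      NNReal.coe_ofNat]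
    rw [mul_assoc, ← Real.exp_add, ← mul_assoc]
    congr 1
    · have h2 : Real.sqrt (2 * π * 2) = Real.sqrt 2 * Real.sqrt (2 * π) := by
        rw [mul_comm (2 * π) 2, Real.sqrt_mul (by norm_num)]
      rw [h2]
      have h3 : Real.sqrt 2 ≠ 0 := by positivity
      have h4 : Real.sqrt (2 * π) ≠ 0 := by positivity
      field_simp
    · congr 1
      ring
  simp only [h1]
  have h2 : ∀ g : ℝ, ENNReal.ofReal (Real.sqrt 2 * ProbabilityTheory.gaussianPDFReal 0 2 g)
      = ENNReal.ofReal (Real.sqrt 2) *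
        ENNReal.ofReal (ProbabilityTheory.gaussianPDFReal 0 2 g) :=
    fun g => ENNReal.ofReal_mul (Real.sqrt_nonneg _)
  simp only [h2]
  rw [lintegral_const_mul _ (by fun_prop), ProbabilityTheory.lintegral_gaussianPDFReal_eq_one 0
    (by norm_num), mul_one]
  apply ENNReal.ofReal_le_ofReal
  have h3 : Real.sqrt 2 ≤ 2 := by
    rw [Real.sqrt_le_left (by norm_num)]; norm_num
  have h4 : (2 : ℝ) ≤ Real.exp 1 := by
    have := Real.add_one_le_exp (1 : ℝ)
    linarith
  linarith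

section General2

variable {Γ : Type*} [AddCommGroup Γ] {X : Type*} [MeasurableSpace X]
  {μ : Measure X} [IsProbabilityMeasure μ] {χ : Γ → X → ℂ} (hS : Sys μ χ)

include hS

theorem Sys.meas_re (A : Finset Γ) (a : Γ → ℂ) :
    Measurable fun x => ∑ n ∈ A, (a n * χ n x).re :=
  Finset.measurable_fun_sum _ fun n _ => Complex.measurable_re.comp ((hS.meas n).const_mul _)

/-- the real part -/
theorem Sys.sq_re (A : Finset Γ)
    (hA : ∀ ξ : Γ → ℤ, (∀ x ∈ A, ξ x = -1 ∨ ξ x = 0 ∨ ξ x = 1) →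
      ∑ x ∈ A, ξ x • x = 0 → ∀ x ∈ A, ξ x = 0) (a : Γ → ℂ) (σ : ℝ) (hσ : 0 < σ)
    (hs : ∑ n ∈ A, ‖a n‖ ^ 2 ≤ σ ^ 2) :
    ∫⁻ x, ENNReal.ofReal (Real.exp ((∑ n ∈ A, (a n * χ n x).re) ^ 2 / (4 * σ ^ 2))) ∂μ ≤
      ENNReal.ofReal (Real.exp 1) := by
  set u : X → ℝ := fun x => ∑ n ∈ A, (a n * χ n x).re with hu
  have hum : Measurable u := hS.meas_re A a
  set τ : ℝ := Real.sqrt 2 * σ with hτ
  have hτ0 : 0 < τ := by positivity
  have hτ2 : τ ^ 2 = 2 * σ ^ 2 := by
    rw [hτ, mul_pow, Real.sq_sqrt (by norm_num)]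
  have h1 : ∀ x, ENNReal.ofReal (Real.exp ((u x) ^ 2 / (4 * σ ^ 2))) =
      ∫⁻ g : ℝ, ENNReal.ofReal (ProbabilityTheory.gaussianPDFReal 0 1 g * Real.exp (g * (u x / τ))) := by
    intro x
    rw [gauss_lin]
    congr 2
    rw [div_pow, hτ2]
    field_simp
    ring
  change ∫⁻ x, ENNReal.ofReal (Real.exp ((u x) ^ 2 / (4 * σ ^ 2))) ∂μ ≤ _
  simp only [h1]
  rw [lintegral_lintegral_swap]
  · refine le_trans (lintegral_mono fun g => ?_) gauss_quarter
    have h2 : ∀ x, ENNReal.ofReal (ProbabilityTheory.gaussianPDFReal 0 1 g *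
        Real.exp (g * (u x / τ))) = ENNReal.ofReal (ProbabilityTheory.gaussianPDFReal 0 1 g) *
          ENNReal.ofReal (Real.exp (∑ n ∈ A, (((g / τ : ℝ) * a n) * χ n x).re)) := by
      intro x
      rw [ENNReal.ofReal_mul (ProbabilityTheory.gaussianPDFReal_nonneg _ _ _)]
      congr 3
      rw [hu]
      simp only
      rw [Finset.sum_div, Finset.mul_sum]
      refine Finset.sum_congr rfl fun n _ => ?_
      rw [mul_assoc, Complex.re_ofReal_mul]
      ring
    simp only [h2]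
    rw [lintegral_const_mul _ (((hS.meas_re A fun n => ((g / τ : ℝ) : ℂ) * a n).exp).ennreal_ofReal),
      ENNReal.ofReal_mul (ProbabilityTheory.gaussianPDFReal_nonneg _ _ _)]
    refine mul_le_mul_right ((hS.mgf A hA fun n => ((g / τ : ℝ) : ℂ) * a n).trans ?_) _
    apply ENNReal.ofReal_le_ofReal
    apply Real.exp_le_exp.mpr
    have h3 : ∑ n ∈ A, ‖((g / τ : ℝ) : ℂ) * a n‖ ^ 2 = (g / τ) ^ 2 * ∑ n ∈ A, ‖a n‖ ^ 2 := by
      rw [Finset.mul_sum]
      refine Finset.sum_congr rfl fun n _ => ?_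
      rw [norm_mul, mul_pow, Complex.norm_real, Real.norm_eq_abs, sq_abs]
    rw [h3]
    have h4 : (g / τ) ^ 2 * ∑ n ∈ A, ‖a n‖ ^ 2 ≤ (g / τ) ^ 2 * σ ^ 2 :=
      mul_le_mul_of_nonneg_left hs (sq_nonneg _)
    have h5 : (g / τ) ^ 2 * σ ^ 2 = g ^ 2 / 2 := by
      rw [div_pow, hτ2]; field_simp
    linarith
  · apply Measurable.aemeasurable
    apply Measurable.ennreal_ofReal
    apply Measurable.mul
    · exact (ProbabilityTheory.measurable_gaussianPDFReal 0 1).comp measurable_snd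
    · exact (measurable_snd.mul ((hum.comp measurable_fst).div_const τ)).exp

/-- **Quasi-independent sets are subgaussian.** -/
theorem Sys.psi (A : Finset Γ)
    (hA : ∀ ξ : Γ → ℤ, (∀ x ∈ A, ξ x = -1 ∨ ξ x = 0 ∨ ξ x = 1) →
      ∑ x ∈ A, ξ x • x = 0 → ∀ x ∈ A, ξ x = 0) (a : Γ → ℂ) (σ : ℝ) (hσ : 0 < σ)
    (hs : ∑ n ∈ A, ‖a n‖ ^ 2 ≤ σ ^ 2) :
    ∫⁻ x, ENNReal.ofReal (Real.exp (‖∑ n ∈ A, a n * χ n x‖ ^ 2 / (8 * σ ^ 2))) ∂μ ≤
      ENNReal.ofReal (Real.exp 1) := by
  have e0 : ∀ x, (∑ n ∈ A, a n * χ n x).re = ∑ n ∈ A, (a n * χ n x).re :=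
    fun x => Complex.re_sum _ _
  have e1 : ∀ x, (∑ n ∈ A, a n * χ n x).im = ∑ n ∈ A, ((-Complex.I * a n) * χ n x).re := by
    intro x
    rw [Complex.im_sum]
    refine Finset.sum_congr rfl fun n _ => ?_
    rw [mul_assoc, neg_mul, Complex.neg_re, Complex.I_mul_re, neg_neg]
  have h1 : ∀ x, ENNReal.ofReal (Real.exp (‖∑ n ∈ A, a n * χ n x‖ ^ 2 / (8 * σ ^ 2))) ≤
      (1 / 2 : ℝ≥0∞) * ENNReal.ofReal (Real.exp ((∑ n ∈ A, (a n * χ n x).re) ^ 2 / (4 * σ ^ 2))) +
      (1 / 2 : ℝ≥0∞) * ENNReal.ofReal (Real.exp ((∑ n ∈ A, ((-Complex.I * a n) * χ n x).re) ^ 2 /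
        (4 * σ ^ 2))) := by
    intro x
    have h2 := (convexOn_exp).2 (Set.mem_univ ((∑ n ∈ A, (a n * χ n x).re) ^ 2 / (4 * σ ^ 2)))
      (Set.mem_univ ((∑ n ∈ A, ((-Complex.I * a n) * χ n x).re) ^ 2 / (4 * σ ^ 2)))
      (by norm_num : (0 : ℝ) ≤ 1 / 2) (by norm_num : (0 : ℝ) ≤ 1 / 2) (by norm_num)
    simp only [smul_eq_mul] at h2
    have h3 : ‖∑ n ∈ A, a n * χ n x‖ ^ 2 / (8 * σ ^ 2) =
        1 / 2 * ((∑ n ∈ A, (a n * χ n x).re) ^ 2 / (4 * σ ^ 2)) +
        1 / 2 * ((∑ n ∈ A, ((-Complex.I * a n) * χ n x).re) ^ 2 / (4 * σ ^ 2)) := by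
      rw [← e0, ← e1, ← Complex.normSq_eq_norm_sq, Complex.normSq_apply]
      field_simp
      ring
    rw [h3]
    refine (ENNReal.ofReal_le_ofReal h2).trans (le_of_eq ?_)
    rw [ENNReal.ofReal_add (by positivity) (by positivity), ENNReal.ofReal_mul (by norm_num),
      ENNReal.ofReal_mul (by norm_num)]
    have h5 : ENNReal.ofReal (1 / 2) = 1 / 2 := by
      rw [ENNReal.ofReal_div_of_pos (by norm_num)]
      simp
    rw [h5]
  refine (lintegral_mono h1).trans ?_
  have hsI : ∑ n ∈ A, ‖-Complex.I * a n‖ ^ 2 ≤ σ ^ 2 := by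
    simpa using hs
  rw [lintegral_add_left (Measurable.const_mul
    (((hS.meas_re A a).pow_const 2).div_const _).exp.ennreal_ofReal _),
    lintegral_const_mul _ (((hS.meas_re A a).pow_const 2).div_const _).exp.ennreal_ofReal,
    lintegral_const_mul _ (((hS.meas_re A _).pow_const 2).div_const _).exp.ennreal_ofReal]
  have k1 := hS.sq_re A hA a σ hσ hs
  have k2 := hS.sq_re A hA (fun n => -Complex.I * a n) σ hσ hsI
  calc _ ≤ (1 / 2 : ℝ≥0∞) * ENNReal.ofReal (Real.exp 1) + (1 / 2 : ℝ≥0∞) * ENNReal.ofReal (Real.exp 1) := by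
        gcongr
    _ = ENNReal.ofReal (Real.exp 1) := by
        rw [← add_mul]
        simp only [one_div, ENNReal.inv_two_add_inv_two, one_mul]

end General2

end Pool.Agent.Y274.Sg
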