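import Mathlib
import Pool.Agent.Y274.Sg1

/-! Subgaussian sets of characters of bounded order are finite unions of quasi-independent sets. -/

set_option autoImplicit false
set_option linter.unusedSectionVars false

namespace Pool.Agent.Y274.Sg

open MeasureTheory Finset Real
open scoped ENNReal NNReal

section Psi
variable {X : Type*} [MeasurableSpace X] (μ : Measure X)

/-- the set of admissible constants -/
def Adm (f : X → ℂ) : Set ℝ :=
  {c : ℝ | 0 < c ∧ ∫⁻ x, ENNReal.ofReal (Real.exp (‖f x‖ ^ 2 / c ^ 2)) ∂μ ≤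
    ENNReal.ofReal (Real.exp 1)}

theorem Adm.mono {f : X → ℂ} {c d : ℝ} (hc : c ∈ Adm μ f) (hcd : c ≤ d) : d ∈ Adm μ f := by
  refine ⟨hc.1.trans_le hcd, (lintegral_mono fun x => ENNReal.ofReal_le_ofReal
    (Real.exp_le_exp.mpr ?_)).trans hc.2⟩
  exact div_le_div_of_nonneg_left (sq_nonneg _) (pow_pos hc.1 2)
    (pow_le_pow_left₀ hc.1.le hcd 2)

theorem Adm.bdd (f : X → ℂ) : BddBelow (Adm μ f) := ⟨0, fun _ h => h.1.le⟩

theorem Adm.of_bound [IsProbabilityMeasure μ] {f : X → ℂ} {B : ℝ} (hB : 0 < B)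
    (h : ∀ x, ‖f x‖ ≤ B) : B ∈ Adm μ f := by
  refine ⟨hB, ?_⟩
  calc ∫⁻ x, ENNReal.ofReal (Real.exp (‖f x‖ ^ 2 / B ^ 2)) ∂μ
      ≤ ∫⁻ _, ENNReal.ofReal (Real.exp 1) ∂μ := by
        refine lintegral_mono fun x => ENNReal.ofReal_le_ofReal (Real.exp_le_exp.mpr ?_)
        rw [div_le_one (by positivity)]
        exact pow_le_pow_left₀ (norm_nonneg _) (h x) 2
    _ = ENNReal.ofReal (Real.exp 1) := by simp

theorem Adm.of_lt {f : X → ℂ} (hne : (Adm μ f).Nonempty) {c : ℝ} (h : sInf (Adm μ f) < c) :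
    c ∈ Adm μ f := by
  obtain ⟨d, hd, hdc⟩ := exists_lt_of_csInf_lt hne h
  exact Adm.mono μ hd hdc.le

end Psi

section General

variable {Γ : Type*} [AddCommGroup Γ] {X : Type*} [MeasurableSpace X]
  {μ : Measure X} [IsProbabilityMeasure μ] {χ : Γ → X → ℂ} (hS : Sys μ χ)

include hS

open scoped Classical in
/-- lower bound for the exponential integral of a sum of characters in a finite group -/
theorem Sys.lower (A : Finset Γ) (M : AddSubgroup Γ) (hM : Finite M) (hAM : ∀ x ∈ A, x ∈ M)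
    (c : ℝ) (hc : c ∈ Adm μ (fun x => ∑ n ∈ A, χ n x)) :
    Real.exp ((A.card : ℝ) ^ 2 / c ^ 2) ≤ Real.exp 1 * Nat.card M := by
  let _ := Fintype.ofFinite M
  have hN0 : (0 : ℝ) < Nat.card M := by exact_mod_cast Nat.card_pos
  set K := Real.exp ((A.card : ℝ) ^ 2 / c ^ 2) with hK
  have hK0 : 0 < K := Real.exp_pos _
  let D : X → ℂ := fun x => ∑ m : M, χ m x
  have hD1 : ∀ x, (∀ m : M, χ m x = 1) → D x = Nat.card M := by
    intro x hx
    simp only [D]
    rw [Finset.sum_congr rfl fun m _ => hx m]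
    simp
  have hD0 : ∀ x, (¬ ∀ m : M, χ m x = 1) → D x = 0 := by
    intro x hx
    push Not at hx
    obtain ⟨m₀, hm₀⟩ := hx
    have h1 : χ m₀ x * D x = D x := by
      simp only [D]
      rw [Finset.mul_sum, ← Equiv.sum_comp (Equiv.addLeft m₀) (fun m : M => χ m x)]
      refine Finset.sum_congr rfl fun m _ => ?_
      rw [Equiv.coe_addLeft, AddSubgroup.coe_add, hS.add]
    have h2 : (χ m₀ x - 1) * D x = 0 := by rw [sub_mul, one_mul, h1, sub_self]
    exact (mul_eq_zero.mp h2).resolve_left (sub_ne_zero.mpr hm₀)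
  have hDint : ∫ x, D x ∂μ = 1 := by
    simp only [D]
    rw [integral_finsetSum _ fun m _ => hS.integrable _, Finset.sum_eq_single (0 : M)]
    · simp [hS.zero]
    · intro m _ hm
      exact hS.int _ (fun h => hm (Subtype.ext h))
    · intro h; exact absurd (Finset.mem_univ _) h
  have hDi : Integrable D μ := integrable_finsetSum _ fun m _ => hS.integrable _
  let g : X → ℝ := fun x => K / Nat.card M * (D x).re
  have hg0 : ∀ x, 0 ≤ g x := by
    intro x
    by_cases hx : ∀ m : M, χ m x = 1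
    · simp only [g]; rw [hD1 x hx]; simp; positivity
    · simp only [g]; rw [hD0 x hx]; simp
  have hgi : Integrable g μ := hDi.re.const_mul _
  have hgint : ∫ x, g x ∂μ = K / Nat.card M := by
    simp only [g]
    rw [integral_const_mul]
    have h1 : ∫ x, (D x).re ∂μ = (∫ x, D x ∂μ).re := integral_re hDi
    rw [h1, hDint]
    simp
  have hle : ∀ x, g x ≤ Real.exp (‖∑ n ∈ A, χ n x‖ ^ 2 / c ^ 2) := by
    intro x
    by_cases hx : ∀ m : M, χ m x = 1
    · have h1 : g x = K := by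
        simp only [g]; rw [hD1 x hx]
        rw [Complex.natCast_re]
        field_simp
      have h2 : ∑ n ∈ A, χ n x = A.card := by
        rw [Finset.sum_congr rfl fun n hn => hx ⟨n, hAM n hn⟩]
        simp
      rw [h1, h2, Complex.norm_natCast]
    · have h1 : g x = 0 := by simp only [g]; rw [hD0 x hx]; simp
      rw [h1]; positivity
  have h1 : ENNReal.ofReal (K / Nat.card M) ≤ ENNReal.ofReal (Real.exp 1) := by
    calc ENNReal.ofReal (K / Nat.card M) = ∫⁻ x, ENNReal.ofReal (g x) ∂μ := by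
          rw [← hgint]
          exact ofReal_integral_eq_lintegral_ofReal hgi (Filter.Eventually.of_forall hg0)
      _ ≤ ∫⁻ x, ENNReal.ofReal (Real.exp (‖∑ n ∈ A, χ n x‖ ^ 2 / c ^ 2)) ∂μ :=
          lintegral_mono fun x => ENNReal.ofReal_le_ofReal (hle x)
      _ ≤ _ := hc.2
  rw [ENNReal.ofReal_le_ofReal_iff (Real.exp_pos _).le, div_le_iff₀ hN0] at h1
  exact h1

theorem Sys.adm_nonempty (A : Finset Γ) (a : Γ → ℂ) :
    (Adm μ (fun x => ∑ n ∈ A, a n * χ n x)).Nonempty := by
  refine ⟨∑ n ∈ A, ‖a n‖ + 1, Adm.of_bound μ (by positivity) fun x => ?_⟩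
  refine (norm_sum_le _ _).trans ?_
  have : ∑ n ∈ A, ‖a n * χ n x‖ = ∑ n ∈ A, ‖a n‖ :=
    Finset.sum_congr rfl fun n _ => by rw [norm_mul, hS.nrm, mul_one]
  rw [this]
  linarith

open Pool.Agent.H337R3.Sid in
/-- Subgaussian sets are small. -/
theorem Sys.small (Λ : Set Γ)
    (hfin : ∀ D : Finset Γ, (D : Set Γ) ⊆ Λ → Finite (AddSubgroup.closure (D : Set Γ)))
    (h0 : (0 : Γ) ∉ Λ) (C : ℝ)
    (hΛ : ∀ (A : Finset Γ) (a : Γ → ℂ), (A : Set Γ) ⊆ Λ →
      sInf (Adm μ (fun x => ∑ n ∈ A, a n * χ n x)) ≤ C * Real.sqrt (∑ n ∈ A, ‖a n‖ ^ 2)) :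
    ∃ K : ℕ, Small K Λ := by
  set C' := max C 1 with hC'
  have hC'1 : 1 ≤ C' := le_max_right _ _
  have hC'0 : 0 < C' := by linarith
  have hCC' : C ≤ C' := le_max_left C 1
  refine ⟨⌈12 * C' ^ 2⌉₊, ?_⟩
  intro A hA
  by_cases hAe : A.Nonempty
  swap
  · rw [Finset.not_nonempty_iff_eq_empty] at hAe
    subst hAe
    simp only [Finset.card_empty, pow_zero]
    apply Nat.one_le_pow
    have := hfin ∅ (by simp)
    exact Nat.card_pos
  have hAcard : 0 < A.card := Finset.card_pos.mpr hAe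
  have hAc : (0 : ℝ) < A.card := by exact_mod_cast hAcard
  set M := AddSubgroup.closure (A : Set Γ) with hM
  have hMfin : Finite M := hfin A hA
  have hN2 : 2 ≤ Nat.card M := by
    obtain ⟨x, hx⟩ := hAe
    have hx0 : x ≠ 0 := by
      rintro rfl
      exact h0 (hA hx)
    have : Nontrivial M := ⟨⟨⟨x, AddSubgroup.subset_closure hx⟩, 0, fun h => hx0 (by
      have := congrArg Subtype.val h
      simpa using this)⟩⟩
    exact Finite.one_lt_card
  have hNr : (2 : ℝ) ≤ Nat.card M := by exact_mod_cast hN2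
  have h1 := hΛ A (fun _ => 1) hA
  have h2 := hS.adm_nonempty (μ := μ) A (fun _ => 1)
  simp only [one_mul] at h1 h2
  have h3 : ∑ n ∈ A, ‖(1 : ℂ)‖ ^ 2 = A.card := by simp
  rw [h3] at h1
  set c := 2 * C' * Real.sqrt A.card with hc
  have hs : 0 < Real.sqrt A.card := Real.sqrt_pos.mpr hAc
  have hlt : sInf (Adm μ (fun x => ∑ n ∈ A, χ n x)) < c := by
    refine h1.trans_lt ?_
    rw [hc]
    have : C * Real.sqrt A.card ≤ C' * Real.sqrt A.card := mul_le_mul_of_nonneg_right hCC' hs.le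
    have h5 : 0 < C' * Real.sqrt A.card := by positivity
    nlinarith
  have h4 := hS.lower A M hMfin (fun x hx => AddSubgroup.subset_closure hx) c
    (Adm.of_lt μ h2 hlt)
  have h5 : (A.card : ℝ) ^ 2 / c ^ 2 = A.card / (4 * C' ^ 2) := by
    rw [hc, mul_pow, mul_pow, Real.sq_sqrt hAc.le]
    field_simp
    ring
  rw [h5] at h4
  have h6 : (A.card : ℝ) / (4 * C' ^ 2) ≤ 1 + Real.log (Nat.card M) := by
    have := Real.log_le_log (Real.exp_pos _) h4
    rw [Real.log_exp, Real.log_mul (Real.exp_pos _).ne' (by positivity), Real.log_exp] at this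
    exact this
  rw [div_le_iff₀ (by positivity)] at h6
  have h7 : (1 / 2 : ℝ) ≤ Real.log (Nat.card M) := by
    have h8 : Real.log 2 ≤ Real.log (Nat.card M) := Real.log_le_log (by norm_num) hNr
    have := Real.log_two_gt_d9
    linarith
  have h8 : (A.card : ℝ) ≤ 12 * C' ^ 2 * Real.log (Nat.card M) := by
    have h9 : 0 < C' ^ 2 := by positivity
    nlinarith
  have h9 : (A.card : ℝ) * Real.log 2 ≤ (⌈12 * C' ^ 2⌉₊ : ℝ) * Real.log (Nat.card M) := by
    have hl2 : Real.log 2 ≤ 1 := by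
      have := Real.log_two_lt_d9
      linarith
    calc (A.card : ℝ) * Real.log 2 ≤ A.card * 1 := mul_le_mul_of_nonneg_left hl2 hAc.le
      _ ≤ 12 * C' ^ 2 * Real.log (Nat.card M) := by rw [mul_one]; exact h8
      _ ≤ _ := mul_le_mul_of_nonneg_right (Nat.le_ceil _) (by linarith)
  have h10 : Real.log ((2 : ℝ) ^ A.card) ≤ Real.log ((Nat.card M : ℝ) ^ ⌈12 * C' ^ 2⌉₊) := by
    rw [Real.log_pow, Real.log_pow]
    exact h9
  have h11 := (Real.log_le_log_iff (by positivity) (by positivity)).mp h10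
  exact_mod_cast h11

open Pool.Agent.H337R3.Sid in
/-- Finite unions of quasi-independent sets are subgaussian. -/
theorem Sys.union {k : ℕ} (Q : Fin k → Set Γ) (hQ : ∀ i, QI (Q i)) (A : Finset Γ) (a : Γ → ℂ)
    (hA : (A : Set Γ) ⊆ ⋃ i, Q i) :
    sInf (Adm μ (fun x => ∑ n ∈ A, a n * χ n x)) ≤
      (k * Real.sqrt 8) * Real.sqrt (∑ n ∈ A, ‖a n‖ ^ 2) := by
  classical
  set s := ∑ n ∈ A, ‖a n‖ ^ 2 with hs
  have hs0 : 0 ≤ s := Finset.sum_nonneg fun _ _ => sq_nonneg _
  rcases hs0.eq_or_lt with hz | hpos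
  · -- the polynomial vanishes
    have ha : ∀ n ∈ A, a n = 0 := by
      intro n hn
      have h1 : ‖a n‖ ^ 2 ≤ s := Finset.single_le_sum (f := fun n => ‖a n‖ ^ 2)
        (fun _ _ => sq_nonneg _) hn
      have h2 : ‖a n‖ ^ 2 = 0 := le_antisymm (by rw [← hz] at h1; exact h1) (sq_nonneg _)
      exact norm_eq_zero.mp (pow_eq_zero_iff (by norm_num) |>.mp h2)
    have hf : (fun x => ∑ n ∈ A, a n * χ n x) = fun _ => 0 := by
      funext x
      exact Finset.sum_eq_zero fun n hn => by rw [ha n hn, zero_mul]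
    rw [← hz, Real.sqrt_zero, mul_zero, hf]
    apply le_of_forall_pos_le_add
    intro ε hε
    rw [zero_add]
    exact csInf_le (Adm.bdd μ _) (Adm.of_bound μ hε fun x => by simpa using hε.le)
  · -- colouring
    have hkpos : 0 < k := by
      by_contra hk
      have hk0 : k = 0 := by omega
      subst hk0
      have : A = ∅ := by
        rw [Finset.eq_empty_iff_forall_notMem]
        intro n hn
        have := hA hn
        simp at this
      rw [this] at hs
      simp [hs] at hpos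
    have hk : (0 : ℝ) < k := by exact_mod_cast hkpos
    have hcol : ∀ n : Γ, ∃ i : Fin k, n ∈ A → n ∈ Q i := by
      intro n
      by_cases hn : n ∈ A
      · obtain ⟨i, hi⟩ := Set.mem_iUnion.mp (hA hn)
        exact ⟨i, fun _ => hi⟩
      · exact ⟨⟨0, hkpos⟩, fun h => absurd h hn⟩
    choose col hcol using hcol
    let B : Fin k → Finset Γ := fun i => A.filter fun n => col n = i
    let F : Fin k → X → ℂ := fun i x => ∑ n ∈ B i, a n * χ n x
    set σ := Real.sqrt s with hσ
    have hσ0 : 0 < σ := Real.sqrt_pos.mpr hpos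
    have hσ2 : σ ^ 2 = s := Real.sq_sqrt hs0
    have hF : ∀ i, ∫⁻ x, ENNReal.ofReal (Real.exp (‖F i x‖ ^ 2 / (8 * σ ^ 2))) ∂μ ≤
        ENNReal.ofReal (Real.exp 1) := by
      intro i
      refine hS.psi (B i) ?_ a σ hσ0 ?_
      · intro ξ hξ h
        refine hQ i (B i) ?_ ξ hξ h
        intro n hn
        have hn' := Finset.mem_filter.mp (Finset.mem_coe.mp hn)
        have := hcol n hn'.1
        rw [hn'.2] at this
        exact this
      · rw [hσ2]
        exact Finset.sum_le_sum_of_subset_of_nonneg (Finset.filter_subset _ _)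
          fun _ _ _ => sq_nonneg _
    have hsum : ∀ x, ∑ n ∈ A, a n * χ n x = ∑ i, F i x := by
      intro x
      exact (Finset.sum_fiberwise_of_maps_to (fun n _ => Finset.mem_univ (col n)) _).symm
    have hc : (k * Real.sqrt 8) * σ ∈ Adm μ (fun x => ∑ n ∈ A, a n * χ n x) := by
      refine ⟨by positivity, ?_⟩
      have hpt : ∀ x, Real.exp (‖∑ n ∈ A, a n * χ n x‖ ^ 2 / ((k * Real.sqrt 8) * σ) ^ 2) ≤
          ∑ i : Fin k, (1 / (k : ℝ)) * Real.exp (‖F i x‖ ^ 2 / (8 * σ ^ 2)) := by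
        intro x
        rw [hsum x]
        have h1 : ‖∑ i, F i x‖ ^ 2 ≤ k * ∑ i, ‖F i x‖ ^ 2 := by
          calc ‖∑ i, F i x‖ ^ 2 ≤ (∑ i, ‖F i x‖) ^ 2 :=
                pow_le_pow_left₀ (norm_nonneg _) (norm_sum_le _ _) 2
            _ ≤ k * ∑ i, ‖F i x‖ ^ 2 := by
                have := sq_sum_le_card_mul_sum_sq (s := (Finset.univ : Finset (Fin k)))
                  (f := fun i => ‖F i x‖)
                simpa using this
        have h2 : ‖∑ i, F i x‖ ^ 2 / ((k * Real.sqrt 8) * σ) ^ 2 ≤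
            ∑ i : Fin k, (1 / (k : ℝ)) * (‖F i x‖ ^ 2 / (8 * σ ^ 2)) := by
          rw [← Finset.mul_sum, ← Finset.sum_div, mul_pow, mul_pow, Real.sq_sqrt (by norm_num)]
          rw [div_le_iff₀ (by positivity)]
          refine h1.trans (le_of_eq ?_)
          field_simp
        refine (Real.exp_le_exp.mpr h2).trans ?_
        have h3 := convexOn_exp.map_sum_le (t := (Finset.univ : Finset (Fin k)))
          (w := fun _ => 1 / (k : ℝ)) (p := fun i => ‖F i x‖ ^ 2 / (8 * σ ^ 2))
          (fun _ _ => by positivity) (by simp; field_simp) (fun _ _ => Set.mem_univ _)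
        simpa only [smul_eq_mul] using h3
      have hFm : ∀ i, Measurable fun x => ENNReal.ofReal (Real.exp (‖F i x‖ ^ 2 / (8 * σ ^ 2))) := by
        intro i
        have : Measurable (F i) := Finset.measurable_fun_sum _ fun n _ => (hS.meas n).const_mul _
        exact (((this.norm).pow_const 2).div_const _).exp.ennreal_ofReal
      calc _ ≤ ∫⁻ x, ∑ i : Fin k, ENNReal.ofReal (1 / (k : ℝ)) *
            ENNReal.ofReal (Real.exp (‖F i x‖ ^ 2 / (8 * σ ^ 2))) ∂μ := by
            refine lintegral_mono fun x => ?_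
            refine (ENNReal.ofReal_le_ofReal (hpt x)).trans (le_of_eq ?_)
            rw [ENNReal.ofReal_sum_of_nonneg fun i _ => by positivity]
            exact Finset.sum_congr rfl fun i _ => ENNReal.ofReal_mul (by positivity)
        _ = ∑ i : Fin k, ENNReal.ofReal (1 / (k : ℝ)) *
            ∫⁻ x, ENNReal.ofReal (Real.exp (‖F i x‖ ^ 2 / (8 * σ ^ 2))) ∂μ := by
            rw [lintegral_finsetSum _ fun i _ => (hFm i).const_mul _]
            exact Finset.sum_congr rfl fun i _ => lintegral_const_mul _ (hFm i)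
        _ ≤ ∑ i : Fin k, ENNReal.ofReal (1 / (k : ℝ)) * ENNReal.ofReal (Real.exp 1) :=
            Finset.sum_le_sum fun i _ => mul_le_mul_right (hF i) _
        _ = ENNReal.ofReal (Real.exp 1) := by
            rw [Finset.sum_const, Finset.card_univ, Fintype.card_fin, nsmul_eq_mul, ← mul_assoc]
            have : (k : ℝ≥0∞) * ENNReal.ofReal (1 / (k : ℝ)) = 1 := by
              rw [← ENNReal.ofReal_natCast, ← ENNReal.ofReal_mul hk.le]
              rw [mul_one_div_cancel hk.ne', ENNReal.ofReal_one]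
            rw [this, one_mul]
    exact csInf_le (Adm.bdd μ _) hc

end General

end Pool.Agent.Y274.Sg
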