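import Pool.Agent.Y5.Stm

set_option autoImplicit false

/-! Derivative of the tail energy (job 151, for helper5). -/

open Set Filter Topology

namespace Pool.Agent.Y274.TAIL

open Pool.Agent.Y5

/-- term by term differentiation on a convex set -/
theorem hasDerivWithinAt_tsum {S : Set ℝ} (hS : Convex ℝ S) {f f' : ℕ → ℝ → ℝ} {u : ℕ → ℝ}
    (hu : Summable u) (hf : ∀ n, ∀ t ∈ S, HasDerivWithinAt (f n) (f' n t) S t)
    (hb : ∀ n, ∀ t ∈ S, |f' n t| ≤ u n) (hs : ∀ t ∈ S, Summable fun n => f n t) {t : ℝ}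
    (ht : t ∈ S) : HasDerivWithinAt (fun τ => ∑' n, f n τ) (∑' n, f' n t) S t := by
  rw [hasDerivWithinAt_iff_tendsto_slope]
  have h1 : Tendsto (fun τ => ∑' n, slope (f n) t τ) (𝓝[S \ {t}] t) (𝓝 (∑' n, f' n t)) := by
    refine tendsto_tsum_of_dominated_convergence hu (fun n => ?_) ?_
    · exact hasDerivWithinAt_iff_tendsto_slope.mp (hf n t ht)
    · filter_upwards [self_mem_nhdsWithin] with τ hτ n
      have hne : τ - t ≠ 0 := sub_ne_zero.mpr fun h => hτ.2 h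
      have h2 := hS.norm_image_sub_le_of_norm_hasDerivWithin_le (hf n) (hb n) ht hτ.1
      rw [slope_def_field, norm_div, div_le_iff₀ (norm_pos_iff.mpr hne)]
      exact h2
  refine h1.congr' ?_
  filter_upwards [self_mem_nhdsWithin] with τ hτ
  have h2 : ∀ n, slope (f n) t τ = (τ - t)⁻¹ * (f n τ - f n t) := fun n => by
    rw [slope_def_field, div_eq_inv_mul]
  simp only [h2]
  rw [tsum_mul_left, (hs τ hτ.1).tsum_sub (hs t ht), slope_def_field, div_eq_inv_mul]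

section Alg

variable {s ν C b M : ℝ} {B : ℕ → ℝ} {X : ℕ → ℝ}

theorem X_le (hs : 1 < s) (hX : ∀ n, s ^ (8 * n) * |X n| ≤ M) (n : ℕ) :
    |X n| ≤ M * (s⁻¹) ^ (8 * n) := by
  have h0 : 0 < s ^ (8 * n) := by positivity
  rw [inv_pow, ← div_eq_mul_inv, le_div_iff₀ h0, mul_comm]
  exact hX n

/-- the products -/
noncomputable def DD (s : ℝ) (B X : ℕ → ℝ) (i n : ℕ) : ℝ := s ^ (5 * i) * B (n - i) * X i * X n ^ 2

theorem DD_le (hs : 1 < s) (hB : ∀ j, |B j| ≤ b) (hX : ∀ n, s ^ (8 * n) * |X n| ≤ M) (i n : ℕ) :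
    |DD s B X i n| ≤ b * M ^ 3 * (s⁻¹) ^ (3 * i) * (s⁻¹) ^ (16 * n) := by
  have hs0 : 0 < s := by linarith
  have hb0 : 0 ≤ b := (abs_nonneg _).trans (hB 0)
  have hM0 : 0 ≤ M := le_trans (by positivity) (hX 0)
  have h1 := X_le hs hX i
  have h2 := X_le hs hX n
  unfold DD
  rw [abs_mul, abs_mul, abs_mul, abs_of_pos (by positivity : 0 < s ^ (5 * i)), abs_pow]
  calc s ^ (5 * i) * |B (n - i)| * |X i| * |X n| ^ 2
      ≤ s ^ (5 * i) * b * (M * (s⁻¹) ^ (8 * i)) * (M * (s⁻¹) ^ (8 * n)) ^ 2 := by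
        have := hB (n - i)
        gcongr
    _ = (s ^ (5 * i) * (s⁻¹) ^ (5 * i)) * (b * M ^ 3 * (s⁻¹) ^ (3 * i) * (s⁻¹) ^ (16 * n)) := by
        have e1 : (s⁻¹) ^ (8 * i) = (s⁻¹) ^ (5 * i) * (s⁻¹) ^ (3 * i) := by
          rw [← pow_add]; congr 1; ring
        have e2 : (s⁻¹) ^ (16 * n) = ((s⁻¹) ^ (8 * n)) ^ 2 := by
          rw [← pow_mul]; congr 1; ring
        rw [e1, e2]; ring
    _ = _ := by
        rw [← mul_pow, mul_inv_cancel₀ hs0.ne', one_pow, one_mul]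

/-- the flux -/
noncomputable def aa (s C : ℝ) (X : ℕ → ℝ) (n : ℕ) : ℝ := C * s ^ (5 * n) * X n ^ 2 * X (n + 1)

theorem aa_le (hs : 1 < s) (hX : ∀ n, s ^ (8 * n) * |X n| ≤ M) (n : ℕ) :
    |aa s C X n| ≤ |C| * M ^ 3 * (s⁻¹) ^ (8 * (n + 1)) := by
  have hs0 : 0 < s := by linarith
  have hM0 : 0 ≤ M := le_trans (by positivity) (hX 0)
  have h1 := X_le hs hX n
  have h2 := X_le hs hX (n + 1)
  have hq1 : s⁻¹ ≤ 1 := inv_le_one_of_one_le₀ hs.le
  have hq0 : 0 ≤ s⁻¹ := by positivity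
  unfold aa
  rw [abs_mul, abs_mul, abs_mul, abs_of_pos (by positivity : 0 < s ^ (5 * n)), abs_pow]
  calc |C| * s ^ (5 * n) * |X n| ^ 2 * |X (n + 1)|
      ≤ |C| * s ^ (5 * n) * (M * (s⁻¹) ^ (8 * n)) ^ 2 * (M * (s⁻¹) ^ (8 * (n + 1))) := by
        gcongr
    _ = (s ^ (5 * n) * (s⁻¹) ^ (5 * n)) * (|C| * M ^ 3 * (s⁻¹) ^ (8 * (n + 1)) * (s⁻¹) ^ (11 * n)) := by
        have e1 : ((s⁻¹) ^ (8 * n)) ^ 2 = (s⁻¹) ^ (5 * n) * (s⁻¹) ^ (11 * n) := by
          rw [← pow_mul, ← pow_add]; congr 1; ring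
        rw [mul_pow, e1]; ring
    _ = |C| * M ^ 3 * (s⁻¹) ^ (8 * (n + 1)) * (s⁻¹) ^ (11 * n) := by
        rw [← mul_pow, mul_inv_cancel₀ hs0.ne', one_pow, one_mul]
    _ ≤ |C| * M ^ 3 * (s⁻¹) ^ (8 * (n + 1)) * 1 := by
        have := pow_le_one₀ hq0 hq1 (n := 11 * n)
        gcongr
    _ = _ := mul_one _

/-- the dissipation -/
theorem dis_le (hs : 1 < s) (hν : 0 ≤ ν) (hX : ∀ n, s ^ (8 * n) * |X n| ≤ M) (n : ℕ) :
    |ν * s ^ (4 * n) * X n ^ 2| ≤ ν * M ^ 2 * (s⁻¹) ^ (8 * n) := by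
  have hs0 : 0 < s := by linarith
  have hM0 : 0 ≤ M := le_trans (by positivity) (hX 0)
  have h1 := X_le hs hX n
  have hq1 : s⁻¹ ≤ 1 := inv_le_one_of_one_le₀ hs.le
  have hq0 : 0 ≤ s⁻¹ := by positivity
  rw [abs_mul, abs_mul, abs_of_nonneg hν, abs_of_pos (by positivity : 0 < s ^ (4 * n)), abs_pow]
  calc ν * s ^ (4 * n) * |X n| ^ 2 ≤ ν * s ^ (4 * n) * (M * (s⁻¹) ^ (8 * n)) ^ 2 := by gcongr
    _ = (s ^ (4 * n) * (s⁻¹) ^ (4 * n)) * (ν * M ^ 2 * (s⁻¹) ^ (8 * n) * (s⁻¹) ^ (4 * n)) := by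
        have e1 : ((s⁻¹) ^ (8 * n)) ^ 2 = (s⁻¹) ^ (8 * n) * ((s⁻¹) ^ (4 * n) * (s⁻¹) ^ (4 * n)) := by
          rw [← pow_mul, ← pow_add, ← pow_add]; congr 1; ring
        rw [mul_pow, e1]; ring
    _ = ν * M ^ 2 * (s⁻¹) ^ (8 * n) * (s⁻¹) ^ (4 * n) := by
        rw [← mul_pow, mul_inv_cancel₀ hs0.ne', one_pow, one_mul]
    _ ≤ ν * M ^ 2 * (s⁻¹) ^ (8 * n) * 1 := by
        have := pow_le_one₀ hq0 hq1 (n := 4 * n)
        gcongr
    _ = _ := mul_one _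

theorem geo (hs : 1 < s) (k : ℕ) (hk : 0 < k) : Summable fun n : ℕ => (s⁻¹) ^ (k * n) := by
  have hq1 : s⁻¹ < 1 := inv_lt_one_of_one_lt₀ hs
  have hs0 : 0 < s := by linarith
  have hq0 : 0 ≤ s⁻¹ := by positivity
  simp only [pow_mul]
  exact summable_geometric_of_lt_one (by positivity) (pow_lt_one₀ hq0 hq1 hk.ne')

theorem X_sq_summable (hs : 1 < s) (hX : ∀ n, s ^ (8 * n) * |X n| ≤ M) :
    Summable fun n => X n ^ 2 := by
  refine Summable.of_norm_bounded (g := fun n => M ^ 2 * (s⁻¹) ^ (16 * n))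
    ((geo hs 16 (by norm_num)).mul_left _) fun n => ?_
  rw [Real.norm_eq_abs, abs_pow]
  calc |X n| ^ 2 ≤ (M * (s⁻¹) ^ (8 * n)) ^ 2 := pow_le_pow_left₀ (abs_nonneg _) (X_le hs hX n) 2
    _ = _ := by rw [mul_pow, ← pow_mul]; congr 2; ring

/-- the double series -/
noncomputable def GG (s : ℝ) (B X : ℕ → ℝ) (m : ℕ) (p : ℕ × ℕ) : ℝ :=
  if p.1 < p.2 then DD s B X (m + p.1) (m + p.2) else 0

theorem GG_le (hs : 1 < s) (hB : ∀ j, |B j| ≤ b) (hX : ∀ n, s ^ (8 * n) * |X n| ≤ M) (m : ℕ)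
    (p : ℕ × ℕ) : |GG s B X m p| ≤ b * M ^ 3 * ((s⁻¹) ^ (3 * p.1) * (s⁻¹) ^ (16 * p.2)) := by
  have hs0 : 0 < s := by linarith
  have hb0 : 0 ≤ b := (abs_nonneg _).trans (hB 0)
  have hM0 : 0 ≤ M := le_trans (by positivity) (hX 0)
  have hq1 : s⁻¹ ≤ 1 := inv_le_one_of_one_le₀ hs.le
  have hq0 : 0 ≤ s⁻¹ := by positivity
  unfold GG
  split_ifs
  · refine (DD_le hs hB hX _ _).trans ?_
    rw [mul_assoc]
    have h1 : (s⁻¹) ^ (3 * (m + p.1)) ≤ (s⁻¹) ^ (3 * p.1) := pow_le_pow_of_le_one hq0 hq1 (by omega)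
    have h2 : (s⁻¹) ^ (16 * (m + p.2)) ≤ (s⁻¹) ^ (16 * p.2) :=
      pow_le_pow_of_le_one hq0 hq1 (by omega)
    gcongr
  · rw [abs_zero]; positivity

theorem GG_summable (hs : 1 < s) (hB : ∀ j, |B j| ≤ b) (hX : ∀ n, s ^ (8 * n) * |X n| ≤ M)
    (m : ℕ) : Summable (GG s B X m) := by
  have hs0 : 0 < s := by linarith
  have h1 : Summable fun p : ℕ × ℕ => (s⁻¹) ^ (3 * p.1) * (s⁻¹) ^ (16 * p.2) :=
    (geo hs 3 (by norm_num)).mul_of_nonneg (geo hs 16 (by norm_num))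
      (fun _ => by positivity) (fun _ => by positivity)
  exact Summable.of_norm_bounded (h1.mul_left (b * M ^ 3)) fun p => GG_le hs hB hX m p

/-- decomposition of `x_n v_n` -/
theorem vf_decomp (n : ℕ) : X n * vf s ν C B X n =
    -(ν * s ^ (4 * n) * X n ^ 2) + ((if n = 0 then 0 else aa s C X (n - 1)) - aa s C X n)
      + ((∑ i ∈ Finset.range n, DD s B X i n) - ∑' k : ℕ, DD s B X n (n + 1 + k)) := by
  have e1 : ∑ i ∈ Finset.range n, DD s B X i n =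
      X n ^ 2 * ∑ i ∈ Finset.range n, s ^ (5 * i) * B (n - i) * X i := by
    rw [Finset.mul_sum]
    refine Finset.sum_congr rfl fun i _ => ?_
    unfold DD; ring
  have e2 : ∑' k : ℕ, DD s B X n (n + 1 + k) =
      s ^ (5 * n) * X n * ∑' k : ℕ, B (k + 1) * X (n + 1 + k) ^ 2 := by
    rw [← tsum_mul_left]
    refine tsum_congr fun k => ?_
    unfold DD
    have : n + 1 + k - n = k + 1 := by omega
    rw [this]; ring
  have e3 : (if n = 0 then 0 else aa s C X (n - 1)) =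
      X n * (if n = 0 then 0 else C * s ^ (5 * (n - 1)) * X (n - 1) ^ 2) := by
    split_ifs with h
    · rw [mul_zero]
    · unfold aa
      rw [Nat.sub_add_cancel (by omega)]
      ring
  rw [e1, e2, e3]
  unfold vf aa
  ring

/-- bound of `x_n v_n` -/
theorem vf_bound (hs : 1 < s) (hν : 0 ≤ ν) (hB : ∀ j, |B j| ≤ b)
    (hX : ∀ n, s ^ (8 * n) * |X n| ≤ M) (n : ℕ) :
    |X n * vf s ν C B X n| ≤ (ν * M ^ 2 + 2 * (|C| * M ^ 3) + b * M ^ 3 * (∑' k : ℕ, (s⁻¹) ^ (3 * k)) +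
      b * M ^ 3 * (∑' k : ℕ, (s⁻¹) ^ (16 * k))) * (s⁻¹) ^ (8 * n) := by
  have hs0 : 0 < s := by linarith
  have hb0 : 0 ≤ b := (abs_nonneg _).trans (hB 0)
  have hM0 : 0 ≤ M := le_trans (by positivity) (hX 0)
  have hq1 : s⁻¹ ≤ 1 := inv_le_one_of_one_le₀ hs.le
  have hq0 : 0 ≤ s⁻¹ := by positivity
  rw [vf_decomp]
  have t1 : |-(ν * s ^ (4 * n) * X n ^ 2)| ≤ ν * M ^ 2 * (s⁻¹) ^ (8 * n) := by
    rw [abs_neg]; exact dis_le hs hν hX n
  have t2 : |(if n = 0 then 0 else aa s C X (n - 1))| ≤ |C| * M ^ 3 * (s⁻¹) ^ (8 * n) := by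
    split_ifs with h
    · rw [abs_zero]; positivity
    · have := aa_le (C := C) hs hX (n - 1)
      rwa [Nat.sub_add_cancel (by omega)] at this
  have t3 : |aa s C X n| ≤ |C| * M ^ 3 * (s⁻¹) ^ (8 * n) := by
    refine (aa_le hs hX n).trans ?_
    have : (s⁻¹) ^ (8 * (n + 1)) ≤ (s⁻¹) ^ (8 * n) := pow_le_pow_of_le_one hq0 hq1 (by omega)
    gcongr
  have t4 : |∑ i ∈ Finset.range n, DD s B X i n| ≤
      b * M ^ 3 * (∑' k : ℕ, (s⁻¹) ^ (3 * k)) * (s⁻¹) ^ (8 * n) := by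
    refine (Finset.abs_sum_le_sum_abs _ _).trans ?_
    refine (Finset.sum_le_sum fun i _ => DD_le hs hB hX i n).trans ?_
    rw [← Finset.sum_mul, ← Finset.mul_sum]
    have h1 : ∑ i ∈ Finset.range n, (s⁻¹) ^ (3 * i) ≤ ∑' k : ℕ, (s⁻¹) ^ (3 * k) :=
      (geo hs 3 (by norm_num)).sum_le_tsum _ fun _ _ => by positivity
    have h2 : (s⁻¹) ^ (16 * n) ≤ (s⁻¹) ^ (8 * n) := pow_le_pow_of_le_one hq0 hq1 (by omega)
    have h3 : 0 ≤ ∑' k : ℕ, (s⁻¹) ^ (3 * k) := tsum_nonneg fun _ => by positivity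
    gcongr
  have t5 : |∑' k : ℕ, DD s B X n (n + 1 + k)| ≤
      b * M ^ 3 * (∑' k : ℕ, (s⁻¹) ^ (16 * k)) * (s⁻¹) ^ (8 * n) := by
    have h1 : ∀ k : ℕ, ‖DD s B X n (n + 1 + k)‖ ≤ b * M ^ 3 * (s⁻¹) ^ (8 * n) * (s⁻¹) ^ (16 * k) := by
      intro k
      refine (DD_le hs hB hX n (n + 1 + k)).trans ?_
      have h2 : (s⁻¹) ^ (3 * n) * (s⁻¹) ^ (16 * (n + 1 + k)) ≤ (s⁻¹) ^ (8 * n) * (s⁻¹) ^ (16 * k) := by
        rw [← pow_add, ← pow_add]
        exact pow_le_pow_of_le_one hq0 hq1 (by omega)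
      rw [mul_assoc, mul_assoc (b * M ^ 3)]
      gcongr
    have h2 := tsum_of_norm_bounded
      (((geo hs 16 (by norm_num)).mul_left (b * M ^ 3 * (s⁻¹) ^ (8 * n))).hasSum) h1
    rw [tsum_mul_left] at h2
    calc |∑' k : ℕ, DD s B X n (n + 1 + k)| ≤ _ := h2
      _ = _ := by ring
  calc |-(ν * s ^ (4 * n) * X n ^ 2) + ((if n = 0 then 0 else aa s C X (n - 1)) - aa s C X n)
      + ((∑ i ∈ Finset.range n, DD s B X i n) - ∑' k : ℕ, DD s B X n (n + 1 + k))|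
      ≤ |-(ν * s ^ (4 * n) * X n ^ 2)| + (|(if n = 0 then 0 else aa s C X (n - 1))| + |aa s C X n|)
        + (|∑ i ∈ Finset.range n, DD s B X i n| + |∑' k : ℕ, DD s B X n (n + 1 + k)|) := by
        refine (abs_add_le _ _).trans (add_le_add ((abs_add_le _ _).trans (add_le_add le_rfl ?_)) ?_)
        · exact abs_sub _ _
        · exact abs_sub _ _
    _ ≤ _ := by linarith

/-- the telescoping part -/
theorem tele (hs : 1 < s) (hX : ∀ n, s ^ (8 * n) * |X n| ≤ M) (m : ℕ) :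
    Summable (fun j : ℕ => (if m + j = 0 then 0 else aa s C X (m + j - 1)) - aa s C X (m + j)) ∧
    ∑' j : ℕ, ((if m + j = 0 then 0 else aa s C X (m + j - 1)) - aa s C X (m + j)) =
      if m = 0 then 0 else aa s C X (m - 1) := by
  have hs0 : 0 < s := by linarith
  have hM0 : 0 ≤ M := le_trans (by positivity) (hX 0)
  have hq1 : s⁻¹ ≤ 1 := inv_le_one_of_one_le₀ hs.le
  have hq0 : 0 ≤ s⁻¹ := by positivity
  have hinj : Function.Injective fun j : ℕ => m + j := fun a b h => by simpa using h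
  have sa : Summable (aa s C X) := by
    refine Summable.of_norm_bounded ((geo hs 8 (by norm_num)).mul_left (|C| * M ^ 3)) fun n => ?_
    refine (aa_le hs hX n).trans ?_
    have : (s⁻¹) ^ (8 * (n + 1)) ≤ (s⁻¹) ^ (8 * n) := pow_le_pow_of_le_one hq0 hq1 (by omega)
    gcongr
  have sa' : Summable fun j : ℕ => aa s C X (m + j) := sa.comp_injective hinj
  obtain ⟨A, hA⟩ : ∃ A : ℕ → ℝ, A = fun n => if n = 0 then 0 else aa s C X (n - 1) := ⟨_, rfl⟩
  have hA1 : ∀ n, A (n + 1) = aa s C X n := fun n => by rw [hA]; simp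
  have sA : Summable A := (summable_nat_add_iff 1).mp (by simpa only [hA1] using sa)
  have sA' : Summable fun j : ℕ => A (m + j) := sA.comp_injective hinj
  have h1 : ∀ j : ℕ, (if m + j = 0 then 0 else aa s C X (m + j - 1)) = A (m + j) := fun j => by
    rw [hA]
  have h2 : (if m = 0 then 0 else aa s C X (m - 1)) = A m := by rw [hA]
  simp only [h1, h2]
  refine ⟨sA'.sub sa', ?_⟩
  rw [sA'.tsum_sub sa', sA'.tsum_eq_zero_add]
  have : ∀ j : ℕ, A (m + (j + 1)) = aa s C X (m + j) := fun j => hA1 (m + j)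
  simp only [this, add_zero]
  ring

theorem row (m n : ℕ) :
    ∑' i : ℕ, GG s B X m (i, n) = ∑ i ∈ Finset.range n, DD s B X (m + i) (m + n) := by
  rw [tsum_eq_sum (s := Finset.range n)]
  · refine Finset.sum_congr rfl fun i hi => ?_
    unfold GG
    rw [if_pos (Finset.mem_range.mp hi)]
  · intro i hi
    unfold GG
    rw [if_neg (by simpa using hi)]

theorem col (m i : ℕ) (h1 : Summable fun n : ℕ => GG s B X m (i, n)) :
    ∑' n : ℕ, GG s B X m (i, n) = ∑' k : ℕ, DD s B X (m + i) (m + i + 1 + k) := by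
  rw [← h1.sum_add_tsum_nat_add (i + 1)]
  have h2 : ∑ n ∈ Finset.range (i + 1), GG s B X m (i, n) = 0 := by
    refine Finset.sum_eq_zero fun n hn => ?_
    unfold GG
    rw [if_neg]
    have := Finset.mem_range.mp hn
    simp only
    omega
  rw [h2, zero_add]
  refine tsum_congr fun k => ?_
  unfold GG
  rw [if_pos (by simp only; omega)]
  have : m + (k + (i + 1)) = m + i + 1 + k := by omega
  simp only [this]

/-- Fubini in the form needed -/
theorem fub {F : ℕ × ℕ → ℝ} (hF : Summable F) {R C : ℕ → ℝ} (hR : ∀ n, ∑' i, F (i, n) = R n)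
    (hC : ∀ i, ∑' n, F (i, n) = C i) :
    Summable (fun n => R n - C n) ∧ ∑' n, (R n - C n) = 0 := by
  have sR : Summable R := by
    have h1 : Summable fun p : ℕ × ℕ => F (p.2, p.1) := (Equiv.prodComm ℕ ℕ).summable_iff.mpr hF
    have := h1.prod
    simpa only [hR] using this
  have sC : Summable C := by
    have := hF.prod
    simpa only [hC] using this
  have h2 : ∑' n, R n = ∑' i, C i := by
    have h1 : ∑' n : ℕ, ∑' i : ℕ, F (i, n) = ∑' i : ℕ, ∑' n : ℕ, F (i, n) :=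
      Summable.tsum_comm (f := fun i n => F (i, n)) hF
    simpa only [hR, hC] using h1
  exact ⟨sR.sub sC, by rw [sR.tsum_sub sC, h2, sub_self]⟩

/-- the double series -/
theorem double (hs : 1 < s) (hB : ∀ j, |B j| ≤ b) (hX : ∀ n, s ^ (8 * n) * |X n| ≤ M) (m : ℕ) :
    Summable (fun j : ℕ => (∑ i ∈ Finset.range j, DD s B X (m + i) (m + j)) -
      ∑' k : ℕ, DD s B X (m + j) (m + j + 1 + k)) ∧
    ∑' j : ℕ, ((∑ i ∈ Finset.range j, DD s B X (m + i) (m + j)) -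
      ∑' k : ℕ, DD s B X (m + j) (m + j + 1 + k)) = 0 :=
  fub (GG_summable hs hB hX m) (fun n => row m n)
    (fun i => col m i ((GG_summable hs hB hX m).prod_factor i))

/-- the low modes -/
theorem low (hs : 1 < s) (hB : ∀ j, |B j| ≤ b) (hX : ∀ n, s ^ (8 * n) * |X n| ≤ M) (m : ℕ) :
    Summable (fun j : ℕ => ∑ i ∈ Finset.range m, DD s B X i (m + j)) ∧
    ∑' j : ℕ, ∑ i ∈ Finset.range m, DD s B X i (m + j) =
      ∑ i ∈ Finset.range m, s ^ (5 * i) * X i * ∑' j : ℕ, B (m + j - i) * X (m + j) ^ 2 := by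
  have hs0 : 0 < s := by linarith
  have hb0 : 0 ≤ b := (abs_nonneg _).trans (hB 0)
  have hM0 : 0 ≤ M := le_trans (by positivity) (hX 0)
  have hq1 : s⁻¹ ≤ 1 := inv_le_one_of_one_le₀ hs.le
  have hq0 : 0 ≤ s⁻¹ := by positivity
  have sL : ∀ i : ℕ, Summable fun j : ℕ => DD s B X i (m + j) := by
    intro i
    refine Summable.of_norm_bounded ((geo hs 16 (by norm_num)).mul_left
      (b * M ^ 3 * (s⁻¹) ^ (3 * i))) fun j => ?_
    refine (DD_le hs hB hX i (m + j)).trans ?_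
    have : (s⁻¹) ^ (16 * (m + j)) ≤ (s⁻¹) ^ (16 * j) := pow_le_pow_of_le_one hq0 hq1 (by omega)
    gcongr
  refine ⟨summable_sum fun i _ => sL i, ?_⟩
  rw [Summable.tsum_finsetSum fun i _ => sL i]
  refine Finset.sum_congr rfl fun i _ => ?_
  rw [← tsum_mul_left]
  refine tsum_congr fun j => ?_
  unfold DD; ring

/-- the sum of `x_n v_n` over the tail -/
theorem tail_sum (hs : 1 < s) (hν : 0 ≤ ν) (hB : ∀ j, |B j| ≤ b)
    (hX : ∀ n, s ^ (8 * n) * |X n| ≤ M) (m : ℕ) :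
    ∑' j : ℕ, X (m + j) * vf s ν C B X (m + j) =
      -(∑' j : ℕ, ν * s ^ (4 * (m + j)) * X (m + j) ^ 2)
        + (if m = 0 then 0 else C * s ^ (5 * (m - 1)) * X (m - 1) ^ 2 * X m)
        + ∑ i ∈ Finset.range m, s ^ (5 * i) * X i * ∑' j : ℕ, B (m + j - i) * X (m + j) ^ 2 := by
  have hinj : Function.Injective fun j : ℕ => m + j := fun a b h => by simpa using h
  have s1 : Summable fun j : ℕ => ν * s ^ (4 * (m + j)) * X (m + j) ^ 2 := by
    have : Summable fun n : ℕ => ν * s ^ (4 * n) * X n ^ 2 :=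
      Summable.of_norm_bounded ((geo hs 8 (by norm_num)).mul_left (ν * M ^ 2))
        fun n => dis_le hs hν hX n
    exact this.comp_injective hinj
  obtain ⟨sT, hT⟩ := tele (C := C) hs hX m
  obtain ⟨sD, hD⟩ := double hs hB hX m
  obtain ⟨sL, hL⟩ := low hs hB hX m
  have e : ∀ j : ℕ, X (m + j) * vf s ν C B X (m + j) =
      -(ν * s ^ (4 * (m + j)) * X (m + j) ^ 2) +
      ((if m + j = 0 then 0 else aa s C X (m + j - 1)) - aa s C X (m + j)) +
      ((∑ i ∈ Finset.range m, DD s B X i (m + j)) +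
        ((∑ i ∈ Finset.range j, DD s B X (m + i) (m + j)) -
          ∑' k : ℕ, DD s B X (m + j) (m + j + 1 + k))) := by
    intro j
    rw [vf_decomp, Finset.sum_range_add]
    ring
  rw [tsum_congr e, Summable.tsum_add (s1.neg.add sT) (sL.add sD),
    Summable.tsum_add s1.neg sT, Summable.tsum_add sL sD, hT, hD, hL, add_zero, tsum_neg]
  congr 2
  by_cases hm : m = 0
  · rw [if_pos hm, if_pos hm]
  · rw [if_neg hm, if_neg hm]
    unfold aa
    rw [Nat.sub_add_cancel (by omega)]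

end Alg

theorem t_TAIL : S_TAIL := by
  intro s ν C b T B x hs hν hB hx m t ht
  have hs0 : 0 < s := by linarith
  obtain ⟨T', hT1, hT2⟩ := exists_between ht.2
  obtain ⟨M, hM⟩ := hx.bdd T' hT2
  have hM' : ∀ τ ∈ Icc 0 T', ∀ n, s ^ (8 * n) * |x n τ| ≤ M := hM
  have hsub : Icc 0 T' ⊆ Ico 0 T := fun τ hτ => ⟨hτ.1, hτ.2.trans_lt hT2⟩
  have hmem : Icc 0 T' ∈ 𝓝[Ico 0 T] t := by
    have h1 : Iio T' ∈ 𝓝 t := Iio_mem_nhds hT1
    filter_upwards [mem_nhdsWithin_of_mem_nhds h1, self_mem_nhdsWithin] with τ h2 h3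
    exact ⟨h3.1, le_of_lt h2⟩
  have htI : t ∈ Icc 0 T' := ⟨ht.1, hT1.le⟩
  set K := ν * M ^ 2 + 2 * (|C| * M ^ 3) + b * M ^ 3 * (∑' k : ℕ, (s⁻¹) ^ (3 * k)) +
      b * M ^ 3 * (∑' k : ℕ, (s⁻¹) ^ (16 * k)) with hK
  have hd := hasDerivWithinAt_tsum (convex_Icc 0 T') (f := fun j τ => x (m + j) τ ^ 2)
    (f' := fun j τ => 2 * (x (m + j) τ * vf s ν C B (fun n => x n τ) (m + j)))
    (u := fun j => 2 * (K * (s⁻¹) ^ (8 * (m + j))))
    (by
      have h1 : Summable fun n : ℕ => 2 * (K * (s⁻¹) ^ (8 * n)) :=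
        ((geo hs 8 (by norm_num)).mul_left K).mul_left 2
      exact h1.comp_injective fun a b h => by simpa using h)
    (fun j τ hτ => by
      have h1 := ((hx.deriv (m + j) τ (hsub hτ)).mono hsub).pow 2
      refine h1.congr_deriv ?_
      simp only [Nat.cast_ofNat, Nat.add_one_sub_one, pow_one]
      ring)
    (fun j τ hτ => by
      rw [abs_mul, abs_of_pos (by norm_num : (0 : ℝ) < 2)]
      exact mul_le_mul_of_nonneg_left
        (vf_bound (X := fun n => x n τ) hs hν hB (hM' τ hτ) (m + j)) (by norm_num))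
    (fun τ hτ => by
      have h1 := X_sq_summable (X := fun n => x n τ) hs (hM' τ hτ)
      exact h1.comp_injective fun a b h => by simpa using h) htI
  refine (hd.mono_of_mem_nhdsWithin hmem).congr_deriv ?_
  rw [tsum_mul_left, tail_sum (X := fun n => x n t) hs hν hB (hM' t htI) m, Finset.mul_sum]
  have e : ∑ i ∈ Finset.range m, s ^ (5 * i) * x i t * ∑' j : ℕ, B (m + j - i) * x (m + j) t ^ 2 =
      ∑ i ∈ Finset.range m, s ^ (5 * i) * x i t * ∑' j : ℕ, B (m + j - i) * x (m + j) t ^ 2 := rfl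
  rw [← Finset.mul_sum]
  ring

end Pool.Agent.Y274.TAIL
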