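import Pool.Agent.H681R3.TI.Neg

set_option autoImplicit false

/-! Residually many mean zero continuous functions on the circle are not finite sums of
differences of bounded functions. -/

namespace Pool.Agent.Y274.Ti
open Finset Filter Topology Pool.Agent.H681R3.TI

/-- averages of arbitrary functions -/
noncomputable def avF (R : ℕ) (a : UnitAddCircle) (F : UnitAddCircle → ℂ) : UnitAddCircle → ℂ :=
  fun t => (1 / (R : ℂ)) * ∑ r ∈ range R, F (t - r • a)

/-- iterated averages of arbitrary functions -/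
noncomputable def ALF (R : ℕ) : List UnitAddCircle → (UnitAddCircle → ℂ) → UnitAddCircle → ℂ
  | [], F => F
  | a :: l, F => avF R a (ALF R l F)

theorem ALF_coe (R : ℕ) (l : List UnitAddCircle) (f : CT) : ALF R l f = AL R l f := by
  induction l with
  | nil => rfl
  | cons a l ih =>
    funext t
    show avF R a (ALF R l f) t = (av R a (AL R l f)) t
    rw [ih, av_apply, ContinuousMap.smul_apply, ContinuousMap.sum_apply, smul_eq_mul]
    rfl

theorem avF_bound (R : ℕ) (a : UnitAddCircle) (F : UnitAddCircle → ℂ) (C : ℝ) (hC : 0 ≤ C)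
    (h : ∀ t, ‖F t‖ ≤ C) (t : UnitAddCircle) : ‖avF R a F t‖ ≤ C := by
  unfold avF
  rcases Nat.eq_zero_or_pos R with hR | hR
  · subst hR; simpa using hC
  have hR' : (0 : ℝ) < R := by exact_mod_cast hR
  rw [norm_mul, norm_div, norm_one, Complex.norm_natCast]
  have h1 : ‖∑ r ∈ range R, F (t - r • a)‖ ≤ R * C := by
    refine (norm_sum_le _ _).trans ?_
    refine (sum_le_sum (fun r _ => h _)).trans ?_
    simp
  calc 1 / (R : ℝ) * _ ≤ 1 / (R : ℝ) * (R * C) := by gcongr
    _ = C := by field_simp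

theorem ALF_bound (R : ℕ) (l : List UnitAddCircle) (F : UnitAddCircle → ℂ) (C : ℝ) (hC : 0 ≤ C)
    (h : ∀ t, ‖F t‖ ≤ C) : ∀ t, ‖ALF R l F t‖ ≤ C := by
  induction l with
  | nil => exact h
  | cons a l ih => exact avF_bound R a _ C hC ih

/-- linearity -/
theorem ALF_sum (R : ℕ) (l : List UnitAddCircle) {ι : Type*} (s : Finset ι)
    (F : ι → UnitAddCircle → ℂ) :
    ALF R l (fun t => ∑ i ∈ s, F i t) = fun t => ∑ i ∈ s, ALF R l (F i) t := by
  induction l with
  | nil => rfl
  | cons a l ih =>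
    funext t
    show (1 / (R : ℂ)) * ∑ r ∈ range R, ALF R l (fun t => ∑ i ∈ s, F i t) (t - r • a) = _
    rw [ih, sum_comm, mul_sum]
    rfl

theorem ALF_sub (R : ℕ) (l : List UnitAddCircle) (F G : UnitAddCircle → ℂ) :
    ALF R l (fun t => F t - G t) = fun t => ALF R l F t - ALF R l G t := by
  induction l with
  | nil => rfl
  | cons a l ih =>
    funext t
    show (1 / (R : ℂ)) * ∑ r ∈ range R, ALF R l (fun t => F t - G t) (t - r • a) =
      (1 / (R : ℂ)) * ∑ r ∈ range R, ALF R l F (t - r • a) -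
      (1 / (R : ℂ)) * ∑ r ∈ range R, ALF R l G (t - r • a)
    rw [ih, ← mul_sub, sum_sub_distrib]

theorem ALF_tr (R : ℕ) (l : List UnitAddCircle) (F : UnitAddCircle → ℂ) (b : UnitAddCircle) :
    ALF R l (fun t => F (t - b)) = fun t => ALF R l F (t - b) := by
  induction l with
  | nil => rfl
  | cons a l ih =>
    funext t
    show (1 / (R : ℂ)) * ∑ r ∈ range R, ALF R l (fun t => F (t - b)) (t - r • a) =
      (1 / (R : ℂ)) * ∑ r ∈ range R, ALF R l F (t - b - r • a)
    rw [ih]
    congr 1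
    refine sum_congr rfl fun r _ => ?_
    show ALF R l F (t - r • a - b) = _
    congr 1
    abel

theorem avF_diff (R : ℕ) (hR : 0 < R) (a : UnitAddCircle) (F : UnitAddCircle → ℂ) (C : ℝ)
    (h : ∀ t, ‖F t‖ ≤ C) (t : UnitAddCircle) :
    ‖avF R a (fun t => F t - F (t - a)) t‖ ≤ 2 * C / R := by
  have hR' : (0 : ℝ) < R := by exact_mod_cast hR
  have e : avF R a (fun t => F t - F (t - a)) t = (1 / (R : ℂ)) * (F t - F (t - R • a)) := by
    unfold avF
    congr 1
    have : ∀ n : ℕ, ∑ r ∈ range n, (F (t - r • a) - F (t - r • a - a)) = F t - F (t - n • a) := by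
      intro n
      induction n with
      | zero => simp
      | succ n ih =>
        rw [sum_range_succ, ih, succ_nsmul]
        have : t - n • a - a = t - (n • a + a) := by abel
        rw [this]
        ring
    exact this R
  rw [e, norm_mul, norm_div, norm_one, Complex.norm_natCast]
  have h1 : ‖F t - F (t - R • a)‖ ≤ 2 * C := by
    refine (norm_sub_le _ _).trans ?_
    linarith [h t, h (t - R • a)]
  rw [one_div, div_eq_inv_mul]
  gcongr

theorem ALF_diff (R : ℕ) (hR : 0 < R) (F : UnitAddCircle → ℂ) (C : ℝ) (hC : 0 ≤ C)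
    (h : ∀ t, ‖F t‖ ≤ C) (a : UnitAddCircle) (l : List UnitAddCircle) (ha : a ∈ l) :
    ∀ t, ‖ALF R l (fun t => F t - F (t - a)) t‖ ≤ 2 * C / R := by
  induction l with
  | nil => exact absurd ha (by simp)
  | cons b l ih =>
    intro t
    rcases List.mem_cons.mp ha with rfl | hal
    · show ‖avF R a (ALF R l (fun t => F t - F (t - a))) t‖ ≤ _
      rw [ALF_sub, ALF_tr]
      exact avF_diff R hR a _ C (ALF_bound R l F C hC h) t
    · exact avF_bound R b _ _ (by positivity) (ih hal) t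

/-- a finite sum of differences of bounded functions has bounded averages -/
theorem BA_of_sum (f : CT) (N : ℕ) (a : Fin N → UnitAddCircle) (g : Fin N → UnitAddCircle → ℂ)
    (hg : ∀ j, ∃ C : ℝ, ∀ t, ‖g j t‖ ≤ C) (hf : ∀ t, f t = ∑ j, (g j t - g j (t - a j))) :
    ∃ K : ℝ, 0 ≤ K ∧ BA (List.ofFn a) K f := by
  choose C hC using hg
  have hC0 : ∀ j, 0 ≤ C j := fun j => (norm_nonneg _).trans (hC j 0)
  refine ⟨∑ j, 2 * C j, sum_nonneg fun j _ => by linarith [hC0 j], ?_⟩
  intro R hR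
  have hR' : (0 : ℝ) < R := by exact_mod_cast hR
  rw [ContinuousMap.norm_le _ (div_nonneg (sum_nonneg fun j _ => by linarith [hC0 j]) hR'.le)]
  intro t
  rw [← ALF_coe]
  have e : (f : UnitAddCircle → ℂ) = fun t => ∑ j, (g j t - g j (t - a j)) := funext hf
  rw [e, ALF_sum, sum_div]
  refine (norm_sum_le _ _).trans (sum_le_sum fun j _ => ?_)
  exact ALF_diff R hR (g j) (C j) (hC0 j) (hC j) (a j) _ (by
    rw [List.mem_ofFn]
    exact ⟨j, rfl⟩) t

/-- the sets of the Baire argument have empty interior -/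
theorem SS_interior (E : Set ℤ) (hE : FSRich E) (p : ℕ × ℕ) : interior (SS E p) = ∅ := by
  by_contra hne
  obtain ⟨h0, hh0⟩ := Set.nonempty_iff_ne_empty.mpr hne
  rw [mem_interior_iff_mem_nhds, Metric.mem_nhds_iff] at hh0
  obtain ⟨ε, hε, hball⟩ := hh0
  apply not_cov E hE
  intro g hg _
  -- scale
  have hs : 0 < ‖g‖ + 1 := by positivity
  set c : ℝ := ε / (2 * (‖g‖ + 1)) with hc
  have hc0 : 0 < c := by positivity
  have hg' : (c : ℂ) • g ∈ CE E := Submodule.smul_mem _ _ hg
  have hn : ‖(c : ℂ) • g‖ < ε := by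
    rw [norm_smul, Complex.norm_real, Real.norm_eq_abs, abs_of_pos hc0, hc]
    rw [div_mul_eq_mul_div, div_lt_iff₀ (by positivity)]
    nlinarith [norm_nonneg g]
  have h1 : h0 ∈ SS E p := hball (Metric.mem_ball_self hε)
  have h2 : h0 + ⟨(c : ℂ) • g, hg'⟩ ∈ SS E p := by
    apply hball
    rw [Metric.mem_ball, Subtype.dist_eq, dist_eq_norm]
    have e0 : ((h0 + ⟨(c : ℂ) • g, hg'⟩ : CE E) : CT) - (h0 : CT) = (c : ℂ) • g := by
      rw [Submodule.coe_add, add_sub_cancel_left]
    rw [e0]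
    exact hn
  obtain ⟨a, ha⟩ := h1
  obtain ⟨b, hb⟩ := h2
  refine ⟨List.ofFn b ++ List.ofFn a, c⁻¹ * (p.2 + p.2), by positivity, ?_⟩
  intro R hR
  have e : g = ((c⁻¹ : ℝ) : ℂ) • (((h0 + ⟨(c : ℂ) • g, hg'⟩ : CE E) : CT) - (h0 : CT)) := by
    rw [Submodule.coe_add, add_sub_cancel_left, smul_smul]
    rw [← Complex.ofReal_mul, inv_mul_cancel₀ hc0.ne', Complex.ofReal_one, one_smul]
  have hA : BA (List.ofFn b ++ List.ofFn a) p.2 ((h0 + ⟨(c : ℂ) • g, hg'⟩ : CE E) : CT) :=
    BA_append_left _ _ _ _ hb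
  have hB : BA (List.ofFn b ++ List.ofFn a) p.2 (h0 : CT) := BA_append_right _ _ _ _ ha
  rw [e, AL_smul, AL_sub, norm_smul, Complex.norm_real, Real.norm_eq_abs,
    abs_of_pos (inv_pos.mpr hc0), mul_div_assoc, add_div]
  refine mul_le_mul_of_nonneg_left ?_ (inv_pos.mpr hc0).le
  exact (norm_sub_le _ _).trans (add_le_add (hA R hR) (hB R hR))

theorem meagre_CE (E : Set ℤ) (hE : FSRich E) :
    ∀ᶠ h : CE E in residual (CE E), ∀ (l : List UnitAddCircle) (K : ℝ), ¬ BA l K (h : CT) := by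
  have h1 : ∀ p : ℕ × ℕ, (SS E p)ᶜ ∈ residual (CE E) := by
    intro p
    apply residual_of_dense_open (SS_closed E p).isOpen_compl
    rw [← interior_eq_empty_iff_dense_compl]
    exact SS_interior E hE p
  have h2 : (⋂ p : ℕ × ℕ, (SS E p)ᶜ) ∈ residual (CE E) := countable_iInter_mem.mpr h1
  filter_upwards [h2] with h hh l K hBA
  rw [Set.mem_iInter] at hh
  apply hh (l.length, ⌈K⌉₊)
  refine ⟨l.get, ?_⟩
  intro R hR
  rw [List.ofFn_get]
  refine (hBA R hR).trans ?_
  have := Nat.le_ceil K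
  gcongr

theorem FSRich_nonzero : FSRich {k : ℤ | k ≠ 0} := by
  intro r
  refine ⟨fun _ => 1, fun _ => one_pos, fun A hA => ?_⟩
  have : 0 < A.card := card_pos.mpr hA
  simp
  exact hA.ne_empty

/-- the space of mean zero continuous functions -/
theorem residual_mean_zero :
    ∀ᶠ f in residual {f : C(UnitAddCircle, ℂ) // ∫ t, f t = 0},
      ∀ (N : ℕ) (a : Fin N → UnitAddCircle) (g : Fin N → UnitAddCircle → ℂ),
        (∀ j, ∃ C : ℝ, ∀ t, ‖g j t‖ ≤ C) →
          ¬ ∀ t, f.1 t = ∑ j, (g j t - g j (t - a j)) := by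
  have hvol : (MeasureTheory.volume : MeasureTheory.Measure UnitAddCircle) =
      AddCircle.haarAddCircle := by
    rw [AddCircle.volume_eq_smul_haarAddCircle]
    simp
  have hmem : ∀ f : CT, f ∈ CE {k : ℤ | k ≠ 0} ↔ ∫ t, f t = 0 := by
    intro f
    rw [hvol]
    rw [mem_CE]
    constructor
    · intro h
      have := h 0 (by simp)
      rw [fcL_apply] at this
      unfold fourierCoeff at this
      simpa using this
    · intro h k hk
      have hk0 : k = 0 := by simpa using hk
      subst hk0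
      rw [fcL_apply]
      unfold fourierCoeff
      simpa using h
  let e : CE {k : ℤ | k ≠ 0} ≃ₜ {f : C(UnitAddCircle, ℂ) // ∫ t, f t = 0} :=
    { toFun := fun f => ⟨f.1, (hmem f.1).mp f.2⟩
      invFun := fun f => ⟨f.1, (hmem f.1).mpr f.2⟩
      left_inv := fun f => rfl
      right_inv := fun f => rfl
      continuous_toFun := by fun_prop
      continuous_invFun := by fun_prop }
  have h1 := meagre_CE _ FSRich_nonzero
  have h2 : Tendsto e.symm (residual {f : C(UnitAddCircle, ℂ) // ∫ t, f t = 0})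
      (residual (CE {k : ℤ | k ≠ 0})) := by
    intro s hs
    rw [Filter.mem_map]
    rw [mem_residual_iff] at hs ⊢
    obtain ⟨S, hSo, hSd, hSc, hSs⟩ := hs
    refine ⟨(fun u => e.symm ⁻¹' u) '' S, ?_, ?_, hSc.image _, ?_⟩
    · rintro _ ⟨u, hu, rfl⟩
      exact (hSo u hu).preimage e.symm.continuous
    · rintro _ ⟨u, hu, rfl⟩
      exact (hSd u hu).preimage e.symm.isOpenMap
    · rw [Set.sInter_image]
      intro x hx
      rw [Set.mem_iInter₂] at hx
      exact hSs (Set.mem_sInter.mpr fun u hu => hx u hu)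
  filter_upwards [h2.eventually h1] with f hf N a g hg hsum
  obtain ⟨K, _, hBA⟩ := BA_of_sum f.1 N a g hg hsum
  exact hf _ K hBA

end Pool.Agent.Y274.Ti
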