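import Mathlib

set_option autoImplicit false

/-! Abstract gradient bound for a lazy random walk in a weighted algebra (job 23). -/

open Finset

namespace Pool.Agent.Y274.YMWalk

/-- the average of `(m+1)^{-1/2}` over the binomial distribution -/
theorem binom_avg (d k : ℕ) (hd : 1 ≤ d) :
    ∑ m ∈ range (k + 1), (k.choose m : ℝ) * ((d : ℝ) - 1) ^ (k - m) * (1 / Real.sqrt (m + 1)) ≤
      (d : ℝ) ^ k * Real.sqrt (d / (k + 1)) := by
  have hd0 : (0 : ℝ) < d := by exact_mod_cast hd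
  have hd1 : (0 : ℝ) ≤ (d : ℝ) - 1 := by
    have : (1 : ℝ) ≤ d := by exact_mod_cast hd
    linarith
  set b := Real.sqrt (d / (k + 1)) with hb
  have hb0 : 0 < b := Real.sqrt_pos.mpr (by positivity)
  have hb2 : b ^ 2 = d / (k + 1) := Real.sq_sqrt (by positivity)
  have h1 : ∀ m ∈ range (k + 1), (k.choose m : ℝ) * ((d : ℝ) - 1) ^ (k - m) *
      (1 / Real.sqrt (m + 1)) ≤ 1 / 2 * (1 / b * ((k.choose m : ℝ) * ((d : ℝ) - 1) ^ (k - m) *
        (1 / (m + 1))) + b * ((k.choose m : ℝ) * ((d : ℝ) - 1) ^ (k - m))) := by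
    intro m _
    have hm : (0 : ℝ) < m + 1 := by positivity
    set y := Real.sqrt ((m : ℝ) + 1) with hy
    have hy0 : 0 < y := Real.sqrt_pos.mpr hm
    have hy2 : y ^ 2 = m + 1 := Real.sq_sqrt hm.le
    have h2 : 1 / y ≤ 1 / 2 * (1 / b * (1 / (m + 1)) + b) := by
      rw [← hy2]
      have h3 : 0 ≤ (1 / y - b) ^ 2 := sq_nonneg _
      have h4 : 1 / 2 * (1 / b * (1 / y ^ 2) + b) - 1 / y = (1 / y - b) ^ 2 / (2 * b) := by
        field_simp
        ring
      have h5 : 0 ≤ (1 / y - b) ^ 2 / (2 * b) := by positivity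
      linarith
    have h3 : 0 ≤ (k.choose m : ℝ) * ((d : ℝ) - 1) ^ (k - m) := by positivity
    calc (k.choose m : ℝ) * ((d : ℝ) - 1) ^ (k - m) * (1 / y)
        ≤ (k.choose m : ℝ) * ((d : ℝ) - 1) ^ (k - m) * (1 / 2 * (1 / b * (1 / (m + 1)) + b)) :=
          mul_le_mul_of_nonneg_left h2 h3
      _ = _ := by ring
  refine (sum_le_sum h1).trans ?_
  rw [← mul_sum, sum_add_distrib, ← mul_sum, ← mul_sum]
  have h2 : ∑ m ∈ range (k + 1), (k.choose m : ℝ) * ((d : ℝ) - 1) ^ (k - m) = (d : ℝ) ^ k := by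
    have := add_pow (1 : ℝ) ((d : ℝ) - 1) k
    rw [show (1 : ℝ) + (d - 1) = d by ring] at this
    rw [this]
    refine sum_congr rfl fun m _ => ?_
    rw [one_pow, one_mul, mul_comm]
  have h3 : ∑ m ∈ range (k + 1), (k.choose m : ℝ) * ((d : ℝ) - 1) ^ (k - m) * (1 / (m + 1)) ≤
      (d : ℝ) ^ (k + 1) / (k + 1) := by
    have h4 : ∀ m ∈ range (k + 1), (k.choose m : ℝ) * ((d : ℝ) - 1) ^ (k - m) * (1 / (m + 1)) =
        1 / (k + 1) * (((k + 1).choose (m + 1) : ℝ) * ((d : ℝ) - 1) ^ (k + 1 - (m + 1))) := by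
      intro m _
      have h5 : ((k : ℝ) + 1) * k.choose m = ((k + 1).choose (m + 1) : ℝ) * (m + 1) := by
        have := Nat.add_one_mul_choose_eq k m
        exact_mod_cast this
      rw [Nat.add_sub_add_right]
      have hk : (k : ℝ) + 1 ≠ 0 := by positivity
      have hm : (m : ℝ) + 1 ≠ 0 := by positivity
      field_simp
      linear_combination ((d : ℝ) - 1) ^ (k - m) * h5
    have e0 : (d : ℝ) ^ (k + 1) / (k + 1) = 1 / (k + 1) * (d : ℝ) ^ (k + 1) := by ring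
    rw [sum_congr rfl h4, ← mul_sum, e0]
    refine mul_le_mul_of_nonneg_left ?_ (by positivity)
    have h6 := add_pow (1 : ℝ) ((d : ℝ) - 1) (k + 1)
    rw [show (1 : ℝ) + (d - 1) = d by ring, sum_range_succ'] at h6
    rw [h6]
    have h7 : 0 ≤ (1 : ℝ) ^ 0 * ((d : ℝ) - 1) ^ (k + 1 - 0) * ((k + 1).choose 0 : ℝ) := by
      positivity
    refine le_trans (le_of_eq ?_) (le_add_of_nonneg_right h7)
    refine sum_congr rfl fun m _ => ?_
    rw [one_pow, one_mul, mul_comm]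
  rw [h2]
  have h4 : 1 / b * ((d : ℝ) ^ (k + 1) / (k + 1)) = b * (d : ℝ) ^ k := by
    have : (d : ℝ) / (k + 1) = b ^ 2 := hb2.symm
    rw [pow_succ, mul_div_assoc, this]
    field_simp
  have h5 : 1 / b * ∑ m ∈ range (k + 1), (k.choose m : ℝ) * ((d : ℝ) - 1) ^ (k - m) *
      (1 / (m + 1)) ≤ b * (d : ℝ) ^ k := by
    rw [← h4]
    exact mul_le_mul_of_nonneg_left h3 (by positivity)
  linarith

section Abs
variable {A : Type*} [CommRing A] [Algebra ℝ A]

/-- submultiplicative gauges -/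
structure WN (W : A → ℝ) : Prop where
  nonneg : ∀ a, 0 ≤ W a
  one : W 1 ≤ 1
  add : ∀ a b, W (a + b) ≤ W a + W b
  mul : ∀ a b, W (a * b) ≤ W a * W b
  smul : ∀ (c : ℝ) a, W (c • a) ≤ |c| * W a

/-- the binomial identity -/
theorem binom_id (S : A) (m : ℕ) : ((m : ℝ) + 1) • ((1 - S) * (1 + S) ^ m) =
    ∑ j ∈ range (m + 2), (((m : ℝ) + 1 - 2 * j) * (m + 1).choose j) • S ^ j := by
  have h1 : (1 + S) ^ (m + 1) = ∑ j ∈ range (m + 2), ((m + 1).choose j : ℝ) • S ^ j := by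
    rw [add_comm, add_pow]
    refine sum_congr rfl fun j _ => ?_
    rw [one_pow, mul_one, Algebra.smul_def, mul_comm, map_natCast]
  have h2 : ((m : ℝ) + 1) • (S * (1 + S) ^ m) =
      ∑ j ∈ range (m + 2), ((j : ℝ) * (m + 1).choose j) • S ^ j := by
    rw [sum_range_succ']
    simp only [Nat.cast_zero, zero_mul, zero_smul, add_zero]
    have h3 : (1 + S) ^ m = ∑ j ∈ range (m + 1), (m.choose j : ℝ) • S ^ j := by
      rw [add_comm, add_pow]
      refine sum_congr rfl fun j _ => ?_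
      rw [one_pow, mul_one, Algebra.smul_def, mul_comm, map_natCast]
    rw [h3, mul_sum, smul_sum]
    refine sum_congr rfl fun j _ => ?_
    have h4 : ((m : ℝ) + 1) * m.choose j = ((j : ℝ) + 1) * (m + 1).choose (j + 1) := by
      have := Nat.add_one_mul_choose_eq m j
      have h5 : (((m + 1) * m.choose j : ℕ) : ℝ) = (((m + 1).choose (j + 1) * (j + 1) : ℕ) : ℝ) := by
        exact_mod_cast this
      push_cast at h5
      linarith
    rw [mul_smul_comm, smul_smul, h4, pow_succ']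
    push_cast
    rfl
  have h3 : ∀ j ∈ range (m + 2), (((m : ℝ) + 1 - 2 * j) * (m + 1).choose j) • S ^ j =
      ((m : ℝ) + 1) • (((m + 1).choose j : ℝ) • S ^ j) -
        (2 : ℝ) • (((j : ℝ) * (m + 1).choose j) • S ^ j) := by
    intro j _
    rw [smul_smul, smul_smul, ← sub_smul]
    congr 1
    ring
  rw [sum_congr rfl h3, sum_sub_distrib, ← smul_sum, ← smul_sum, ← h1, ← h2, smul_comm (2 : ℝ),
    ← smul_sub]
  congr 1
  rw [two_smul, pow_succ]
  ring

/-- the second moment of the symmetric binomial distribution -/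
theorem second_moment (n : ℕ) :
    ∑ j ∈ range (n + 1), ((n : ℝ) - 2 * j) ^ 2 * (n.choose j : ℝ) = (n : ℝ) * 2 ^ n := by
  have h := congrArg (Polynomial.eval (1 / 2 : ℝ)) (bernsteinPolynomial.variance ℝ n)
  simp only [bernsteinPolynomial, Polynomial.eval_finsetSum, Polynomial.eval_mul,
    Polynomial.eval_pow, Polynomial.eval_sub, Polynomial.eval_X,
    Polynomial.eval_natCast, Polynomial.eval_one, nsmul_eq_mul] at h
  have h2 : ∀ j ∈ range (n + 1), ((n : ℝ) - 2 * j) ^ 2 * (n.choose j : ℝ) =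
      4 * 2 ^ n * (((n : ℝ) * (1 / 2) - j) ^ 2 * (n.choose j * (1 / 2) ^ j * (1 - 1 / 2) ^ (n - j))) := by
    intro j hj
    have hj' : j ≤ n := by rw [mem_range] at hj; omega
    have h3 : (1 / 2 : ℝ) ^ j * (1 - 1 / 2) ^ (n - j) = (1 / 2) ^ n := by
      rw [show (1 - 1 / 2 : ℝ) = 1 / 2 by norm_num, ← pow_add]
      congr 1
      omega
    have h4 : (2 : ℝ) ^ n * (1 / 2) ^ n = 1 := by
      rw [← mul_pow]; norm_num
    calc ((n : ℝ) - 2 * j) ^ 2 * (n.choose j : ℝ)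
        = 4 * ((2 : ℝ) ^ n * (1 / 2) ^ n) * (((n : ℝ) * (1 / 2) - j) ^ 2 * n.choose j) := by
          rw [h4]; ring
      _ = _ := by rw [← h3]; ring
  rw [sum_congr rfl h2, ← mul_sum, h]
  ring

variable {W : A → ℝ} (hW : WN W)
include hW

theorem WN.zero : W 0 ≤ 0 := by simpa using hW.smul 0 0

theorem WN.sum {ι : Type*} (s : Finset ι) (f : ι → A) :
    W (∑ i ∈ s, f i) ≤ ∑ i ∈ s, W (f i) := by
  classical
  induction s using Finset.induction_on with
  | empty => simpa using hW.zero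
  | insert a s ha ih =>
    rw [sum_insert ha, sum_insert ha]
    exact (hW.add _ _).trans (by linarith)

theorem WN.pow (a : A) (n : ℕ) : W (a ^ n) ≤ W a ^ n := by
  induction n with
  | zero => simpa using hW.one
  | succ n ih =>
    rw [pow_succ, pow_succ]
    exact (hW.mul _ _).trans (mul_le_mul_of_nonneg_right ih (hW.nonneg _))

/-- one-dimensional gradient bound -/
theorem WN.grad_one (S : A) (r : ℝ) (hr : 0 < r) (hS : W S ≤ r ^ 2) (m : ℕ) :
    W ((1 - S) * ((1 / 2 : ℝ) • (1 + S)) ^ m) ≤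
      (r ^ (m + 1) + ((1 + r ^ 4) / (2 * r)) ^ (m + 1)) / Real.sqrt (m + 1) := by
  set n : ℝ := (m : ℝ) + 1 with hn
  have hn0 : 0 < n := by positivity
  set sn := Real.sqrt n with hsn
  have hsn0 : 0 < sn := Real.sqrt_pos.mpr hn0
  have hsn2 : sn ^ 2 = n := Real.sq_sqrt hn0.le
  have e1 : (1 - S) * ((1 / 2 : ℝ) • (1 + S)) ^ m =
      ((1 / 2) ^ m * (1 / n) : ℝ) • (n • ((1 - S) * (1 + S) ^ m)) := by
    rw [smul_pow, mul_smul_comm, smul_smul, mul_assoc, one_div_mul_cancel hn0.ne', mul_one]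
  rw [e1, binom_id]
  refine (hW.smul _ _).trans ?_
  rw [abs_of_nonneg (by positivity)]
  -- termwise
  have h1 : ∀ j ∈ range (m + 2), W (((n - 2 * j) * (m + 1).choose j : ℝ) • S ^ j) ≤
      1 / 2 * (r ^ (m + 1) / sn * ((((m + 1 : ℕ) : ℝ) - 2 * j) ^ 2 * (m + 1).choose j) +
        sn / r ^ (m + 1) * ((m + 1).choose j * (r ^ 4) ^ j)) := by
    intro j _
    refine (hW.smul _ _).trans ?_
    have h2 : W (S ^ j) ≤ (r ^ 2) ^ j :=
      (hW.pow S j).trans (pow_le_pow_left₀ (hW.nonneg _) hS j)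
    rw [abs_mul, Nat.abs_cast]
    have hC : (0 : ℝ) ≤ (m + 1).choose j := by positivity
    have hrn : 0 < r ^ (m + 1) := by positivity
    have h3 : |n - 2 * j| * (r ^ 2) ^ j ≤
        1 / 2 * (r ^ (m + 1) / sn * (n - 2 * j) ^ 2 + sn / r ^ (m + 1) * (r ^ 4) ^ j) := by
      have h4 : (r ^ 4) ^ j = ((r ^ 2) ^ j) ^ 2 := by
        rw [← pow_mul, ← pow_mul, ← pow_mul]; congr 1; ring
      rw [h4, ← sq_abs (n - 2 * j)]
      set x := |n - 2 * (j : ℝ)|
      set y := (r ^ 2) ^ j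
      set u := r ^ (m + 1)
      have h5 : 0 ≤ (u * x - sn * y) ^ 2 := sq_nonneg _
      have h6 : u / sn * x ^ 2 + sn / u * y ^ 2 = ((u * x) ^ 2 + (sn * y) ^ 2) / (sn * u) := by
        field_simp
      rw [h6, ← mul_div_assoc, le_div_iff₀ (by positivity)]
      nlinarith
    calc |n - 2 * j| * ((m + 1).choose j : ℝ) * W (S ^ j)
        ≤ |n - 2 * j| * ((m + 1).choose j : ℝ) * (r ^ 2) ^ j :=
          mul_le_mul_of_nonneg_left h2 (mul_nonneg (abs_nonneg _) hC)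
      _ = (|n - 2 * j| * (r ^ 2) ^ j) * ((m + 1).choose j : ℝ) := by ring
      _ ≤ (1 / 2 * (r ^ (m + 1) / sn * (n - 2 * j) ^ 2 + sn / r ^ (m + 1) * (r ^ 4) ^ j)) *
            ((m + 1).choose j : ℝ) := mul_le_mul_of_nonneg_right h3 hC
      _ = _ := by
        rw [hn]
        push_cast
        ring
  have h2 := (hW.sum (range (m + 2)) fun j => ((n - 2 * j) * (m + 1).choose j : ℝ) • S ^ j).trans
    (sum_le_sum h1)
  rw [← mul_sum, sum_add_distrib, ← mul_sum, ← mul_sum, second_moment] at h2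
  have h3 : ∑ j ∈ range (m + 2), ((m + 1).choose j * (r ^ 4) ^ j : ℝ) = (1 + r ^ 4) ^ (m + 1) := by
    rw [add_comm (1 : ℝ), add_pow]
    refine sum_congr rfl fun j _ => ?_
    rw [one_pow, mul_one, mul_comm]
  rw [h3] at h2
  have hrn : 0 < r ^ (m + 1) := by positivity
  calc (1 / 2) ^ m * (1 / n) * _
      ≤ (1 / 2) ^ m * (1 / n) * (1 / 2 * (r ^ (m + 1) / sn * (((m + 1 : ℕ) : ℝ) * 2 ^ (m + 1)) +
          sn / r ^ (m + 1) * (1 + r ^ 4) ^ (m + 1))) := by
        refine mul_le_mul_of_nonneg_left h2 (by positivity)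
    _ = (r ^ (m + 1) + ((1 + r ^ 4) / (2 * r)) ^ (m + 1)) / sn := by
        have e2 : ((m + 1 : ℕ) : ℝ) = sn ^ 2 := by rw [hsn2]; push_cast; rfl
        have e3 : (1 / 2 : ℝ) ^ m * (1 / 2) = ((2 : ℝ) ^ (m + 1))⁻¹ := by
          rw [← pow_succ, one_div, inv_pow]
        have e4 : (2 : ℝ) ^ (m + 1) ≠ 0 := by positivity
        rw [e2, ← hsn2, div_pow (1 + r ^ 4) (2 * r), mul_pow 2 r]
        calc (1 / 2) ^ m * (1 / sn ^ 2) * (1 / 2 * (r ^ (m + 1) / sn * (sn ^ 2 * 2 ^ (m + 1)) +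
              sn / r ^ (m + 1) * (1 + r ^ 4) ^ (m + 1)))
            = ((1 / 2 : ℝ) ^ m * (1 / 2)) * ((1 / sn ^ 2) * (r ^ (m + 1) / sn * (sn ^ 2 * 2 ^ (m + 1)) +
              sn / r ^ (m + 1) * (1 + r ^ 4) ^ (m + 1))) := by ring
          _ = _ := by
            rw [e3]
            field_simp

/-- the powers of the walk -/
theorem WN.walk (S S' T : A) (r c : ℝ) (hr : 0 < r) (hc : 1 ≤ c) (h1 : 1 + r ^ 4 ≤ 2 * r ^ 2 * c)
    (hS : W S ≤ r ^ 2) (hS' : W S' ≤ (r ^ 2)⁻¹) (d k : ℕ) (hd : 1 ≤ d)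
    (hT : W T ≤ ((d : ℝ) - 1) * c) :
    W (((1 / d : ℝ) • (((1 / 2 : ℝ) • (1 + S)) * ((1 / 2 : ℝ) • (1 + S')) + T)) ^ k) ≤ c ^ k := by
  have hd0 : (0 : ℝ) < d := by exact_mod_cast hd
  refine (hW.pow _ k).trans (pow_le_pow_left₀ (hW.nonneg _) ?_ k)
  refine (hW.smul _ _).trans ?_
  rw [abs_of_pos (by positivity)]
  have hH : W ((1 / 2 : ℝ) • (1 + S)) ≤ (1 + r ^ 2) / 2 := by
    refine (hW.smul _ _).trans ?_
    rw [abs_of_pos (by norm_num)]
    have := (hW.add 1 S).trans (add_le_add hW.one hS)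
    linarith
  have hH' : W ((1 / 2 : ℝ) • (1 + S')) ≤ (1 + (r ^ 2)⁻¹) / 2 := by
    refine (hW.smul _ _).trans ?_
    rw [abs_of_pos (by norm_num)]
    have := (hW.add 1 S').trans (add_le_add hW.one hS')
    linarith
  have h2 : W (((1 / 2 : ℝ) • (1 + S)) * ((1 / 2 : ℝ) • (1 + S'))) ≤ c := by
    refine (hW.mul _ _).trans ?_
    refine (mul_le_mul hH hH' (hW.nonneg _) (by positivity)).trans ?_
    have h3 : (1 + r ^ 2) / 2 * ((1 + (r ^ 2)⁻¹) / 2) = (1 + r ^ 2) ^ 2 / (4 * r ^ 2) := by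
      field_simp
      ring
    rw [h3, div_le_iff₀ (by positivity)]
    have : r ^ 2 ≤ r ^ 2 * c := le_mul_of_one_le_right (by positivity) hc
    nlinarith
  have h3 := (hW.add (((1 / 2 : ℝ) • (1 + S)) * ((1 / 2 : ℝ) • (1 + S'))) T).trans (add_le_add h2 hT)
  rw [one_div, inv_mul_le_iff₀ hd0]
  linarith

/-- **Gradient bound.** -/
theorem WN.grad (S S' T : A) (r c : ℝ) (hr : 0 < r) (hc : 1 ≤ c) (h1 : 1 + r ^ 4 ≤ 2 * r ^ 2 * c)
    (hS : W S ≤ r ^ 2) (hS' : W S' ≤ (r ^ 2)⁻¹) (d k : ℕ) (hd : 1 ≤ d)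
    (hT : W T ≤ ((d : ℝ) - 1) * c) :
    W ((1 - S) * ((1 / d : ℝ) • (((1 / 2 : ℝ) • (1 + S)) * ((1 / 2 : ℝ) • (1 + S')) + T)) ^ k) ≤
      2 * r * c ^ (2 * k + 1) * Real.sqrt (d / (k + 1)) := by
  have hd0 : (0 : ℝ) < d := by exact_mod_cast hd
  have hd1 : (0 : ℝ) ≤ (d : ℝ) - 1 := by
    have : (1 : ℝ) ≤ d := by exact_mod_cast hd
    linarith
  have hc0 : 0 < c := by linarith
  set H := (1 / 2 : ℝ) • (1 + S) with hH
  set H' := (1 / 2 : ℝ) • (1 + S') with hH'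
  have e1 : (1 - S) * ((1 / d : ℝ) • (H * H' + T)) ^ k =
      ((1 / d : ℝ) ^ k) • ∑ m ∈ range (k + 1), (k.choose m : ℝ) •
        (((1 - S) * H ^ m) * (H' ^ m * T ^ (k - m))) := by
    rw [smul_pow, mul_smul_comm, add_pow, mul_sum]
    congr 1
    refine sum_congr rfl fun m _ => ?_
    rw [Algebra.smul_def, map_natCast, mul_pow]
    ring
  rw [e1]
  refine (hW.smul _ _).trans ?_
  rw [abs_of_nonneg (by positivity)]
  have hWH' : W H' ≤ c / r := by
    refine (hW.smul _ _).trans ?_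
    rw [abs_of_pos (by norm_num)]
    have h2 := (hW.add 1 S').trans (add_le_add hW.one hS')
    have h3 : 1 + r ^ 2 ≤ 2 * r * c := by
      have h4 : (1 + r ^ 2) ^ 2 ≤ (2 * r * c) ^ 2 := by
        have h5 : r ^ 2 ≤ r ^ 2 * c := le_mul_of_one_le_right (by positivity) hc
        have h6 : r ^ 2 * c ≤ r ^ 2 * c * c := le_mul_of_one_le_right (by positivity) hc
        nlinarith
      exact le_of_sq_le_sq h4 (by positivity)
    have h4 : 1 / 2 * (1 + (r ^ 2)⁻¹) ≤ c / r := by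
      rw [le_div_iff₀ hr]
      have : 1 / 2 * (1 + (r ^ 2)⁻¹) * r = (1 + r ^ 2) / (2 * r) := by
        field_simp
        ring
      rw [this, div_le_iff₀ (by positivity)]
      linarith
    linarith
  have h2 : ∀ m ∈ range (k + 1), W ((k.choose m : ℝ) •
        (((1 - S) * H ^ m) * (H' ^ m * T ^ (k - m)))) ≤
      2 * r * c ^ (2 * k + 1) *
        ((k.choose m : ℝ) * ((d : ℝ) - 1) ^ (k - m) * (1 / Real.sqrt (m + 1))) := by
    intro m hm
    have hmk : m ≤ k := by rw [mem_range] at hm; omega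
    have hs : 0 < Real.sqrt ((m : ℝ) + 1) := Real.sqrt_pos.mpr (by positivity)
    refine (hW.smul _ _).trans ?_
    rw [Nat.abs_cast]
    have h3 : W ((1 - S) * H ^ m) ≤ 2 * (r * c) ^ (m + 1) / Real.sqrt (m + 1) := by
      refine (hW.grad_one S r hr hS m).trans ?_
      refine div_le_div_of_nonneg_right ?_ hs.le
      have h4 : r ^ (m + 1) ≤ (r * c) ^ (m + 1) :=
        pow_le_pow_left₀ hr.le (le_mul_of_one_le_right hr.le hc) _
      have h5 : ((1 + r ^ 4) / (2 * r)) ^ (m + 1) ≤ (r * c) ^ (m + 1) := by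
        refine pow_le_pow_left₀ (by positivity) ?_ _
        rw [div_le_iff₀ (by positivity)]
        nlinarith
      linarith
    have h4 : W (H' ^ m) ≤ (c / r) ^ m :=
      (hW.pow _ m).trans (pow_le_pow_left₀ (hW.nonneg _) hWH' m)
    have h5 : W (T ^ (k - m)) ≤ (((d : ℝ) - 1) * c) ^ (k - m) :=
      (hW.pow _ _).trans (pow_le_pow_left₀ (hW.nonneg _) hT _)
    have h6 : W (((1 - S) * H ^ m) * (H' ^ m * T ^ (k - m))) ≤
        (2 * (r * c) ^ (m + 1) / Real.sqrt (m + 1)) * ((c / r) ^ m * (((d : ℝ) - 1) * c) ^ (k - m)) := by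
      refine (hW.mul _ _).trans (mul_le_mul h3 ?_ (hW.nonneg _) (by positivity))
      exact (hW.mul _ _).trans (mul_le_mul h4 h5 (hW.nonneg _) (by positivity))
    have h7 : (2 * (r * c) ^ (m + 1) / Real.sqrt (m + 1)) *
        ((c / r) ^ m * (((d : ℝ) - 1) * c) ^ (k - m)) =
        2 * r * c ^ (m + 1 + m + (k - m)) * (((d : ℝ) - 1) ^ (k - m) * (1 / Real.sqrt (m + 1))) := by
      rw [mul_pow, div_pow, mul_pow, pow_add c (m + 1 + m), pow_add c (m + 1), pow_succ r]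
      field_simp
    rw [h7] at h6
    have h8 : c ^ (m + 1 + m + (k - m)) ≤ c ^ (2 * k + 1) := by
      apply pow_le_pow_right₀ hc
      omega
    calc (k.choose m : ℝ) * W (((1 - S) * H ^ m) * (H' ^ m * T ^ (k - m)))
        ≤ (k.choose m : ℝ) * (2 * r * c ^ (m + 1 + m + (k - m)) *
          (((d : ℝ) - 1) ^ (k - m) * (1 / Real.sqrt (m + 1)))) :=
          mul_le_mul_of_nonneg_left h6 (by positivity)
      _ ≤ (k.choose m : ℝ) * (2 * r * c ^ (2 * k + 1) *
          (((d : ℝ) - 1) ^ (k - m) * (1 / Real.sqrt (m + 1)))) := by gcongr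
      _ = _ := by ring
  have h3 := (hW.sum (range (k + 1)) fun m => (k.choose m : ℝ) •
        (((1 - S) * H ^ m) * (H' ^ m * T ^ (k - m)))).trans (sum_le_sum h2)
  rw [← mul_sum] at h3
  have h4 := binom_avg d k hd
  calc (1 / d : ℝ) ^ k * _ ≤ (1 / d : ℝ) ^ k * (2 * r * c ^ (2 * k + 1) *
        ((d : ℝ) ^ k * Real.sqrt (d / (k + 1)))) := by
        refine mul_le_mul_of_nonneg_left (h3.trans ?_) (by positivity)
        exact mul_le_mul_of_nonneg_left h4 (by positivity)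
    _ = ((1 / d : ℝ) * d) ^ k * (2 * r * c ^ (2 * k + 1) * Real.sqrt (d / (k + 1))) := by
        rw [mul_pow]; ring
    _ = _ := by rw [one_div_mul_cancel hd0.ne', one_pow, one_mul]

end Abs

end Pool.Agent.Y274.YMWalk
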